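import Pool.Agent.Lib.MP_b2e238_gt.R.Defs
import Pool.Agent.Lib.MP_b2e238_gt.U.Cut
import Pool.Agent.Lib.MP_b2e238_gt.U.Bel
import Pool.Agent.Lib.MP_b2e238_gt.K.Inv

/-! Equivariant standard position at a fixed point. -/

open scoped ContDiff Topology
open Set Metric

noncomputable section

namespace Pool.Agent.Lib.MP_b2e238_gt

variable {P V W V' : Type} [NormedAddCommGroup P] [NormedSpace ℝ P] [NormedAddCommGroup V]
  [NormedSpace ℝ V] [NormedAddCommGroup W] [NormedSpace ℝ W] [NormedAddCommGroup V']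
  [NormedSpace ℝ V'] [FiniteDimensional ℝ P] [FiniteDimensional ℝ V] [FiniteDimensional ℝ W]
  [FiniteDimensional ℝ V']

/-- A slow symmetric cut-off. -/
theorem rad_slow {δ ε : ℝ} (hδ : 0 < δ) (hε : 0 < ε) : ∃ η : ℝ × ℂ → ℝ, ContDiff ℝ ∞ η ∧
    (∀ᶠ u in 𝓝 0, η u = 1) ∧ (∀ u, δ ≤ ‖u‖ → η u = 0) ∧ (∀ u, η (u.1, -u.2) = η u) ∧
    ∀ u, |η u| ≤ 1 ∧ ‖u‖ * ‖fderiv ℝ η u‖ ≤ ε := by
  obtain ⟨η, s, e1, e0, b⟩ := exists_slow (δ := δ ^ 2) (ε := ε / 4) (by positivity) (by positivity)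
  let N : ℝ × ℂ → ℝ := fun u => ‖u.1‖ ^ 2 + ‖u.2‖ ^ 2
  have sN : ContDiff ℝ ∞ N := (contDiff_fst.norm_sq ℝ).add (contDiff_snd.norm_sq ℝ)
  have sC : ContDiff ℝ ∞ fun u => (N u : ℂ) := Complex.ofRealCLM.contDiff.comp sN
  have nN (u : ℝ × ℂ) : ‖u‖ ^ 2 ≤ ‖(N u : ℂ)‖ := by
    rw [Complex.norm_real, Real.norm_of_nonneg (by positivity), Prod.norm_def]
    rcases max_choice ‖u.1‖ ‖u.2‖ with h | h <;> rw [h] <;> simp only [N] <;> nlinarith
  refine ⟨fun u => η (N u), s.comp sC, ?_, fun u h => e0 _ (le_trans ?_ (nN u)), fun u => ?_,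
    fun u => ⟨(b _).1, ?_⟩⟩
  · refine sC.continuous.continuousAt.tendsto.eventually (p := fun z => η z = 1) ?_
    simpa [N] using e1
  · gcongr
  · simp [N]
  · have d1 : HasFDerivAt N _ u := (hasFDerivAt_fst.norm_sq).add (hasFDerivAt_snd.norm_sq)
    have d2 : HasFDerivAt (fun u => η (N u)) _ u :=
      (s.differentiable (by simp) _).hasFDerivAt.comp u (Complex.ofRealCLM.hasFDerivAt.comp u d1)
    have k : ‖fderiv ℝ (fun u => η (N u)) u‖ ≤ ‖fderiv ℝ η (N u)‖ * (4 * ‖u‖) := by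
      rw [d2.fderiv]
      refine (ContinuousLinearMap.opNorm_comp_le _ _).trans (mul_le_mul_of_nonneg_left
        (ContinuousLinearMap.opNorm_le_bound _ (by positivity) fun x => ?_) (norm_nonneg _))
      have a1 := (abs_real_inner_le_norm u.1 x.1).trans
        (mul_le_mul (norm_fst_le u) (norm_fst_le x) (norm_nonneg _) (norm_nonneg _))
      have a2 := (abs_real_inner_le_norm u.2 x.2).trans
        (mul_le_mul (norm_snd_le u) (norm_snd_le x) (norm_nonneg _) (norm_nonneg _))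
      change ‖((2 • inner ℝ u.1 x.1 + 2 • inner ℝ u.2 x.2 : ℝ) : ℂ)‖ ≤ _
      rw [Complex.norm_real, Real.norm_eq_abs, two_smul, two_smul, abs_le]
      rw [abs_le] at a1 a2
      constructor <;> linarith [a1.1, a1.2, a2.1, a2.2]
    have := mul_le_mul_of_nonneg_right (nN u) (norm_nonneg (fderiv ℝ η (N u)))
    nlinarith [mul_le_mul_of_nonneg_left k (norm_nonneg u), (b (N u)).2]

/-- Cut-off of a symmetric germ whose derivative is a contraction. -/
theorem rad_cut {g : ℝ × ℂ → ℝ × ℂ} (c : ∀ᶠ u in 𝓝 (0 : ℝ × ℂ), ContDiffAt ℝ ∞ g u)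
    (z : g 0 = 0) (n : ‖fderiv ℝ g 0‖ < 1)
    (o : ∀ᶠ u in 𝓝 (0 : ℝ × ℂ), g (u.1, -u.2) = ((g u).1, -(g u).2)) {δ : ℝ} (p : 0 < δ) :
    ∃ D D' : ℝ × ℂ → ℝ × ℂ, Dif univ univ D D' ∧ (∀ u, δ ≤ ‖u‖ → D u = u) ∧
      (∀ u, D (u.1, -u.2) = ((D u).1, -(D u).2)) ∧ ∀ᶠ u in 𝓝 (0 : ℝ × ℂ), D u + g (D u) = u := by
  obtain ⟨m, m0, m1⟩ := exists_between n
  have m2 : 0 < m := (norm_nonneg _).trans_lt m0
  have ev : ∀ᶠ u in 𝓝 (0 : ℝ × ℂ), ‖fderiv ℝ g u‖ < m :=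
    (c.self_of_nhds.fderiv_right (m := 0) (by simp)).continuousAt.norm.eventually_lt
      continuousAt_const m0
  obtain ⟨r, r0, hr⟩ := Metric.eventually_nhds_iff_ball.1 (c.and (ev.and o))
  obtain ⟨η, s, e1, e0, es, b⟩ := rad_slow (lt_min p (half_pos r0)) (ε := (1 - m) / 2) (by linarith)
  let K : ℝ × ℂ → ℝ × ℂ := fun u => u + η u • g u
  have out (u) (h : min δ (r / 2) ≤ ‖u‖) : K u = u := by simp [K, e0 u h]
  have far (u) (h : u ∉ ball (0 : ℝ × ℂ) r) : K =ᶠ[𝓝 u] id := by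
    have : r / 2 < ‖u‖ := by
      rw [mem_ball_zero_iff, not_lt] at h
      linarith
    filter_upwards [continuous_norm.continuousAt.eventually (Ioi_mem_nhds this)] with y k using
      out y ((min_le_right _ _).trans (le_of_lt k))
  have sK : ContDiff ℝ ∞ K := contDiff_iff_contDiffAt.2 fun u => by
    by_cases h : u ∈ ball (0 : ℝ × ℂ) r
    · exact contDiffAt_id.add (s.contDiffAt.smul (hr u h).1)
    · exact contDiffAt_id.congr_of_eventuallyEq (far u h)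
  have dg (u) (h : u ∈ ball (0 : ℝ × ℂ) r) : DifferentiableAt ℝ g u :=
    (hr u h).1.differentiableAt (by simp)
  obtain ⟨D, sD, hD⟩ := near_id sK (c := (1 + m) / 2) (by linarith) fun u => by
    by_cases h : u ∈ ball (0 : ℝ × ℂ) r
    · have d : HasFDerivAt K _ u := (hasFDerivAt_id u).add
        ((s.differentiable (by simp) u).hasFDerivAt.smul (dg u h).hasFDerivAt)
      have k : ‖g u‖ ≤ m * ‖u‖ := by
        simpa [z] using (convex_ball (0 : ℝ × ℂ) r).norm_image_sub_le_of_norm_fderiv_le dg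
          (fun x k => (hr x k).2.1.le) (mem_ball_self r0) h
      rw [d.fderiv, ContinuousLinearMap.one_def, add_sub_cancel_left]
      refine (norm_add_le _ _).trans ?_
      rw [norm_smul, ContinuousLinearMap.norm_smulRight_apply]
      have a1 := mul_le_mul (b u).1 (hr u h).2.1.le (norm_nonneg _) zero_le_one
      have a2 := mul_le_mul_of_nonneg_left k (norm_nonneg (fderiv ℝ η u))
      have a3 := mul_le_mul m1.le (b u).2 (by positivity) zero_le_one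
      rw [Real.norm_eq_abs]
      nlinarith
    · rw [(far u h).fderiv_eq, fderiv_id]
      simp only [ContinuousLinearMap.one_def, sub_self, norm_zero]
      positivity
  have sym (u : ℝ × ℂ) : K (u.1, -u.2) = ((K u).1, -(K u).2) := by
    by_cases h : u ∈ ball (0 : ℝ × ℂ) r
    · simp only [K, es u, (hr u h).2.2]
      ext <;> simp [add_comm]
    · have : η u = 0 := e0 u (by
        rw [mem_ball_zero_iff, not_lt] at h
        exact (min_le_right _ _).trans (by linarith))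
      simp [K, es u, this]
  have d0 : D 0 = 0 := by simpa [K, z] using (hD 0).1
  refine ⟨D, K, ⟨sD.contDiffOn, sK.contDiffOn, mapsTo_univ _ _, mapsTo_univ _ _,
    fun u _ => (hD u).2, fun u _ => (hD u).1⟩, fun u h => ?_, fun u => ?_, ?_⟩
  · have := (hD u).1
    rwa [out u ((min_le_left _ _).trans h)] at this
  · have := (hD ((D u).1, -(D u).2)).1
    rwa [sym, (hD u).2] at this
  · have : ∀ᶠ u in 𝓝 (0 : ℝ × ℂ), η (D u) = 1 :=
      sD.continuous.continuousAt.tendsto.eventually (d0.symm ▸ e1)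
    filter_upwards [this] with u h
    simpa [K, h] using (hD u).2

/-- The same after a linear change of the target. -/
theorem rad_lin {Φ : ℝ × ℂ → ℝ × ℂ} (c : ∀ᶠ u in 𝓝 (0 : ℝ × ℂ), ContDiffAt ℝ ∞ Φ u)
    (z : Φ 0 = 0) (o : ∀ᶠ u in 𝓝 (0 : ℝ × ℂ), Φ (u.1, -u.2) = ((Φ u).1, -(Φ u).2)) {δ : ℝ}
    (p : 0 < δ) (α : ℝ) (B : ℂ →L[ℝ] ℂ) {μ : ℂ} (m : ‖μ‖ < 1)
    (e : ∀ u, α * (fderiv ℝ Φ 0 u).1 = u.1 ∧ B (fderiv ℝ Φ 0 u).2 = u.2 + μ * star u.2) :
    ∃ D D' : ℝ × ℂ → ℝ × ℂ, Dif univ univ D D' ∧ (∀ u, δ ≤ ‖u‖ → D u = u) ∧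
      (∀ u, D (u.1, -u.2) = ((D u).1, -(D u).2)) ∧
      ∀ᶠ u in 𝓝 (0 : ℝ × ℂ), α * (Φ (D u)).1 = u.1 ∧ B (Φ (D u)).2 = u.2 := by
  let M : ℝ × ℂ →L[ℝ] ℝ × ℂ := (ContinuousLinearMap.mul ℝ ℝ α).prodMap B
  have d : HasFDerivAt (fun u => M (Φ u) - u) _ 0 := (M.hasFDerivAt.comp 0
    (c.self_of_nhds.differentiableAt (by simp)).hasFDerivAt).sub (hasFDerivAt_id 0)
  obtain ⟨D, D', h1, h2, h3, h4⟩ := rad_cut (g := fun u => M (Φ u) - u)
    (c.mono fun u h => (M.contDiff.contDiffAt.comp u h).sub contDiffAt_id) (by simp [z])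
    (lt_of_le_of_lt (by
      rw [d.fderiv]
      refine ContinuousLinearMap.opNorm_le_bound _ (norm_nonneg μ) fun x => ?_
      change ‖((α * (fderiv ℝ Φ 0 x).1 - x.1, B (fderiv ℝ Φ 0 x).2 - x.2) : ℝ × ℂ)‖ ≤ _
      rw [(e x).1, (e x).2, sub_self, add_sub_cancel_left, Prod.norm_mk, norm_zero, norm_mul,
        norm_star, max_eq_right (by positivity)]
      exact mul_le_mul_of_nonneg_left (norm_snd_le x) (norm_nonneg _)) m)
    (o.mono fun u h => by
      rw [h]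
      ext <;> simp [M, add_comm, sub_eq_add_neg]) p
  refine ⟨D, D', h1, h2, h3, h4.mono fun u h => ?_⟩
  rw [add_sub_cancel] at h
  exact ⟨congrArg Prod.fst h, congrArg Prod.snd h⟩

theorem exists_adapt {Φ : ℝ × ℂ → ℝ × ℂ} (c : ∀ᶠ u in 𝓝 (0 : ℝ × ℂ), ContDiffAt ℝ ∞ Φ u)
    (z : Φ 0 = 0) (i : Function.Injective (fderiv ℝ Φ 0))
    (o : ∀ᶠ u in 𝓝 (0 : ℝ × ℂ), Φ (u.1, -u.2) = ((Φ u).1, -(Φ u).2)) {δ : ℝ} (p : 0 < δ) :
    ∃ D D' : ℝ × ℂ → ℝ × ℂ, Dif univ univ D D' ∧ (∀ u, δ ≤ ‖u‖ → D u = u) ∧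
      (∀ u, D (u.1, -u.2) = ((D u).1, -(D u).2)) ∧ ∃ (α : ℝ) (γ : ℂ), α ≠ 0 ∧ γ ≠ 0 ∧
        ((∀ᶠ u in 𝓝 (0 : ℝ × ℂ), Φ (D u) = (α * u.1, γ * u.2)) ∨
          ∀ᶠ u in 𝓝 (0 : ℝ × ℂ), Φ (D u) = (α * u.1, γ * star u.2)) := by
  let S : ℝ × ℂ →L[ℝ] ℝ × ℂ := (ContinuousLinearMap.id ℝ ℝ).prodMap (-ContinuousLinearMap.id ℝ ℂ)
  have d := (c.self_of_nhds.differentiableAt (by simp)).hasFDerivAt
  set L := fderiv ℝ Φ 0 with hL
  have e : L.comp S = S.comp L := by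
    have d1 : HasFDerivAt (Φ ∘ S) (L.comp S) 0 :=
      HasFDerivAt.comp 0 (by rwa [map_zero]) S.hasFDerivAt
    exact d1.unique ((S.hasFDerivAt.comp 0 d).congr_of_eventuallyEq o)
  have e' (a : ℝ) (v : ℂ) : L (a, -v) = ((L (a, v)).1, -(L (a, v)).2) :=
    DFunLike.congr_fun e (a, v)
  let A : ℂ →L[ℝ] ℂ := (ContinuousLinearMap.snd ℝ ℝ ℂ).comp (L.comp (.inr ℝ ℝ ℂ))
  have f (u : ℝ × ℂ) : L u = ((L (1, 0)).1 * u.1, A u.2) := by
    have a1 : (L (1, 0)).2 = 0 := by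
      have := congrArg Prod.snd (e' 1 0)
      rw [neg_zero] at this
      exact self_eq_neg.1 this
    have a2 : (L (0, u.2)).1 = 0 := by
      have := congrArg Prod.fst (e' 0 u.2)
      rw [show ((0, -u.2) : ℝ × ℂ) = -(0, u.2) by simp, map_neg] at this
      exact neg_eq_self.1 this
    rw [show L u = u.1 • L (1, 0) + L (0, u.2) by rw [← map_smul, ← map_add]; simp]
    ext
    · simp [a2, mul_comm]
    · simp [a1, A]
  generalize (L (1, 0)).1 = α at f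
  have a0 : α ≠ 0 := fun h => one_ne_zero (congrArg Prod.fst (i (a₁ := (1, 0)) (a₂ := 0)
    (by rw [f, h, map_zero, map_zero, zero_mul]; rfl)))
  have iA : Function.Injective A := fun v w h => congrArg Prod.snd
    (i (a₁ := (0, v)) (a₂ := (0, w)) (by rw [f, f, h]))
  have ne := ubel_ne (p := (A 1, A .I)) (bel_det iA)
  have ab := ubel_ab A
  dsimp only at ne
  generalize A 1 - .I * A .I = x at ne ab
  generalize A 1 + .I * A .I = y at ne ab
  rcases lt_or_gt_of_ne ne with h | h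
  · have x0 : x ≠ 0 := norm_pos_iff.1 ((norm_nonneg _).trans_lt h)
    obtain ⟨D, D', h1, h2, h3, h4⟩ := rad_lin c z o p α⁻¹ (.mul ℝ ℂ (2 / x)) (μ := y / x)
      (by rw [norm_div]; exact (div_lt_one (norm_pos_iff.2 x0)).2 h) fun u => by
        rw [← hL, f, inv_mul_cancel_left₀ a0]
        refine ⟨rfl, ?_⟩
        change 2 / x * A u.2 = u.2 + y / x * starRingEnd ℂ u.2
        field_simp
        linear_combination ab u.2
    refine ⟨D, D', h1, h2, h3, α, x / 2, a0, by simpa using x0, .inl (h4.mono fun u k => ?_)⟩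
    rw [← k.1, ← k.2, mul_inv_cancel_left₀ a0]
    refine Prod.ext rfl ?_
    change _ = x / 2 * (2 / x * _)
    field_simp
  · have y0 : y ≠ 0 := norm_pos_iff.1 ((norm_nonneg _).trans_lt h)
    obtain ⟨D, D', h1, h2, h3, h4⟩ := rad_lin c z o p α⁻¹
      ((Complex.conjCLE : ℂ →L[ℝ] ℂ).comp (.mul ℝ ℂ (2 / y))) (μ := star (x / y))
      (by rw [norm_star, norm_div]; exact (div_lt_one (norm_pos_iff.2 y0)).2 h) fun u => by
        rw [← hL, f, inv_mul_cancel_left₀ a0]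
        refine ⟨rfl, ?_⟩
        change star (2 / y * A u.2) = _
        rw [← star_mul', ← star_star u.2, ← star_add, star_star]
        congr 1
        change _ = starRingEnd ℂ u.2 + _
        field_simp
        linear_combination ab u.2
    refine ⟨D, D', h1, h2, h3, α, y / 2, a0, by simpa using y0, .inr (h4.mono fun u k => ?_)⟩
    rw [← k.1, ← k.2, mul_inv_cancel_left₀ a0]
    refine Prod.ext rfl ?_
    change _ = y / 2 * star (star (2 / y * _))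
    rw [star_star]
    field_simp

end Pool.Agent.Lib.MP_b2e238_gt
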