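import Pool.Agent.Lib.MP_b2e238_gt.R.Defs
import Pool.Agent.Lib.MP_b2e238_gt.K.Par
import Pool.Agent.Lib.MP_b2e238_gt.K.Inv
import Pool.Agent.Lib.MP_b2e238_gt.B.J

/-! The Joukowski model of the quotient of the solid torus. -/

open scoped ContDiff Topology
open Set Metric

noncomputable section

namespace Pool.Agent.Lib.MP_b2e238_gt

variable {G G' : ℂ → ℂ}

theorem rmod_norm {m : ℂ} (h : ‖m‖ = 1) (b : ℝ) : ‖m * (Real.exp b : ℝ)‖ = Real.exp b := by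
  rw [norm_mul, h, one_mul, Complex.norm_real, Real.norm_eq_abs, abs_of_pos (Real.exp_pos b)]

theorem rmod_ne {m : ℂ} (h : ‖m‖ = 1) (b : ℝ) : m * (Real.exp b : ℝ) ≠ 0 := by
  rw [← norm_ne_zero_iff, rmod_norm h]; exact (Real.exp_pos b).ne'

theorem rmod_inv {m : ℂ} (h : ‖m‖ = 1) (b : ℝ) :
    (m * (Real.exp b : ℝ))⁻¹ = star m * (Real.exp (-b) : ℝ) := by
  rw [mul_inv, Complex.inv_eq_conj h, Real.exp_neg, Complex.ofReal_inv]; rfl

theorem rmod_jou {U V : ℂ} (hU : U ≠ 0) (hV : V ≠ 0) (e : (V + V⁻¹) / 2 = (U + U⁻¹) / 2) :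
    V = U ∨ V = U⁻¹ := by
  have k : (V - U) * (V * U - 1) = 0 := by
    field_simp at e
    linear_combination e
  rcases mul_eq_zero.1 k with k | k
  · exact .inl (sub_eq_zero.1 k)
  · exact .inr (eq_inv_of_mul_eq_one_left (sub_eq_zero.1 k))

theorem rmod_pol {m m' : ℂ} (h : ‖m‖ = 1) (h' : ‖m'‖ = 1) {b b' : ℝ}
    (e : m' * (Real.exp b' : ℝ) = m * (Real.exp b : ℝ)) : m' = m ∧ b' = b := by
  have k : b' = b := Real.exp_injective (by rw [← rmod_norm h', e, rmod_norm h])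
  subst k
  exact ⟨mul_right_cancel₀ (by exact_mod_cast (Real.exp_pos b').ne') e, rfl⟩

theorem GG.rmod_gf (g : GG G G') (u : ℂ) : G' (G u) = u := g.dif.gf u trivial

theorem GG.rmod_fg (g : GG G G') (u : ℂ) : G (G' u) = u := g.dif.fg u trivial

theorem GG.rmod_odd (g : GG G G') (u : ℂ) : G' (-u) = -G' u := by
  have := g.rmod_gf (-G' u)
  rwa [g.odd, g.rmod_fg] at this

theorem GG.rmod_far (g : GG G G') {U : ℂ} (h : Real.exp 2 ≤ ‖U‖) : G' ((U + U⁻¹) / 2) = U := by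
  rw [← g.far U h, g.rmod_gf]

theorem GG.rmod_far' (g : GG G G') {U : ℂ} (h : Real.exp 2 ≤ ‖U⁻¹‖) :
    G' ((U + U⁻¹) / 2) = U⁻¹ := by
  have := g.rmod_far h
  rwa [inv_inv, add_comm] at this

theorem qm_smooth (g : GG G G') : ContDiffOn ℝ ∞ (qm G') (S1 ×ˢ univ) := by
  intro u hu
  have c : ContDiff ℝ ∞ G' := contDiffOn_univ.1 g.dif.cG
  have r : ContDiff ℝ ∞ fun u : ℂ × ℂ => u.2.re := Complex.reCLM.contDiff.comp contDiff_snd
  have i : ContDiff ℝ ∞ fun u : ℂ × ℂ => u.2.im := Complex.imCLM.contDiff.comp contDiff_snd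
  have e : ContDiff ℝ ∞ fun u : ℂ × ℂ => u.1 * (Real.exp u.2.im : ℝ) :=
    contDiff_fst.mul (Complex.ofRealCLM.contDiff.comp i.exp)
  have n := rmod_ne (mem_S1.1 hu.1) u.2.im
  exact ((c.contDiffAt.comp u ((e.contDiffAt.add (e.contDiffAt.inv n)).div_const 2)).prodMk
    r.contDiffAt).contDiffWithinAt

theorem rmod_star (G' : ℂ → ℂ) {u : ℂ × ℂ} (h : u.1 ∈ S1) : qm G' (star u) = qm G' u := by
  have k := rmod_inv (mem_S1.1 h) u.2.im
  have a : (star u).2.im = -u.2.im := rfl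
  have b : (star u).2.re = u.2.re := rfl
  have c : (star u).1 = star u.1 := rfl
  simp only [qm]
  rw [a, b, c, ← k, inv_inv, add_comm]

theorem rqm_fib (g : GG G G') {u u' : ℂ × ℂ} (h : u.1 ∈ S1) (h' : u'.1 ∈ S1) :
    qm G' u' = qm G' u ↔ u' = u ∨ u' = star u := by
  refine ⟨fun e => ?_, ?_⟩
  · have a : u'.2.re = u.2.re := congrArg Prod.snd e
    have b := congrArg (fun y => G y.1) e
    simp only [qm, g.rmod_fg] at b
    have n := mem_S1.1 h
    have n' := mem_S1.1 h'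
    rcases rmod_jou (rmod_ne n _) (rmod_ne n' _) b with k | k
    · obtain ⟨k₁, k₂⟩ := rmod_pol n n' k
      exact .inl (Prod.ext k₁ (Complex.ext a k₂))
    · rw [rmod_inv n] at k
      obtain ⟨k₁, k₂⟩ := rmod_pol (by rw [norm_star, n]) n' k
      exact .inr (Prod.ext k₁ (Complex.ext a k₂))
  · rintro (rfl | rfl)
    · rfl
    · exact rmod_star G' h

theorem rmod_lift (g : GG G G') {y : ℂ × ℝ} {s : ℂ} (e : s ^ 2 = G y.1 ^ 2 - 1) :
    G y.1 + s ≠ 0 ∧ ph (G y.1 + s) ∈ S1 ∧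
      qm G' (ph (G y.1 + s), y.2 + .I * Real.log ‖G y.1 + s‖) = y := by
  have p : (G y.1 + s) * (G y.1 - s) = 1 := by linear_combination -e
  have n : G y.1 + s ≠ 0 := left_ne_zero_of_mul_eq_one p
  have i : (G y.1 + s)⁻¹ = G y.1 - s := inv_eq_of_mul_eq_one_right p
  have a : ((y.2 : ℂ) + .I * Real.log ‖G y.1 + s‖).im = Real.log ‖G y.1 + s‖ := by
    simp only [Complex.add_im, Complex.ofReal_im, Complex.mul_im, Complex.I_re, Complex.I_im,
      Complex.ofReal_re]; ring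
  have b : ((y.2 : ℂ) + .I * Real.log ‖G y.1 + s‖).re = y.2 := by
    simp only [Complex.add_re, Complex.ofReal_im, Complex.mul_re, Complex.I_re, Complex.I_im,
      Complex.ofReal_re]; ring
  refine ⟨n, mem_S1.2 (ph_norm n), ?_⟩
  simp only [qm]
  rw [a, b, Real.exp_log (norm_pos_iff.2 n), mul_comm, ph_mul_norm n, i,
    show (G y.1 + s + (G y.1 - s)) / 2 = G y.1 by ring, g.rmod_gf]

theorem rqm_surj (g : GG G G') (y : ℂ × ℝ) : ∃ u : ℂ × ℂ, u.1 ∈ S1 ∧ qm G' u = y := by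
  obtain ⟨s, e⟩ := IsAlgClosed.exists_pow_nat_eq (G y.1 ^ 2 - 1) two_pos
  exact ⟨(_, _), (rmod_lift g e).2⟩

theorem qm_mem (g : GG G G') {u : ℂ × ℂ} (h : u.1 ∈ S1) :
    ‖(qm G' u).1‖ < Real.exp 3 ↔ |u.2.im| < 3 := by
  have n := mem_S1.1 h
  have a := rmod_norm n u.2.im
  have a' : ‖(u.1 * (Real.exp u.2.im : ℝ))⁻¹‖ = Real.exp (-u.2.im) := by
    rw [norm_inv, a, Real.exp_neg]
  rw [← not_le, ← not_le, not_iff_not]
  simp only [qm]
  refine ⟨fun k => ?_, fun k => ?_⟩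
  · have k₂ := (Real.exp_le_exp.2 (show (2 : ℝ) ≤ 3 by norm_num)).trans k
    have f := g.far _ k₂
    rw [g.rmod_fg] at f
    have n' := norm_pos_iff.1 ((Real.exp_pos 2).trans_le k₂)
    rcases rmod_jou (rmod_ne n _) n' f.symm with e | e
    · rw [e, a] at k
      exact (Real.exp_le_exp.1 k).trans (le_abs_self _)
    · rw [e, a'] at k
      exact (Real.exp_le_exp.1 k).trans (neg_le_abs _)
  · rcases le_abs.1 k with k | k
    · rw [g.rmod_far (by rw [a]; exact Real.exp_le_exp.2 (by linarith)), a]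
      exact Real.exp_le_exp.2 k
    · rw [g.rmod_far' (by rw [a']; exact Real.exp_le_exp.2 (by linarith)), a']
      exact Real.exp_le_exp.2 k

theorem qm_neg (g : GG G G') (m w : ℂ) : qm G' (-m, w) = (-(qm G' (m, w)).1, w.re) := by
  simp only [qm]
  rw [← g.rmod_odd, neg_mul, inv_neg, ← neg_add, neg_div]

theorem qm_up (g : GG G G') {m k w : ℂ} (h : m ∈ S1) (hk : ‖k‖ = 1) (b : 2 < w.im) :
    qm G' (m * k, w) = (k * (qm G' (m, w)).1, w.re) := by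
  have n := mem_S1.1 h
  have n' : ‖m * k‖ = 1 := by rw [norm_mul, n, hk, one_mul]
  simp only [qm]
  rw [g.rmod_far (by rw [rmod_norm n']; exact Real.exp_le_exp.2 b.le),
    g.rmod_far (by rw [rmod_norm n]; exact Real.exp_le_exp.2 b.le)]
  congr 1; ring

theorem qm_down (g : GG G G') {m k w : ℂ} (h : m ∈ S1) (hk : ‖k‖ = 1) (b : w.im < -2) :
    qm G' (m * star k, w) = (k * (qm G' (m, w)).1, w.re) := by
  have n := mem_S1.1 h
  have n' : ‖m * star k‖ = 1 := by rw [norm_mul, n, norm_star, hk, one_mul]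
  have l : Real.exp 2 ≤ Real.exp (-w.im) := Real.exp_le_exp.2 (by linarith)
  simp only [qm]
  rw [g.rmod_far' (by rwa [norm_inv, rmod_norm n', ← Real.exp_neg]),
    g.rmod_far' (by rwa [norm_inv, rmod_norm n, ← Real.exp_neg]), rmod_inv n, rmod_inv n',
    star_mul, star_star, mul_assoc]

theorem rmod_q (g : GG G G') {u : ℂ × ℂ} (h : u.1 ∈ S1) (n : star u ≠ u) :
    G (qm G' u).1 ^ 2 - 1 ≠ 0 := by
  intro z
  have m := mem_S1.1 h
  have a := rmod_ne m u.2.im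
  simp only [qm, g.rmod_fg] at z
  have k : u.1 * (Real.exp u.2.im : ℝ) = (u.1 * (Real.exp u.2.im : ℝ))⁻¹ := by
    generalize u.1 * (Real.exp u.2.im : ℝ) = U at a z
    have e : U * U⁻¹ = 1 := mul_inv_cancel₀ a
    have : (U - U⁻¹) ^ 2 = 0 := by linear_combination 4 * z - 4 * e
    exact sub_eq_zero.1 ((pow_eq_zero_iff two_ne_zero).1 this)
  rw [rmod_inv m] at k
  obtain ⟨k₁, k₂⟩ := rmod_pol (by rw [norm_star, m]) m k
  exact n (Prod.ext k₁.symm (Complex.ext rfl k₂.symm))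

theorem rmod_root {P : Type} [NormedAddCommGroup P] [NormedSpace ℝ P] {f : P → ℂ}
    (c : ContDiff ℝ ∞ f) {x : P} (n : f x ≠ 0) : ∃ (O : Set P) (r : P → ℂ), IsOpen O ∧ x ∈ O ∧
      ∀ y ∈ O, ContDiffAt ℝ ∞ r y ∧ r y ^ 2 = f y := by
  obtain ⟨s, e⟩ := IsAlgClosed.exists_pow_nat_eq (f x) two_pos
  have d : ContDiff ℝ ∞ fun y => f y / f x := c.div_const _
  refine ⟨{y | f y / f x ∈ Complex.slitPlane},
    fun y => s * Complex.exp (Complex.log (f y / f x) / 2),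
    Complex.isOpen_slitPlane.preimage d.continuous, ?_, fun y hy => ⟨?_, ?_⟩⟩
  · rw [mem_setOf_eq, div_self n]; exact Complex.one_mem_slitPlane
  · have l : ContDiffAt ℝ ∞ Complex.log (f y / f x) :=
      (Complex.contDiffAt_log hy).restrict_scalars ℝ
    have l' : ContDiffAt ℝ ∞ (fun y => Complex.log (f y / f x)) y :=
      ContDiffAt.comp (g := Complex.log) y l d.contDiffAt
    exact contDiffAt_const.mul (l'.div_const 2).cexp
  · rw [mul_pow, e, ← Complex.exp_nat_mul, Nat.cast_ofNat, mul_div_cancel₀ _ two_ne_zero,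
      Complex.exp_log (Complex.slitPlane_ne_zero hy), mul_div_cancel₀ _ n]

theorem rmod_sm {U : ℂ × ℝ → ℂ} {y : ℂ × ℝ} (c : ContDiffAt ℝ ∞ U y) (n : U y ≠ 0) :
    ContDiffAt ℝ ∞ (fun y : ℂ × ℝ => (ph (U y), (y.2 : ℂ) + .I * Real.log ‖U y‖)) y := by
  have a : ContDiffAt ℝ ∞ (fun y => ‖U y‖) y := (contDiffAt_norm ℝ n).comp y c
  have b : ContDiffAt ℝ ∞ (fun y => Real.log ‖U y‖) y := a.log (norm_ne_zero_iff.2 n)
  have d : ContDiffAt ℝ ∞ (fun y => ((Real.log ‖U y‖ : ℝ) : ℂ)) y :=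
    Complex.ofRealCLM.contDiff.contDiffAt.comp y b
  have e : ContDiffAt ℝ ∞ (fun y : ℂ × ℝ => (y.2 : ℂ)) y :=
    Complex.ofRealCLM.contDiff.contDiffAt.comp y contDiffAt_snd
  exact (ph_at c n).prodMk (e.add (contDiffAt_const.mul d))

theorem qm_sec (g : GG G G') {u : ℂ × ℂ} (h : u.1 ∈ S1) (n : star u ≠ u) :
    ∃ (O : Set (ℂ × ℝ)) (σ : ℂ × ℝ → ℂ × ℂ), IsOpen O ∧ qm G' u ∈ O ∧ ContDiffOn ℝ ∞ σ O ∧
      ∀ y ∈ O, (σ y).1 ∈ S1 ∧ qm G' (σ y) = y := by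
  have c : ContDiff ℝ ∞ fun y : ℂ × ℝ => G y.1 := (contDiffOn_univ.1 g.dif.cF).comp contDiff_fst
  have d : ContDiff ℝ ∞ fun y : ℂ × ℝ => G y.1 ^ 2 - 1 := (c.pow 2).sub contDiff_const
  obtain ⟨O, r, o, m, k⟩ := rmod_root d (rmod_q g h n)
  exact ⟨O, fun y => (ph (G y.1 + r y), y.2 + .I * Real.log ‖G y.1 + r y‖), o, m,
    fun y hy => (rmod_sm (U := fun y => G y.1 + r y) (c.contDiffAt.add (k y hy).1)
      (rmod_lift g (k y hy).2).1).contDiffWithinAt, fun y hy => (rmod_lift g (k y hy).2).2⟩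

end Pool.Agent.Lib.MP_b2e238_gt
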