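import Pool.Agent.Lib.MP_b2e238_gt.R.P0
import Pool.Agent.Lib.MP_b2e238_gt.R.Mod
import Pool.Agent.Lib.MP_b2e238_gt.TL.Emb
import Pool.Agent.Lib.MP_b2e238_gt.B.J

/-! The two outer real arcs; the rotation below. -/

open scoped ContDiff Topology
open Set Metric

noncomputable section

namespace Pool.Agent.Lib.MP_b2e238_gt

section Arc
variable {τ τ' : ℂ × ℂ → ℂ × ℂ} {N : Set (ℂ × ℂ)} {zf : ℂ × ℂ → ℝ} {x ε : ℝ}

/-- A neighbourhood of one of the two outer real arcs, `ε = ± 1`. -/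
def arcU (τ : ℂ × ℂ → ℂ × ℂ) (zf : ℂ × ℂ → ℝ) (x ε : ℝ) : Set (ℂ × ℂ) :=
  τ '' {u | u ∈ ST ∧ x / 2 < ε * u.2.re} ∪
    {a | a ∈ Sq3 ∧ 0 < ε * zf a} \ τ '' (S1 ×ˢ closedBall 0 8)

theorem arc_star {u : ℂ × ℂ} {D : Set ℂ} (d : ∀ w ∈ D, star w ∈ D) (h : u ∈ S1 ×ˢ D) :
    star u ∈ S1 ×ˢ D := ⟨mem_S1.2 (by simpa using mem_S1.1 h.1), d _ h.2⟩

theorem arc_neg {u : ℂ × ℂ} {D : Set ℂ} (h : u ∈ S1 ×ˢ D) : (-u.1, u.2) ∈ S1 ×ˢ D :=
  ⟨mem_S1.2 (by simpa using mem_S1.1 h.1), h.2⟩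

theorem arc_ST {u : ℂ × ℂ} (h : u ∈ ST) : star u ∈ ST := arc_star (fun w k => by simpa using k) h

theorem arc_cb : S1 ×ˢ closedBall (0 : ℂ) 8 ⊆ ST :=
  prod_mono subset_rfl (closedBall_subset_ball (by norm_num))

theorem arc_Rc (q : x < 1) : Rc x 3 ⊆ closedBall 0 8 := fun w h => by
  have := Complex.norm_le_abs_re_add_abs_im w
  rw [mem_closedBall_zero_iff]; linarith [h.1, h.2]

theorem arc_Qc (p : 0 < x) : Qc (x / 2) 2 ⊆ Rc x 3 := fun w h =>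
  ⟨by linarith [h.1], by linarith [h.2]⟩

theorem arc_cpt (x y : ℝ) : IsCompact (S1 ×ˢ Qc x y) := by
  refine (isCompact_sphere _ _).prod (isCompact_of_isClosed_isBounded
    ((isClosed_le (f := fun w : ℂ => |w.re|) (g := fun _ => x) (by fun_prop) continuous_const).and
      (isClosed_le (f := fun w : ℂ => |w.im|) (g := fun _ => y) (by fun_prop) continuous_const))
    ((isBounded_closedBall (x := (0 : ℂ)) (r := x + y)).subset fun w h => ?_))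
  have := Complex.norm_le_abs_re_add_abs_im w
  rw [mem_closedBall_zero_iff]; linarith [h.1, h.2]

theorem arc_oR (q : x < 1) : Opn (S1 ×ˢ Rc x 3) ST := opn_iff.2 ⟨univ ×ˢ Rc x 3,
  isOpen_univ.prod ((isOpen_lt (f := fun w : ℂ => |w.re|) (g := fun _ => x) (by fun_prop)
    continuous_const).and (isOpen_lt (f := fun w : ℂ => |w.im|) (g := fun _ => 3) (by fun_prop)
      continuous_const)), by
  ext u
  exact ⟨fun h => ⟨arc_cb ⟨h.1, arc_Rc q h.2⟩, trivial, h.2⟩, fun h => ⟨h.1.1, h.2.2⟩⟩⟩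

/-- Invariance of a part of the solid torus under a symmetry. -/
theorem arc_inv {A : Type} {T : ℂ × ℂ → A} {c : A → A} {i : ℂ × ℂ → ℂ × ℂ} {D : Set (ℂ × ℂ)}
    (s : D ⊆ ST) (e : ∀ u ∈ ST, T (i u) = c (T u)) (m : MapsTo i D D) :
    MapsTo c (T '' D) (T '' D) := by
  rintro _ ⟨u, hu, rfl⟩
  exact ⟨_, m hu, e u (s hu)⟩

theorem arc_diff {A : Type} {Y K : Set A} {c : A → A} (m : MapsTo c Y Y) (i : ∀ a ∈ Y, c (c a) = a)
    (k : MapsTo c K K) : MapsTo c (Y \ K) (Y \ K) := fun a h =>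
  ⟨m h.1, fun q => h.2 (i a h.1 ▸ k q)⟩

theorem arcU_opn (h : TS τ τ' N zf) : Opn (arcU τ zf x ε) Sq3 := by
  have a : Opn (τ '' {u | u ∈ ST ∧ x / 2 < ε * u.2.re}) Sq3 := (h.dif.opn (Opn.of_open
    (O := {u : ℂ × ℂ | x / 2 < ε * u.2.re}) (isOpen_lt (by fun_prop) (by fun_prop)) ST)).trans h.opn
  have k : IsClosed (τ '' (S1 ×ˢ closedBall 0 8)) := (((isCompact_sphere _ _).prod
    (isCompact_closedBall _ _)).image_of_continuousOn (h.dif.cF.continuousOn.mono arc_cb)).isClosed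
  have b : Opn {a | a ∈ Sq3 ∧ 0 < ε * zf a} Sq3 := ⟨fun _ q => q.1, fun a q =>
    Filter.inter_mem self_mem_nhdsWithin
      ((continuousOn_const.mul h.cz a q.1).preimage_mem_nhdsWithin (Ioi_mem_nhds q.2))⟩
  have b' := (b.diff _).trans (opn_diff k)
  exact ⟨union_subset a.1 b'.1, fun y q => q.elim
    (fun q => Filter.mem_of_superset (a.2 y q) subset_union_left)
    fun q => Filter.mem_of_superset (b'.2 y q) subset_union_right⟩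

theorem arcU_in (h : TS τ τ' N zf) {u : ℂ × ℂ} (hu : u ∈ ST) (m : τ u ∈ arcU τ zf x ε) :
    x / 2 < ε * u.2.re ∨ 8 < ‖u.2‖ ∧ 0 < ε * u.2.re := by
  rcases m with ⟨v, hv, e⟩ | m
  · exact .inl (h.dif.injOn hv.1 hu e ▸ hv.2)
  · have k : 8 < ‖u.2‖ := lt_of_not_ge fun l => m.2 ⟨u, ⟨hu.1, mem_closedBall_zero_iff.2 l⟩, rfl⟩
    obtain ⟨r, r0, e⟩ := h.sz u hu (by linarith)
    have := m.1.2
    rw [e, mul_left_comm] at this
    exact .inr ⟨k, (mul_pos_iff_of_pos_left r0).1 this⟩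

theorem arcU_out (h : TS τ τ' N zf) {a : ℂ × ℂ} (n : a ∉ N) (m : a ∈ arcU τ zf x ε) :
    0 < ε * zf a := by
  rcases m with ⟨v, hv, rfl⟩ | m
  exacts [(n (h.dif.mF hv.1)).elim, m.1.2]

theorem arcU_disj (h : TS τ τ' N zf) (p : 0 < x) {a : ℂ × ℂ} (m : a ∈ arcU τ zf x 1) :
    a ∉ arcU τ zf x (-1) := fun m' => by
  by_cases n : a ∈ N
  · obtain ⟨u, hu, rfl⟩ := h.dif.image.symm ▸ n
    rcases arcU_in h hu m with k | k <;> rcases arcU_in h hu m' with k' | k'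
    exacts [by linarith, by linarith [k'.2], by linarith [k.2], by linarith [k.2, k'.2]]
  · linarith [arcU_out h n m, arcU_out h n m']

theorem arcU_c0 (h : TS τ τ' N zf) : MapsTo c0 (arcU τ zf x ε) (arcU τ zf x ε) :=
  (arc_inv (D := {u | u ∈ ST ∧ x / 2 < ε * u.2.re}) (fun _ q => q.1) h.ec
    fun u q => ⟨arc_ST q.1, by simpa using q.2⟩).union_union
    (arc_diff (fun a q => ⟨p0_dk.maps q.1, by rw [h.zc a q.1]; exact q.2⟩)
      (fun a q => p0_dk.inv a q.1)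
      (arc_inv arc_cb h.ec fun u q => arc_star (fun w k => by simpa using k) q))

theorem arcU_sg (h : TS τ τ' N zf) : MapsTo sg0 (arcU τ zf x ε) (arcU τ zf x ε) :=
  (arc_inv (D := {u | u ∈ ST ∧ x / 2 < ε * u.2.re}) (i := fun u => (-u.1, u.2)) (fun _ q => q.1) h.es
    fun u q => ⟨arc_neg q.1, q.2⟩).union_union
    (arc_diff (fun a q => ⟨sg0_dif.mF q.1, by rw [h.zs a q.1]; exact q.2⟩)
      (fun a q => sg0_dif.gf a q.1)
      (arc_inv (i := fun u => (-u.1, u.2)) arc_cb h.es fun u q => arc_neg q))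

theorem arcU_R (h : TS τ τ' N zf) (q : x < 1) (hε : |ε| = 1) {u : ℂ × ℂ} (hu : u ∈ S1 ×ˢ Rc x 3)
    (m : τ u ∈ arcU τ zf x ε) : x / 2 < ε * u.2.re ∧ x / 2 < |u.2.re| := by
  have b := arc_Rc q hu.2
  rcases arcU_in h (arc_cb ⟨hu.1, b⟩) m with k | k
  · exact ⟨k, k.trans_le ((le_abs_self _).trans_eq (by rw [abs_mul, hε, one_mul]))⟩
  · linarith [k.1, mem_closedBall_zero_iff.1 b]

theorem arcU_sub (h : TS τ τ' N zf) (p : 0 < x) (q : x < 1) (hε : |ε| = 1) :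
    arcU τ zf x ε ⊆ Sq3 \ τ '' (S1 ×ˢ Qc (x / 2) 2) := fun a m => ⟨(arcU_opn h).1 m, by
  rintro ⟨u, hu, rfl⟩
  linarith [(arcU_R h q hε ⟨hu.1, arc_Qc p hu.2⟩ m).2, hu.2.1]⟩

theorem arcU_real (h : TS τ τ' N zf) (p : 0 < x) {a : ℂ × ℂ} (ha : a ∈ Sq3) (r : a.2 = 0)
    (n : a ∉ τ '' (S1 ×ˢ Rc x 3)) : a ∈ arcU τ zf x 1 ∨ a ∈ arcU τ zf x (-1) := by
  by_cases k : a ∈ N
  · obtain ⟨u, hu, rfl⟩ := h.dif.image.symm ▸ k
    have e : star u = u := h.dif.injOn (arc_ST hu) hu ((h.ec u hu).trans ((c0_fix _).2 r))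
    have i : u.2.im = 0 := Complex.conj_eq_iff_im.1 (congrArg Prod.snd e)
    have l : x ≤ |u.2.re| := le_of_not_gt fun l => n ⟨u, ⟨hu.1, l, by simp [i]⟩, rfl⟩
    rcases le_abs'.1 l with l | l
    exacts [.inr (.inl ⟨u, ⟨hu, by linarith⟩, rfl⟩), .inl (.inl ⟨u, ⟨hu, by linarith⟩, rfl⟩)]
  · have n' : a ∉ τ '' (S1 ×ˢ closedBall 0 8) := fun ⟨u, hu, e⟩ => k (e ▸ h.dif.mF (arc_cb hu))
    rcases lt_or_gt_of_ne (h.z0 a ⟨ha, k⟩ r) with l | l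
    exacts [.inr (.inr ⟨⟨ha, by linarith⟩, n'⟩), .inl (.inr ⟨⟨ha, by linarith⟩, n'⟩)]

/-- The power `j` of the symmetry. -/
theorem arc_pow (h : TS τ τ' N zf) (j : ℤ) : ∃ (s : ℂ × ℂ → ℂ × ℂ)
    (b : (ℝ × ℂ) × ℝ → (ℝ × ℂ) × ℝ), Dif Sq3 Sq3 s s ∧ Dif (Sph ℝ) (Sph ℝ) b b ∧
      (∀ a, p0 (s a) = b (p0 a)) ∧ (∀ a, s (c0 a) = c0 (s a)) ∧
      (∀ u ∈ ST, s (τ u) = τ (u.1 * (-1) ^ j, u.2)) ∧
      ∀ x ε, MapsTo s (arcU τ zf x ε) (arcU τ zf x ε) := by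
  rcases Int.even_or_odd j with e | e
  · exact ⟨id, id, .refl _, .refl _, fun _ => rfl, fun _ => rfl, fun u _ => by simp [e.neg_one_zpow],
      fun _ _ => mapsTo_id _⟩
  · exact ⟨sg0, sb0, sg0_dif, sb0_dif, p0_sg0, sg0_c0,
      fun u hu => by simpa [e.neg_one_zpow] using (h.es u hu).symm, fun _ _ => arcU_sg h⟩

/-- The rotation below covers the shear above. -/
theorem arc_rot {G G' : ℂ → ℂ} (g : GG G G') {k : ℝ → ℂ} {φ : ℂ → ℂ} (f : PH x k φ) (j : ℤ)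
    {u : ℂ × ℂ} (hu : u ∈ S1 ×ˢ Rc x 3) (n : u.2 ∉ Qc (x / 2) 2) :
    qm G' (u.1 * φ u.2 ^ j, u.2) = (k u.2.re ^ j * (qm G' u).1, u.2.re) := by
  have nk : ‖k u.2.re ^ j‖ = 1 := by rw [norm_zpow, f.nk, one_zpow]
  obtain ⟨a, b, c⟩ := f.near _ hu.2
  rcases not_and_or.1 n with l | l
  · rw [c (not_le.1 l)]
    have e : k u.2.re ^ j = 1 ∨ k u.2.re ^ j = -1 := by
      rcases lt_abs.1 (not_le.1 l) with l | l
      · exact .inl (by rw [f.kp _ l, one_zpow])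
      · rw [f.kn _ (by linarith)]
        exact (Int.even_or_odd j).imp (·.neg_one_zpow) (·.neg_one_zpow)
    rcases e with e | e <;> rw [e]
    · rw [mul_one, one_mul]; rfl
    · rw [mul_neg_one, qm_neg g, neg_one_mul]
  · rcases lt_abs.1 (not_le.1 l) with l | l
    · rw [a l, qm_up g hu.1 nk l]
    · rw [b (by linarith), ← star_zpow₀, qm_down g hu.1 nk (by linarith)]

theorem arc_rdif {k : ℝ → ℂ} {φ : ℂ → ℂ} (f : PH x k φ) (j : ℤ) (R : ℝ) (I : Set ℝ) :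
    Dif (ball (0 : ℂ) R ×ˢ I) (ball (0 : ℂ) R ×ˢ I) (fun y => (k y.2 ^ j * y.1, y.2))
      fun y => (k y.2 ^ (-j) * y.1, y.2) := by
  have n0 (a) : k a ≠ 0 := norm_ne_zero_iff.1 (by rw [f.nk]; exact one_ne_zero)
  have s (i : ℤ) : ContDiffOn ℝ ∞ (fun y : ℂ × ℝ => (k y.2 ^ i * y.1, y.2)) (ball 0 R ×ˢ I) :=
    fun y _ => (((zpow_at (f.ck.comp contDiff_snd).contDiffAt (n0 _) i).mul
      contDiffAt_fst).prodMk contDiffAt_snd).contDiffWithinAt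
  have m (i : ℤ) : MapsTo (fun y : ℂ × ℝ => (k y.2 ^ i * y.1, y.2)) (ball 0 R ×ˢ I)
      (ball 0 R ×ˢ I) := fun y h => ⟨by simpa [norm_zpow, f.nk] using h.1, h.2⟩
  exact ⟨s _, s _, m _, m _, fun y _ => by simp [zpow_ne_zero j (n0 _)],
    fun y _ => by simp [zpow_ne_zero j (n0 _)]⟩
end Arc

end Pool.Agent.Lib.MP_b2e238_gt
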