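import Pool.Agent.Lib.MP_b2e238_gt.R.Defs
import Pool.Agent.Lib.MP_b2e238_gt.K.Par
import Pool.Agent.Lib.MP_b2e238_gt.B.J

/-! The chart of the solid torus at the fixed arc. -/

open scoped ContDiff Topology
open Set Metric

noncomputable section

namespace Pool.Agent.Lib.MP_b2e238_gt

theorem rfp_ne {v : ℂ} (h : ‖v‖ < 1) : 1 + v ≠ 0 ∧ 1 - v ≠ 0 := by
  refine ⟨fun e => ?_, fun e => ?_⟩
  · rw [eq_neg_of_add_eq_zero_right e, norm_neg, norm_one] at h
    exact h.false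
  · rw [← sub_eq_zero.1 e, norm_one] at h
    exact h.false

theorem rfp_C {v : ℂ} (h : ‖v‖ < 1) : (1 + v) / (1 - v) ≠ 0 := div_ne_zero (rfp_ne h).1 (rfp_ne h).2

theorem rfp_re {v : ℂ} (h : ‖v‖ < 1) : 0 < ((1 + v) / (1 - v)).re := by
  have a : Complex.normSq v < 1 := by
    rw [Complex.normSq_eq_norm_sq]; nlinarith [norm_nonneg v]
  rw [Complex.normSq_apply] at a
  rw [Complex.div_re, ← add_div]
  refine div_pos ?_ (Complex.normSq_pos.2 (rfp_ne h).2)
  simp
  nlinarith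

theorem rfp_im (u : ℝ × ℂ) : (fp u).2.im = Real.log ‖(1 + u.2) / (1 - u.2)‖ := by
  simp only [fp, Complex.add_im, Complex.ofReal_im, Complex.I_mul_im, Complex.ofReal_re, zero_add]

theorem rfp_re2 (u : ℝ × ℂ) : (fp u).2.re = u.1 := by
  simp only [fp, Complex.add_re, Complex.ofReal_im, Complex.I_mul_re, Complex.ofReal_re, neg_zero,
    add_zero]

theorem rfp_U {u : ℝ × ℂ} (h : ‖u.2‖ < 1) :
    (fp u).1 * Real.exp (fp u).2.im = (1 + u.2) / (1 - u.2) := by
  rw [rfp_im, Real.exp_log (norm_pos_iff.2 (rfp_C h)), mul_comm]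
  exact ph_mul_norm (rfp_C h)

theorem qm_fp (G' : ℂ → ℂ) {u : ℝ × ℂ} (h : ‖u.2‖ < 1) :
    qm G' (fp u) = (G' ((1 + u.2 ^ 2) / (1 - u.2 ^ 2)), u.1) := by
  obtain ⟨a, b⟩ := rfp_ne h
  rw [qm, rfp_U h, rfp_re2, show 1 - u.2 ^ 2 = (1 + u.2) * (1 - u.2) by ring]
  congr 2
  field_simp
  ring

theorem fp_re {u : ℝ × ℂ} (h : ‖u.2‖ < 1) : 0 < (fp u).1.re := by
  rw [fp, ph, Complex.div_ofReal_re]
  exact div_pos (rfp_re h) (norm_pos_iff.2 (rfp_C h))

theorem fp_par : Par (S1 ×ˢ univ) fp (univ ×ˢ ball 0 1) := by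
  let U : ℂ × ℂ → ℂ := fun y => y.1 * Real.exp y.2.im
  have r {y : ℂ × ℂ} (h : 0 < y.1.re) : 0 < (U y).re := by
    rw [Complex.re_mul_ofReal]
    exact mul_pos h (Real.exp_pos _)
  have n {y : ℂ × ℂ} (h : 0 < y.1.re) : U y + 1 ≠ 0 := fun e => by
    have := congrArg Complex.re e
    rw [Complex.add_re, Complex.one_re, Complex.zero_re] at this
    linarith [r h]
  have cU : ContDiff ℝ ∞ U := contDiff_fst.mul (Complex.ofRealCLM.contDiff.comp
    (Real.contDiff_exp.comp (Complex.imCLM.contDiff.comp contDiff_snd)))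
  refine Dif.to_par (A := (S1 ×ˢ univ) ∩ {y : ℂ × ℂ | 0 < y.1.re})
    (ψ := fun y => (y.2.re, (U y - 1) * (U y + 1)⁻¹))
    ⟨fun u h => ?_, fun y h => ?_, fun u h => ?_, fun y h => ?_, fun u h => ?_, fun y h => ?_⟩
    (isOpen_univ.prod isOpen_ball) (opn_iff.2 ⟨_, isOpen_lt continuous_const (by fun_prop), rfl⟩)
  · have k := mem_ball_zero_iff.1 h.2
    have c : ContDiffAt ℝ ∞ (fun u : ℝ × ℂ => (1 + u.2) / (1 - u.2)) u :=
      (contDiffAt_const.add contDiffAt_snd).mul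
        ((contDiffAt_const.sub contDiffAt_snd).inv (rfp_ne k).2)
    exact ((ph_at c (rfp_C k)).prodMk ((Complex.ofRealCLM.contDiff.contDiffAt.comp u
      contDiffAt_fst).add (contDiffAt_const.mul (Complex.ofRealCLM.contDiff.contDiffAt.comp u
        (((contDiffAt_norm ℝ (rfp_C k)).comp u c).log
          (norm_ne_zero_iff.2 (rfp_C k))))))).contDiffWithinAt
  · exact ((Complex.reCLM.contDiff.comp contDiff_snd).contDiffAt.prodMk
      ((cU.sub contDiff_const).contDiffAt.mul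
        ((cU.add contDiff_const).contDiffAt.inv (n h.2)))).contDiffWithinAt
  · have k := mem_ball_zero_iff.1 h.2
    exact ⟨⟨mem_sphere_zero_iff_norm.2 (ph_norm (rfp_C k)), trivial⟩, fp_re k⟩
  · refine ⟨trivial, mem_ball_zero_iff.2 ?_⟩
    rw [← div_eq_mul_inv, norm_div, div_lt_one (norm_pos_iff.2 (n h.2)),
      ← sq_lt_sq₀ (norm_nonneg _) (norm_nonneg _), Complex.sq_norm, Complex.sq_norm,
      Complex.normSq_apply, Complex.normSq_apply]
    simp
    linarith [r h.2]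
  · have k := mem_ball_zero_iff.1 h.2
    have b := (rfp_ne k).2
    refine Prod.ext (rfp_re2 u) ?_
    simp only [U, rfp_U k]
    rw [show (1 + u.2) / (1 - u.2) + 1 = 2 / (1 - u.2) by field_simp; ring]
    field_simp
    ring
  · have k := n h.2
    have m := mem_sphere_zero_iff_norm.1 h.1.1
    have e : (1 + (U y - 1) * (U y + 1)⁻¹) / (1 - (U y - 1) * (U y + 1)⁻¹) =
        Real.exp y.2.im * y.1 := by
      rw [show 1 - (U y - 1) * (U y + 1)⁻¹ = 2 / (U y + 1) by field_simp; ring, mul_comm _ y.1]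
      change _ = U y
      field_simp
      ring
    simp only [fp, e]
    rw [ph_pos_mul (Real.exp_pos _) m, norm_mul, m, mul_one, Complex.norm_real,
      Real.norm_of_nonneg (Real.exp_pos _).le, Real.log_exp, mul_comm, Complex.re_add_im]

theorem fp_neg {u : ℝ × ℂ} (h : ‖u.2‖ < 1) : fp (u.1, -u.2) = star (fp u) := by
  have e : (1 + -u.2) / (1 - -u.2) = ((1 + u.2) / (1 - u.2))⁻¹ := by
    rw [inv_div, sub_neg_eq_add, sub_eq_add_neg]
  have i (w : ℂ) : ph w⁻¹ = (ph w)⁻¹ := by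
    simp only [ph, norm_inv, Complex.ofReal_inv, div_inv_eq_mul, inv_div]
    rw [div_eq_mul_inv, mul_comm]
  simp only [fp, e]
  rw [i, Complex.inv_eq_conj (ph_norm (rfp_C h)), norm_inv, Real.log_inv]
  refine Prod.ext rfl ?_
  generalize Real.log _ = L
  simp

theorem fp_zero (a : ℝ) : fp (a, 0) = (1, (a : ℂ)) := by simp [fp, ph]

theorem fp_small {u : ℝ × ℂ} (h : ‖u‖ ≤ 1 / 10) : ‖(fp u).2‖ < 1 := by
  have a : |u.1| ≤ 1 / 10 := (norm_fst_le u).trans h
  have b := (norm_snd_le u).trans h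
  have p := norm_add_le 1 u.2
  have q := norm_sub_le 1 u.2
  have p' := norm_sub_norm_le 1 (-u.2)
  have q' := norm_sub_norm_le 1 u.2
  rw [norm_neg, sub_neg_eq_add] at p'
  rw [norm_one] at p q p' q'
  have c := norm_pos_iff.2 (rfp_C (b.trans_lt (by norm_num)))
  have l := Real.log_le_sub_one_of_pos c
  have l' := Real.log_le_sub_one_of_pos (inv_pos.2 c)
  have s : ‖(1 + u.2) / (1 - u.2)‖ ≤ 3 / 2 := by
    rw [norm_div, div_le_iff₀ (by linarith)]; linarith
  have s' : ‖(1 + u.2) / (1 - u.2)‖⁻¹ ≤ 3 / 2 := by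
    rw [norm_div, inv_div, div_le_iff₀ (by linarith)]; linarith
  rw [Real.log_inv] at l'
  refine (Complex.norm_le_abs_re_add_abs_im _).trans_lt ?_
  rw [rfp_re2, rfp_im]
  have := abs_le.2 ⟨show -(1 / 2) ≤ Real.log ‖(1 + u.2) / (1 - u.2)‖ by linarith, by linarith⟩
  linarith

end Pool.Agent.Lib.MP_b2e238_gt
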