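import Pool.Agent.Lib.MP_b2e238_gt.R.P0
import Pool.Agent.Lib.MP_b2e238_gt.R.Ad
import Pool.Agent.Lib.MP_b2e238_gt.R.Fp
import Pool.Agent.Lib.MP_b2e238_gt.U.Push

/-! Standard position of the solid torus at the two fixed points. -/

open scoped ContDiff Topology
open Set Metric

noncomputable section

namespace Pool.Agent.Lib.MP_b2e238_gt

/-- The half turn of the solid torus. -/
def ratN (u : ℂ × ℂ) : ℂ × ℂ := (-u.1, u.2)

theorem ratN_dif : Dif ST ST ratN ratN :=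
  have c : ContDiff ℝ ∞ ratN := contDiff_fst.neg.prodMk contDiff_snd
  have m : MapsTo ratN ST ST := fun u h => ⟨by simpa [ratN] using h.1, h.2⟩
  ⟨c.contDiffOn, c.contDiffOn, m, m, fun _ _ => by simp [ratN], fun _ _ => by simp [ratN]⟩

theorem rat_lt {u : ℝ × ℂ} (h : u ∈ ball (0 : ℝ × ℂ) (1 / 10)) : ‖u.2‖ < 1 :=
  (norm_snd_le u).trans_lt ((mem_ball_zero_iff.1 h).trans (by norm_num))

theorem rat_neg {u : ℝ × ℂ} (h : u ∈ ball (0 : ℝ × ℂ) (1 / 10)) :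
    (u.1, -u.2) ∈ ball (0 : ℝ × ℂ) (1 / 10) := by
  rw [mem_ball_zero_iff, Prod.norm_def] at h ⊢
  rwa [norm_neg]

theorem rat_par : Par ST fp (ball 0 (1 / 10)) :=
  (fp_par.mono isOpen_ball fun _ h => ⟨trivial, mem_ball_zero_iff.2 (rat_lt h)⟩).down
    (prod_mono subset_rfl (subset_univ _)) fun u h =>
      ⟨(fp_par.2.2.2.1 ⟨trivial, mem_ball_zero_iff.2 (rat_lt h)⟩).1,
        mem_ball_zero_iff.2 ((fp_small (mem_ball_zero_iff.1 h).le).trans (by norm_num))⟩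

/-- A symmetric diffeomorphism of the chart, pushed to both fixed points. -/
theorem rat_push {D D' : ℝ × ℂ → ℝ × ℂ} (d : Dif univ univ D D') {δ : ℝ}
    (s : closedBall 0 δ ⊆ ball (0 : ℝ × ℂ) (1 / 10)) (e : ∀ u, δ ≤ ‖u‖ → D u = u)
    (o : ∀ u, D (u.1, -u.2) = ((D u).1, -(D u).2)) : ∃ T T', Dif ST ST T T' ∧
      (∀ u, T (star u) = star (T u)) ∧ (∀ u, T (ratN u) = ratN (T u)) ∧
      (∀ u, 1 ≤ ‖u.2‖ → T u = u) ∧
      ∀ u ∈ closedBall (0 : ℝ × ℂ) δ, D u ∈ closedBall (0 : ℝ × ℂ) δ ∧ T (fp u) = fp (D u) := by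
  obtain ⟨H, H', a, b, k, z⟩ := rat_par.push (isCompact_closedBall 0 δ) s (d.dn ⊤)
    fun u hu => e u (not_le.1 fun x => hu (mem_closedBall_zero_iff.2 x)).le
  have nn (u : ℂ × ℂ) : ratN (ratN u) = u := by simp [ratN]
  have h0 (y : ℂ × ℂ) (h : y.1.re ≤ 0) : H y = y := z y fun ⟨u, hu, x⟩ =>
    (fp_re (rat_lt (s hu))).not_ge (x ▸ h)
  have h1 (y : ℂ × ℂ) (h : 0 ≤ y.1.re) : 0 ≤ (H y).1.re := by
    by_cases x : y ∈ fp '' closedBall 0 δ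
    · obtain ⟨u, hu, rfl⟩ := x
      rw [(b u (s hu)).2]
      exact (fp_re (rat_lt (b u (s hu)).1)).le
    · rwa [z y x]
  have h2 (y : ℂ × ℂ) (h : 1 ≤ ‖y.2‖) : H y = y := z y fun ⟨u, hu, x⟩ =>
    (fp_small (mem_ball_zero_iff.1 (s hu)).le).not_ge (x ▸ h)
  have h3 (y : ℂ × ℂ) : H (star y) = star (H y) := by
    by_cases x : y ∈ fp '' ball 0 (1 / 10)
    · obtain ⟨u, hu, rfl⟩ := x
      rw [← fp_neg (rat_lt hu), (b _ (rat_neg hu)).2, o, fp_neg (rat_lt (b u hu).1), (b u hu).2]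
    · rw [z y fun t => x (image_mono s t), z]
      rintro ⟨u, hu, t⟩
      exact x ⟨_, rat_neg (s hu), by rw [fp_neg (rat_lt (s hu)), t, star_star]⟩
  have ns (u : ℂ × ℂ) : ratN (star u) = star (ratN u) := Prod.ext (star_neg _).symm rfl
  have t0 (u : ℂ × ℂ) (h : 0 ≤ u.1.re) : H (ratN (H (ratN u))) = H u := by
    rw [h0 (ratN u) (by simpa [ratN] using h), nn]
  have t1 (u : ℂ × ℂ) (h : u.1.re ≤ 0) : H (ratN (H (ratN u))) = ratN (H (ratN u)) :=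
    h0 _ (by simpa [ratN] using h1 (ratN u) (by simpa [ratN] using h))
  refine ⟨_, _, ((ratN_dif.trans a.dif).trans ratN_dif).trans a.dif, fun u => ?_, fun u => ?_,
    fun u h => ?_, fun u hu => ⟨k u hu, ?_⟩⟩ <;> simp only [Function.comp_apply]
  · rw [ns, h3, ns, h3]
  · rcases le_total 0 u.1.re with h | h
    · rw [t1 (ratN u) (by simpa [ratN] using h), t0 u h, nn]
    · rw [t0 (ratN u) (by simpa [ratN] using h), t1 u h, nn]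
  · rw [h2 (ratN u) h, nn, h2 u h]
  · rw [t0 _ (fp_re (rat_lt (s hu))).le, (b u (s hu)).2]

theorem rat_image {T T' : ℂ × ℂ → ℂ × ℂ} (d : Dif ST ST T T') (e : ∀ u, 1 ≤ ‖u.2‖ → T u = u) :
    T '' (S1 ×ˢ closedBall 0 8) = S1 ×ˢ closedBall 0 8 := by
  have s : S1 ×ˢ closedBall (0 : ℂ) 8 ⊆ ST :=
    prod_mono subset_rfl (closedBall_subset_ball (by norm_num))
  have g {u : ℂ × ℂ} (h : u.2 ∉ closedBall (0 : ℂ) 8) : T u = u :=
    e u ((not_le.1 fun x => h (mem_closedBall_zero_iff.2 x)).le.trans' (by norm_num))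
  refine subset_antisymm ?_ fun y hy => ⟨T' y, ⟨(d.mG (s hy)).1, ?_⟩, d.fg y (s hy)⟩
  · rintro _ ⟨u, hu, rfl⟩
    refine ⟨(d.mF (s hu)).1, by_contra fun x => x ?_⟩
    rw [d.injOn (d.mF (s hu)) (s hu) (g x)]
    exact hu.2
  · refine by_contra fun x => x ?_
    rw [← g x, d.fg y (s hy)]
    exact hy.2

section TS
variable {τ₁ τ₁' : ℂ × ℂ → ℂ × ℂ} {N₁ : Set (ℂ × ℂ)} {zf : ℂ × ℂ → ℝ} {G G' : ℂ → ℂ}

theorem exists_at (h : TS τ₁ τ₁' N₁ zf) : ∃ τ₂ τ₂', TS τ₂ τ₂' N₁ zf ∧ Ad τ₂ ∧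
    (∀ u ∈ ST, 1 ≤ ‖u.2‖ → τ₂ u = τ₁ u) ∧
    τ₂ '' (S1 ×ˢ closedBall 0 8) = τ₁ '' (S1 ×ˢ closedBall 0 8) := by
  have z0 : (0 : ℝ × ℂ) ∈ ball (0 : ℝ × ℂ) (1 / 10) := mem_ball_self (by norm_num)
  have mS := rat_par.2.2.2.1
  have cn (u : ℝ × ℂ) (hu : u ∈ ball (0 : ℝ × ℂ) (1 / 10)) :
      τ₁ (fp (u.1, -u.2)) = c0 (τ₁ (fp u)) := by rw [fp_neg (rat_lt hu), h.ec _ (mS hu)]
  obtain ⟨t, ht⟩ := nu1_real (h.opn.1 (h.dif.mF (mS z0))) ((c0_fix _).1 (by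
    rw [← cn 0 z0, Prod.snd_zero, neg_zero]
    rfl))
  have q := (nu1_tube 1).2 (t - 1 / 2)
  obtain ⟨ψ, d⟩ := q.dif
  have m0 : (t, (0 : ℂ)) ∈ Ioo (t - 1 / 2) (t - 1 / 2 + 1) ×ˢ ball (0 : ℂ) 1 :=
    ⟨⟨by linarith, by linarith⟩, mem_ball_self one_pos⟩
  have p₁ := h.dif.par (Opn.refl _) h.opn rat_par mS
  have o₁ := par_pre p₁.2.1.continuousOn p₁.1 q.opn p₁.2.2.2.1
  have p₂ := d.symm.par q.opn (opn_univ.2 q.1) (p₁.mono o₁ inter_subset_left) fun _ x => x.2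
  have n₁ := o₁.mem_nhds ⟨z0, _, m0, ht.symm⟩
  obtain ⟨δ, hδ, s⟩ := nhds_basis_closedBall.mem_iff.1 n₁
  obtain ⟨D, D', dD, eD, oD, α, γ, hα, hγ, f⟩ := exists_adapt
    (Φ := fun u => ψ (τ₁ (fp u)) - (t, 0))
    (Filter.mem_of_superset n₁ fun u x => (p₂.2.1.contDiffAt (o₁.mem_nhds x)).sub contDiffAt_const)
    (by rw [ht, d.gf _ m0, sub_self])
    (by
      rw [fderiv_sub_const]
      exact (p₂.2.2.2.2 0 (mem_of_mem_nhds n₁)).1)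
    (Filter.mem_of_superset n₁ fun u ⟨x, ⟨r, w⟩, y, e⟩ => by
      have y' : (r, -w) ∈ Ioo (t - 1 / 2) (t - 1 / 2 + 1) ×ˢ ball (0 : ℂ) 1 :=
        ⟨y.1, by simpa using y.2⟩
      change _ = _
      rw [cn u x, ← show nu1 (r, w) = τ₁ (fp u) from e, c0_nu1, d.gf _ y, d.gf _ y']
      simp) hδ
  obtain ⟨T, T', dT, sT, nT, fT, pT⟩ := rat_push dD (s.trans inter_subset_left) eD oD
  have k : ∀ᶠ u in 𝓝 (0 : ℝ × ℂ), τ₁ (T (fp u)) = nu1 ((t, 0) + (ψ (τ₁ (fp (D u))) - (t, 0))) :=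
    Filter.mem_of_superset (closedBall_mem_nhds 0 hδ) fun u x => by
      change _ = _
      rw [(pT u x).2, add_sub_cancel]
      exact (d.fg _ (s (pT u x).1).2).symm
  refine ⟨τ₁ ∘ T, T' ∘ τ₁', ⟨dT.trans h.dif, h.opn, fun u x => ?_, fun u x => ?_, h.cz, h.zc, h.zs,
    fun u x y => ?_, h.z0⟩, ⟨t, α, γ, hα, hγ, f.imp (fun f => ?_) fun f => ?_⟩,
    fun u _ y => congrArg τ₁ (fT u y), by rw [image_comp, rat_image dT fT]⟩
  · exact (congrArg τ₁ (sT u)).trans (h.ec _ (dT.mF x))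
  · exact (congrArg τ₁ (nT u)).trans (h.es _ (dT.mF x))
  · rw [Function.comp_apply, fT u y]
    exact h.sz u x y
  · filter_upwards [k, f] with u a b
    rw [Function.comp_apply, a, b, Prod.mk_add_mk, zero_add]
  · filter_upwards [k, f] with u a b
    rw [Function.comp_apply, a, b, Prod.mk_add_mk, zero_add]

end TS

end Pool.Agent.Lib.MP_b2e238_gt
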