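import Pool.Agent.Lib.MP_b2e238_gt.R.Defs
import Pool.Agent.Lib.MP_b2e238_gt.Z.M1

/-! The adapted three-sphere is `Yn 1`. -/

open scoped ContDiff Topology
open Set Metric

noncomputable section

namespace Pool.Agent.Lib.MP_b2e238_gt

variable {P V W V' : Type} [NormedAddCommGroup P] [NormedSpace ℝ P] [NormedAddCommGroup V]
  [NormedSpace ℝ V] [NormedAddCommGroup W] [NormedSpace ℝ W] [NormedAddCommGroup V']
  [NormedSpace ℝ V'] [FiniteDimensional ℝ P] [FiniteDimensional ℝ V] [FiniteDimensional ℝ W]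
  [FiniteDimensional ℝ V']

theorem rconA_pos (a : ℂ) : 0 < 1 + ‖a‖ ^ 2 := by positivity

theorem rconA_sm : ContDiff ℝ ∞ fun a : ℂ × ℂ => √(1 + ‖a.2‖ ^ 2) :=
  (contDiff_const.add (contDiff_snd.norm_sq ℂ)).sqrt fun a => (rconA_pos a.2).ne'

/-- From `Sq3` to the round sphere. -/
theorem rconA_rd : Dif Sq3 {a : ℂ × ℂ | ‖a.1‖ ^ 2 + ‖a.2‖ ^ 2 = 1}
    (fun a => ((√(1 + ‖a.2‖ ^ 2))⁻¹ • a.1, a.2)) fun a => (√(1 + ‖a.2‖ ^ 2) • a.1, a.2) := by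
  have n (a : ℂ) : √(1 + ‖a‖ ^ 2) ≠ 0 := (Real.sqrt_pos.2 (rconA_pos a)).ne'
  refine ⟨(((rconA_sm.inv fun a => n a.2).smul contDiff_fst).prodMk contDiff_snd).contDiffOn,
    ((rconA_sm.smul contDiff_fst).prodMk contDiff_snd).contDiffOn, fun a ha => ?_, fun a ha => ?_,
    fun a _ => Prod.ext (smul_inv_smul₀ (n _) _) rfl, fun a _ => Prod.ext (inv_smul_smul₀ (n _) _) rfl⟩
  · have k : ‖a.1‖ ^ 2 + ‖a.2‖ ^ 4 = 1 := ha
    have p := rconA_pos a.2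
    change ‖(√(1 + ‖a.2‖ ^ 2))⁻¹ • a.1‖ ^ 2 + ‖a.2‖ ^ 2 = 1
    rw [norm_smul, mul_pow, Real.norm_eq_abs, sq_abs, inv_pow, Real.sq_sqrt p.le]
    field_simp
    linear_combination k
  · have k : ‖a.1‖ ^ 2 + ‖a.2‖ ^ 2 = 1 := ha
    change ‖√(1 + ‖a.2‖ ^ 2) • a.1‖ ^ 2 + ‖a.2‖ ^ 4 = 1
    rw [norm_smul, mul_pow, Real.norm_eq_abs, sq_abs, Real.sq_sqrt (rconA_pos a.2).le]
    linear_combination (1 + ‖a.2‖ ^ 2) * k

/-- Real and imaginary parts are exchanged. -/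
def rconAx (a b : ℂ) : ℂ × ℂ := (a.re + b.re * .I, a.im + b.im * .I)

theorem rconA_xx (a b : ℂ) : rconAx (rconAx a b).1 (rconAx a b).2 = (a, b) := by
  simp [rconAx]

theorem rconA_nm (a b : ℂ) : ‖(rconAx a b).1‖ ^ 2 + ‖(rconAx a b).2‖ ^ 2 = ‖a‖ ^ 2 + ‖b‖ ^ 2 := by
  simp only [rconAx, Complex.sq_norm, Complex.normSq_add_mul_I]
  simp only [Complex.normSq_apply]
  ring

theorem rconA_sx : ContDiff ℝ ∞ fun a : ℂ × ℂ => rconAx a.1 a.2 :=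
  have r : ContDiff ℝ ∞ fun z : ℂ => (z.re : ℂ) :=
    Complex.ofRealCLM.contDiff.comp Complex.reCLM.contDiff
  have i : ContDiff ℝ ∞ fun z : ℂ => (z.im : ℂ) :=
    Complex.ofRealCLM.contDiff.comp Complex.imCLM.contDiff
  ((r.comp contDiff_fst).add ((r.comp contDiff_snd).mul contDiff_const)).prodMk
    ((i.comp contDiff_fst).add ((i.comp contDiff_snd).mul contDiff_const))

theorem rconA_lin : Dif {a : ℂ × ℂ | ‖a.1‖ ^ 2 + ‖a.2‖ ^ 2 = 1}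
    {a : C3 | ‖a.1‖ ^ 2 + ‖a.2.1‖ ^ 2 + ‖a.2.2‖ ^ 2 = 1 ∧ a.2.2 = 0}
    (fun a => ((rconAx a.1 a.2).1, (rconAx a.1 a.2).2, 0)) fun b => rconAx b.1 b.2.1 := by
  refine ⟨(rconA_sx.fst.prodMk (rconA_sx.snd.prodMk contDiff_const)).contDiffOn,
    (rconA_sx.comp (contDiff_fst.prodMk contDiff_snd.fst)).contDiffOn, fun a ha => ⟨?_, rfl⟩,
    fun b hb => ?_, fun a _ => rconA_xx _ _, fun b hb => ?_⟩
  · rw [rconA_nm, show ‖a.1‖ ^ 2 + ‖a.2‖ ^ 2 = 1 from ha]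
    simp
  · have k := hb.1
    rw [hb.2, norm_zero] at k
    exact (rconA_nm _ _).trans (by linarith)
  · simp only [rconA_xx, ← hb.2]

theorem exists_conA : ∃ (Φ : ℂ × ℂ → C3) (Ψ : C3 → ℂ × ℂ), Dif Sq3 (Yn 1) Φ Ψ ∧
    (∀ a ∈ Sq3, Φ (c0 a) = star (Φ a)) ∧
    ∀ a ∈ Sq3, Φ (sg0 a) = (-(Φ a).1, (Φ a).2.1, (Φ a).2.2) := by
  refine ⟨_, _, ((rconA_rd.trans rconA_lin).trans m1_scl).trans m1_gr, fun a _ => ?_, fun a _ => ?_⟩
  · have e (x y : ℂ) : (((rconAx x (-y)).1, (rconAx x (-y)).2, 0) : C3) =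
        star ((rconAx x y).1, (rconAx x y).2, 0) := by simp [rconAx, Prod.star_def]
    simp only [Function.comp, c0, norm_neg, e, toY_star]
    simp [Prod.star_def]
  · have e (r : ℝ) (x y : ℂ) : rconAx (-(r • star x)) (-star y) =
        (-(rconAx (r • x) y).1, (rconAx (r • x) y).2) := by
      simp [rconAx, add_comm]
    simp only [Function.comp, sg0, norm_neg, norm_star, e, toY, scl, smul_neg, neg_sq]

end Pool.Agent.Lib.MP_b2e238_gt
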