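import Pool.Agent.Lib.MP_b2e238_gt.R.Defs
import Pool.Agent.Lib.MP_b2e238_gt.Z.Kap
import Pool.Agent.Lib.MP_b2e238_gt.B.J

/-! A radial diffeomorphism of the plane. -/

open scoped ContDiff Topology
open Set Metric

noncomputable section

namespace Pool.Agent.Lib.MP_b2e238_gt

theorem rconB_mono {G : ℝ → ℝ} (p : ∀ q, 0 < G q) (m : Monotone G) {a b : ℝ} (ha : 0 ≤ a)
    (hb : 0 ≤ b) : G (a ^ 2) * a ≤ G (b ^ 2) * b ↔ a ≤ b := by
  refine ⟨fun h => not_lt.1 fun k => h.not_gt ?_, fun h => ?_⟩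
  · exact (mul_lt_mul_of_pos_left k (p _)).trans_le
      (mul_le_mul_of_nonneg_right (m (pow_le_pow_left₀ hb k.le 2)) ha)
  · exact mul_le_mul (m (pow_le_pow_left₀ ha h 2)) h ha (p _).le

theorem rconB_norm {G : ℝ → ℝ} (p : ∀ q, 0 < G q) (w : ℂ) :
    ‖G (‖w‖ ^ 2) • w‖ = G (‖w‖ ^ 2) * ‖w‖ := by
  rw [norm_smul, Real.norm_of_nonneg (p _).le]

theorem rconB_dif {G : ℝ → ℝ} (c : ContDiff ℝ ∞ G) (p : ∀ q, 0 < G q) (m : Monotone G) :
    ∃ κ : ℂ → ℂ, Dif univ univ κ fun w => G (‖w‖ ^ 2) • w := by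
  have s : ContDiff ℝ ∞ fun w : ℂ => G (‖w‖ ^ 2) • w :=
    (c.comp (contDiff_norm_sq ℝ)).smul contDiff_id
  have i : Function.Injective fun w : ℂ => G (‖w‖ ^ 2) • w := fun a b e => by
    have n := congrArg norm e
    simp only [rconB_norm p] at n
    have : ‖a‖ = ‖b‖ := le_antisymm ((rconB_mono p m (norm_nonneg _) (norm_nonneg _)).1 n.le)
      ((rconB_mono p m (norm_nonneg _) (norm_nonneg _)).1 n.ge)
    simp only [this] at e
    exact smul_right_injective ℂ (p _).ne' e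
  have o : Function.Surjective fun w : ℂ => G (‖w‖ ^ 2) • w := fun y => by
    have k : 0 ≤ ‖y‖ / G 0 := div_nonneg (norm_nonneg _) (p _).le
    obtain ⟨ρ, hρ, e⟩ := intermediate_value_Icc k
      (f := fun ρ => G (ρ ^ 2) * ρ) (c.continuous.comp (continuous_pow 2) |>.mul
        continuous_id).continuousOn (show ‖y‖ ∈ _ from ⟨by simp, by
          have := mul_le_mul_of_nonneg_right (m (sq_nonneg (‖y‖ / G 0))) k
          rwa [mul_div_cancel₀ _ (p _).ne'] at this⟩)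
    have n : ‖(G (ρ ^ 2))⁻¹ • y‖ = ρ := by
      rw [norm_smul, Real.norm_of_nonneg (inv_pos.2 (p _)).le, ← e]
      exact inv_mul_cancel_left₀ (p _).ne' _
    exact ⟨(G (ρ ^ 2))⁻¹ • y, by simp only [n]; exact smul_inv_smul₀ (p _).ne' _⟩
  have d (w : ℂ) : Function.Injective (fderiv ℝ (fun w : ℂ => G (‖w‖ ^ 2) • w) w) := by
    have g := (c.differentiable (by simp) (‖w‖ ^ 2)).hasDerivAt
    have g0 := g.nonneg_of_monotone m
    have h : HasFDerivAt (fun w : ℂ => G (‖w‖ ^ 2) • w) _ w :=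
      (g.comp_hasFDerivAt w (hasStrictFDerivAt_norm_sq w).hasFDerivAt).smul (hasFDerivAt_id w)
    rw [h.fderiv, injective_iff_map_eq_zero]
    intro v e
    have := congrArg (inner ℝ · v) e
    simp only [add_apply, smul_apply,
      ContinuousLinearMap.smulRight_apply, ContinuousLinearMap.id_apply, inner_add_left,
      real_inner_smul_left, inner_zero_left, real_inner_self_eq_norm_sq, innerSL_apply_apply,
      smul_eq_mul, Function.comp_apply, nsmul_eq_mul, Nat.cast_ofNat] at this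
    have z : G (‖w‖ ^ 2) * ‖v‖ ^ 2 ≤ 0 := by
      nlinarith [mul_nonneg g0 (sq_nonneg (inner ℝ w v))]
    exact norm_eq_zero.1 (pow_eq_zero_iff two_ne_zero |>.1 (le_antisymm
      (nonpos_of_mul_nonpos_right z (p _)) (sq_nonneg _)))
  have k := (inv_on rfl isOpen_univ s.contDiffOn i.injOn fun w _ => d w).2
  rw [image_univ, o.range_eq] at k
  exact ⟨_, k, s.contDiffOn, mapsTo_univ _ _, mapsTo_univ _ _,
    fun a _ => Function.invFunOn_eq ((o a).imp fun _ e => ⟨trivial, e⟩),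
    fun a _ => i.injOn.leftInvOn_invFunOn trivial⟩

theorem exists_conB {n : ℕ} (h : Odd n) : ∃ κ κ' : ℂ → ℂ, Dif univ univ κ κ' ∧
    (∀ w, κ (star w) = star (κ w)) ∧ (∀ w, ‖w‖ ≤ 8 ↔ ‖κ w‖ ^ n ≤ 1 / 5) ∧
    ∀ w, 8 ≤ ‖w‖ → ‖κ w‖ ^ n = ‖w‖ / 40 ∧ ph (κ w) = ph w := by
  obtain ⟨i, rfl⟩ := h
  obtain ⟨ρ, p, e⟩ : ∃ ρ : ℝ, 0 < ρ ∧ ρ ^ (2 * i + 1) = 1 / 5 :=
    ⟨_, by positivity, Real.rpow_inv_natCast_pow (by norm_num) (by omega)⟩
  let G : ℝ → ℝ := fun q => 40 * (ρ ^ 2 / 2 * kapG (q / (ρ ^ 2 / 2))) ^ i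
  have G0 (q) : 0 < G q := by have := kapG_pos (q / (ρ ^ 2 / 2)); positivity
  have Gm : Monotone G := fun a b k => mul_le_mul_of_nonneg_left (pow_le_pow_left₀
    (by have := kapG_pos (a / (ρ ^ 2 / 2)); positivity) (mul_le_mul_of_nonneg_left
      (kapG_mono (div_le_div_of_nonneg_right k (by positivity))) (by positivity)) i) (by norm_num)
  have far (t : ℝ) (k : ρ ≤ t) : G (t ^ 2) * t = 40 * t ^ (2 * i + 1) := by
    have : 2 ≤ t ^ 2 / (ρ ^ 2 / 2) := by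
      rw [le_div_iff₀ (by positivity)]
      linarith [pow_le_pow_left₀ p.le k 2]
    simp only [G]
    rw [kapG_high this, mul_div_cancel₀ _ (by positivity)]
    ring
  obtain ⟨κ, d⟩ := rconB_dif (G := G) (contDiff_const.mul ((contDiff_const.mul
    (kapG_smooth.comp (contDiff_id.div_const _))).pow i)) G0 Gm
  have n (w) : ‖w‖ = G (‖κ w‖ ^ 2) * ‖κ w‖ := by
    rw [← rconB_norm G0]
    exact congrArg norm (d.gf w trivial).symm
  have e8 : 8 = G (ρ ^ 2) * ρ := by rw [far ρ le_rfl, e]; norm_num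
  refine ⟨κ, _, d, fun w => ?_, fun w => ?_, fun w k => ⟨?_, ?_⟩⟩
  · rw [← d.fg (star (κ w)) trivial]
    congr 1
    conv_lhs => rw [← d.gf w trivial]
    simp only [norm_star, star_smul, star_trivial]
  · rw [n w, e8, rconB_mono G0 Gm (norm_nonneg _) p.le, ← e,
      pow_le_pow_iff_left₀ (norm_nonneg _) p.le (by omega)]
  · rw [n w, e8, rconB_mono G0 Gm p.le (norm_nonneg _)] at k
    rw [n w, far _ k]
    ring
  · have g : (G (‖κ w‖ ^ 2) : ℂ) ≠ 0 := Complex.ofReal_ne_zero.2 (G0 _).ne'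
    rw [ph, ph, n w]
    conv_rhs => lhs; rw [← d.gf w trivial]
    simp only [Complex.real_smul, Complex.ofReal_mul]
    rw [mul_div_mul_left _ _ g]

end Pool.Agent.Lib.MP_b2e238_gt
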