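import Pool.Agent.Lib.MP_b2e238_gt.R.ConA
import Pool.Agent.Lib.MP_b2e238_gt.R.ConB
import Pool.Agent.Lib.MP_b2e238_gt.B.CO
import Pool.Agent.Lib.MP_b2e238_gt.B.J

/-! The regluing data for the Brieskorn spheres. -/

open scoped ContDiff Topology
open Set Metric

noncomputable section

namespace Pool.Agent.Lib.MP_b2e238_gt

variable {n : ℕ}

theorem rcon_sq {z : ℂ} (h : 0 < z.re) : sq (star z) = star (sq z) := by
  have k : z.arg ≠ Real.pi := fun e => (Complex.arg_eq_pi_iff.1 e).1.not_gt h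
  have := Complex.conj_cpow z 2⁻¹ k
  rw [map_inv₀, map_ofNat] at this
  exact this

theorem rcon_star {u : ℂ × ℂ} (h : u.1 ∈ S1) (k : ‖u.2‖ ^ n < 1 / 2) :
    cO n (star u) = star (cO n u) := by
  have p := co_re (co_small h k)
  rw [← sub_eq_add_neg] at p
  have := rcon_sq p
  rw [cO, cO, ← toY_star]
  congr 1
  simp only [Prod.star_def, star_mul', star_pow, star_neg, ← this, star_sub, star_one, star_div₀]

theorem rcon_neg (n : ℕ) (m w : ℂ) :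
    cO n (-m, w) = (-(cO n (m, w)).1, (cO n (m, w)).2.1, (cO n (m, w)).2.2) := by
  have := toY_mul n (u := (-1, 1, 1)) (by simp) (by simp)
    (m ^ 3 * sq (1 - w ^ n / m ^ 6), -m ^ 2, w)
  have e6 : (-m) ^ 6 = m ^ 6 := by ring
  have e : cO n (-m, w) = toY n ((-1, 1, 1) * (m ^ 3 * sq (1 - w ^ n / m ^ 6), -m ^ 2, w)) := by
    simp only [cO, e6, Prod.mk_mul_mk]
    congr 2
    · ring
    · congr 1 <;> ring
  rw [e, this]
  simp [cO, Prod.mul_def]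

theorem rcon_ph (z : ℂ) : ph (star z) = star (ph z) := by simp [ph]

theorem rcon_iff (hn : n ≠ 0) {u : ℂ × ℂ} (h : u.1 ∈ S1) :
    ‖(cO n u).2.1‖ ^ 3 / 5 < ‖(cO n u).2.2‖ ^ n ↔ ¬‖u.2‖ ^ n ≤ 1 / 5 := by
  obtain ⟨s, e⟩ := cO_eq n u
  have p := pow_pos (Real.exp_pos (2 * s)) 3
  rw [e, ← norm_pow, ← norm_pow, (co_pw hn s _).1, (co_pw hn s _).2]
  simp only [norm_mul, Complex.norm_real, Real.norm_eq_abs, norm_pow, norm_neg,
    mem_S1.1 h, Real.abs_exp, one_pow, mul_one, not_le]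
  constructor <;> intro k <;> nlinarith

/-- The part of the link away from the orbit `z = 0`. -/
def rconL (n : ℕ) : Set C3 := {a | a ∈ Yn n ∧ ‖a.2.1‖ ^ 3 / 5 < ‖a.2.2‖ ^ n}

theorem rcon_tube (hn : n ≠ 0) {l l' : ℂ → ℂ} (d : Dif univ univ l l')
    (hs : ∀ w, l (star w) = star (l w)) (h8 : ∀ w, ‖w‖ ≤ 8 ↔ ‖l w‖ ^ n ≤ 1 / 5)
    (h9 : ∀ w, 8 ≤ ‖w‖ → ‖l w‖ ^ n = ‖w‖ / 40) : ∃ (T' : C3 → ℂ × ℂ) (N : Set C3),
      Dif ST N (fun u => cO n (u.1, l u.2)) T' ∧ Opn N (Yn n) ∧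
      (∀ u ∈ ST, cO n ((star u).1, l (star u).2) = star (cO n (u.1, l u.2))) ∧
      Yn n \ (fun u : ℂ × ℂ => cO n (u.1, l u.2)) '' (S1 ×ˢ closedBall 0 8) = rconL n := by
  have sm : ∀ w ∈ ball (0 : ℂ) 10, ‖l w‖ ^ n < 1 / 2 := fun w hw => by
    rcases le_total ‖w‖ 8 with k | k
    · linarith [(h8 w).1 k]
    · linarith [h9 w k, mem_ball_zero_iff.1 hw]
  have sub : S1 ×ˢ (l '' ball 0 10) ⊆ {u : ℂ × ℂ | u.1 ∈ S1 ∧ ‖u.2‖ ^ n < 1 / 2} := by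
    rintro ⟨m, _⟩ ⟨hm, w, hw, rfl⟩
    exact ⟨hm, sm w hw⟩
  have d1 := ((Dif.refl S1).prod (d.mono (subset_univ (ball 0 10)))).trans ((cO_dif hn).mono sub)
  have o : IsOpen (l '' ball 0 10) := opn_univ.1 (d.opn (opn_univ.2 isOpen_ball))
  have o1 : Opn (S1 ×ˢ (l '' ball 0 10)) {u : ℂ × ℂ | u.1 ∈ S1 ∧ ‖u.2‖ ^ n < 1 / 2} :=
    opn_iff.2 ⟨univ ×ˢ (l '' ball 0 10), isOpen_univ.prod o,
      subset_antisymm (fun u hu => ⟨sub hu, trivial, hu.2⟩) fun u hu => ⟨hu.1.1, hu.2.2⟩⟩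
  refine ⟨_, _, d1, ((cO_dif hn).opn o1).trans (cO_opn n), fun u hu => ?_, ?_⟩
  · rw [← rcon_star (u := (u.1, l u.2)) hu.1 (sm _ hu.2), Prod.snd_star, hs]; rfl
  · ext a
    refine and_congr_right fun ha => ⟨fun k => ?_, ?_⟩
    · by_contra q
      have y : 0 < ‖a.2.1‖ ^ 3 := by
        refine pow_pos (norm_pos_iff.2 fun e => ?_) 3
        have z : a.2.2 = 0 := by
          simpa [e, hn] using le_antisymm (not_lt.1 q) (by simp [e])
        have h1 := ha.1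
        have h2 := ha.2
        simp only [e, z, zero_pow hn, zero_pow three_ne_zero, add_zero, pow_eq_zero_iff two_ne_zero]
          at h1
        simp [e, h1] at h2
      have m : a ∈ {a | a ∈ Yn n ∧ ‖a.2.2‖ ^ n < ‖a.2.1‖ ^ 3 / 2} := ⟨ha, by linarith [not_lt.1 q]⟩
      have m1 := (cO_dif hn).mG m
      have e := (cO_dif hn).fg a m
      have e' := d.fg (cO' n a).2 trivial
      refine k ⟨((cO' n a).1, l' (cO' n a).2), ⟨m1.1, mem_closedBall_zero_iff.2 ((h8 _).2 ?_)⟩, ?_⟩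
      · rw [e']
        by_contra r
        exact q (e ▸ (rcon_iff hn m1.1).2 r)
      · simp only [e', e]
    · rintro k ⟨u, hu, rfl⟩
      exact (rcon_iff hn (u := (u.1, l u.2)) hu.1).1 k ((h8 _).1 (mem_closedBall_zero_iff.1 hu.2))

theorem rcon_z {a : C3} (hn : n ≠ 0) (h : a ∈ rconL n) : a.2.2 ≠ 0 := fun e => by
  have := h.2
  rw [e, norm_zero, zero_pow hn] at this
  exact this.not_ge (by positivity)

theorem rcon_J (hn : n ≠ 0) {i e : ℤ} (h : 6 * i + n = e) (he : e * e = 1) : ∃ J',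
    Dif (rconL n) (rconL 1) (fun a => (Jm n i 0 e 0 0 1 (a, 1)).1) J' := by
  have d := Jm_dif (n := n) (n' := 1) (κ := n) (i₁ := i) (i₂ := 0) (e₁ := e) (e₂ := 0) (k := 0)
    (l := 1) (d := e) (by exact_mod_cast hn) (by simp) (by simpa using h) (by simp) (by simp) he
  set G := Jm (n : ℝ)⁻¹ (e * (0 * 0 - 1 * i)) (e * (0 * i - e * 0)) (e * 1) (-e * 0) (-e * 0)
    (e * e) with hG
  have one : (1 : ℂ) ∈ S1 := by simp
  have mA : ∀ {m : ℕ} (_ : m ≠ 0), MapsTo (fun a : C3 => (a, (1 : ℂ))) (rconL m) (YO m) :=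
    fun hm a ha => ⟨ha.1, one, rcon_z hm ha⟩
  have f1 : ∀ a : C3, Jm n i 0 e 0 0 1 (a, 1) = ((Jm n i 0 e 0 0 1 (a, 1)).1, 1) := fun a =>
    Prod.ext rfl (by simp [Jm])
  have g1 : ∀ a : C3, G (a, 1) = ((G (a, 1)).1, 1) := fun a => Prod.ext rfl (by simp [hG, Jm])
  have key : ∀ a : C3, a.2.2 ≠ 0 → ‖(Jm n i 0 e 0 0 1 (a, 1)).1.2.1‖ = ‖a.2.1‖ ∧
      ‖(Jm n i 0 e 0 0 1 (a, 1)).1.2.2‖ ^ 1 = ‖a.2.2‖ ^ n := fun a z => by
    simp [Jm, ph_norm z]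
  have c : ContDiff ℝ ∞ fun a : C3 => (a, (1 : ℂ)) := contDiff_id.prodMk contDiff_const
  refine ⟨fun b => (G (b, 1)).1, (d.cF.comp c.contDiffOn (mA hn)).fst,
    (d.cG.comp c.contDiffOn (mA one_ne_zero)).fst, fun a ha => ⟨(d.mF (mA hn ha)).1, ?_⟩,
    fun b hb => ⟨(d.mG (mA one_ne_zero hb)).1, ?_⟩, fun a ha => ?_, fun b hb => ?_⟩
  · rw [(key a (rcon_z hn ha)).1, (key a (rcon_z hn ha)).2]; exact ha.2
  · have m := d.mG (mA one_ne_zero hb)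
    have r := d.fg _ (mA one_ne_zero hb)
    have k := key _ m.2.2
    rw [← g1, r] at k
    rw [← k.1, ← k.2]; exact hb.2
  · show (G (_, 1)).1 = a
    rw [← f1, d.gf _ (mA hn ha)]
  · show (Jm n i 0 e 0 0 1 (_, 1)).1 = b
    rw [← g1, d.fg _ (mA one_ne_zero hb)]

theorem rcon_Jstar (κ : ℝ) (i e : ℤ) (a : C3) :
    (Jm κ i 0 e 0 0 1 (star a, 1)).1 = star (Jm κ i 0 e 0 0 1 (a, 1)).1 := by
  have r : ∀ x : ℝ, star (x : ℂ) = x := Complex.conj_ofReal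
  simp only [Jm, Prod.star_def, rcon_ph, zpow_zero, mul_one, star_mul', star_pow, star_zpow₀,
    norm_star, r]

theorem rcon_eps {e : ℤ} (he : e = 1 ∨ e = -1) : ∃ ε : ℂ → ℂ, Dif univ univ ε ε ∧
    (∀ w, ε (star w) = star (ε w)) ∧ (∀ w, ‖ε w‖ = ‖w‖) ∧ ∀ w, w ≠ 0 → ph (ε w) = ph w ^ e := by
  rcases he with rfl | rfl
  · exact ⟨id, Dif.refl _, fun _ => rfl, fun _ => rfl, fun _ _ => (zpow_one _).symm⟩
  · have c : ContDiffOn ℝ ∞ (star : ℂ → ℂ) univ := Complex.conjCLE.contDiff.contDiffOn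
    refine ⟨star, ⟨c, c, mapsTo_univ _ _, mapsTo_univ _ _, fun a _ => star_star a,
      fun a _ => star_star a⟩, fun _ => rfl, norm_star, fun w hw => ?_⟩
    rw [rcon_ph, zpow_neg_one, Complex.inv_eq_conj (ph_norm hw)]; rfl

theorem exists_con (s : ℤ) : ∃ j τ₁ τ₁' N₁ zf τ τ' N J J', TS τ₁ τ₁' N₁ zf ∧
    TY (Bri (6 * s + 1).natAbs) star j τ₁ τ τ' N J J' := by
  obtain ⟨i, e, hi, he⟩ : ∃ i e : ℤ, 6 * i + ((6 * s + 1).natAbs : ℕ) = e ∧ (e = 1 ∨ e = -1) := by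
    rcases le_or_gt 0 s with h | h
    · exact ⟨-s, 1, by omega, Or.inl rfl⟩
    · exact ⟨s, -1, by omega, Or.inr rfl⟩
  generalize (6 * s + 1).natAbs = n at hi
  have od : Odd n := Nat.odd_iff.2 (by omega)
  have hn : n ≠ 0 := by omega
  have ee : e * e = 1 := by rcases he with rfl | rfl <;> rfl
  obtain ⟨Φ, Ψ, dΦ, Φc, Φs⟩ := exists_conA
  obtain ⟨κ, κ', dκ, κs, κ8, κ9⟩ := exists_conB od
  obtain ⟨ε, dε, εs, εn, εp⟩ := rcon_eps he
  obtain ⟨T', N, dT, oT, sT, lT⟩ := rcon_tube hn (dε.trans dκ)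
    (fun w => by simp only [Function.comp, εs, κs]) (fun w => by rw [← εn]; exact κ8 _)
    fun w hw => by rw [← εn w] at hw ⊢; exact (κ9 _ hw).1
  have d40 : Dif univ univ (fun w : ℂ => w / 40) fun w => 40 * w :=
    ⟨by fun_prop, by fun_prop, mapsTo_univ _ _, mapsTo_univ _ _, fun a _ => by ring,
      fun a _ => by ring⟩
  obtain ⟨T₁', N₁, dT₁, oT₁, sT₁, lT₁⟩ := rcon_tube one_ne_zero d40 (fun w => by simp)
    (fun w => by
      rw [pow_one, norm_div, Complex.norm_ofNat]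
      constructor <;> intro h <;> linarith) fun w _ => by simp
  obtain ⟨J', dJ⟩ := rcon_J hn hi ee
  obtain ⟨b1, b2, b3, b4, b5⟩ := briY hn (A := Bri n) (B := Yn n) (fun _ => Iff.rfl) fun _ => Iff.rfl
  have dB : Dif (Yn n) (Bri n) (toB n) (toY n) := ⟨b2, b1, b4, b3, b5.2, b5.1⟩
  have c3 : ∀ a ∈ Sq3, c0 a ∈ Sq3 := fun a ha => by simpa [Sq3, c0] using ha
  have s3 : ∀ a ∈ Sq3, sg0 a ∈ Sq3 := fun a ha => by simpa [Sq3, sg0] using ha
  have Ψc : ∀ b ∈ Yn 1, Ψ (star b) = c0 (Ψ b) := fun b hb => by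
    rw [← dΦ.gf _ (c3 _ (dΦ.mG hb)), Φc _ (dΦ.mG hb), dΦ.fg b hb]
  have Ψs : ∀ b ∈ Yn 1, Ψ (-b.1, b.2.1, b.2.2) = sg0 (Ψ b) := fun b hb => by
    rw [← dΦ.gf _ (s3 _ (dΦ.mG hb)), Φs _ (dΦ.mG hb), dΦ.fg b hb]
  have cb : S1 ×ˢ closedBall (0 : ℂ) 8 ⊆ ST :=
    prod_mono Subset.rfl (closedBall_subset_ball (by norm_num))
  have k1 := (mapsTo_iff_image_subset.1 (dT₁.mF.mono_left cb)).trans oT₁.1
  have k2 := (mapsTo_iff_image_subset.1 (dT.mF.mono_left cb)).trans oT.1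
  have D1 := dΦ.symm.diff k1
  have D2 := (dB.diff k2).symm
  rw [lT₁, ← image_comp] at D1
  rw [lT, ← image_comp] at D2
  refine ⟨e * i, _, _, _, fun a => (Φ a).2.2.re, _, _, _, _, _,
    ⟨dT₁.trans (dΦ.symm.mono oT₁.1), dΦ.symm.opn oT₁, fun u hu => ?_, fun u hu => ?_,
      Complex.continuous_re.comp_continuousOn dΦ.cF.continuousOn.snd.snd, fun a ha => ?_,
      fun a ha => ?_, fun u hu _ => ?_, fun a ha z r => ?_⟩,
    ⟨fun a ha => ?_, fun a _ => star_star a, dT.trans (dB.mono oT.1), dB.opn oT, fun u hu => ?_,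
      (D2.trans dJ).trans D1, fun a ha => ?_, fun u hu h8 => ?_⟩⟩
  · exact (congrArg Ψ (sT₁ u hu)).trans (Ψc _ (oT₁.1 (dT₁.mF hu)))
  · exact (congrArg Ψ (rcon_neg 1 _ _)).trans (Ψs _ (oT₁.1 (dT₁.mF hu)))
  · simp [Φc a ha]
  · simp [Φs a ha]
  · obtain ⟨t, ht⟩ := cO_eq 1 (u.1, u.2 / 40)
    refine ⟨Real.exp (6 / (1 : ℕ) * t) / 40, by positivity, ?_⟩
    show (Φ (Ψ (cO 1 (u.1, u.2 / 40)))).2.2.re = _
    rw [dΦ.fg _ (oT₁.1 (dT₁.mF hu)), ht]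
    simp only [scl, Complex.smul_re, Complex.div_ofNat_re, smul_eq_mul]
    ring
  · have h1 : c0 a = a := Prod.ext rfl (by simp [c0, z])
    have h2 := Φc a ha.1
    rw [h1] at h2
    have h3 : (Φ a).2.2 = 0 := Complex.ext r
      (Complex.conj_eq_iff_im.1 (congrArg (fun b : C3 => b.2.2) h2).symm)
    by_cases q : Φ a ∈ rconL 1
    · exact rcon_z one_ne_zero q h3
    · rw [← lT₁] at q
      obtain ⟨u, hu, eu⟩ := not_not.1 fun k => q ⟨dΦ.mF ha.1, k⟩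
      exact ha.2 ⟨Φ a, eu ▸ dT₁.mF (cb hu), dΦ.gf a ha.1⟩
  · refine ⟨?_, by simpa using ha.2⟩
    have := congrArg star ha.1
    simpa using this
  · exact (congrArg (toB n) (sT u hu)).trans (toB_star n _)
  · show Ψ (Jm n i 0 e 0 0 1 (toY n (star a), 1)).1 = _
    rw [toY_star, rcon_Jstar]
    exact Ψc _ (dJ.mF (D2.mF ha)).1
  · show Ψ (Jm n i 0 e 0 0 1 (toY n (toB n (cO n (u.1, κ (ε u.2)))), 1)).1 =
      Ψ (cO 1 (u.1 * ph u.2 ^ (e * i), u.2 / 40))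
    have w0 : u.2 ≠ 0 := norm_pos_iff.1 (by linarith)
    obtain ⟨q1, q2⟩ := κ9 (ε u.2) (by rw [εn]; exact h8.le)
    rw [εn] at q1
    have w1 : κ (ε u.2) ≠ 0 := fun z => by
      rw [z, norm_zero, zero_pow hn] at q1
      linarith
    have y : toY n (toB n (cO n (u.1, κ (ε u.2)))) = cO n (u.1, κ (ε u.2)) :=
      dB.gf _ (oT.1 (dT.mF hu))
    rw [y, cO_Jm (n' := 1) hn one_ne_zero 0 1 (by simp) (by simpa using hi) (by simp) hu.1 w1
      (by simp), q2, εp _ w0, Real.rpow_natCast, q1, ← zpow_mul, ← zpow_mul, ee]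
    refine congrArg (fun v => Ψ (cO 1 v)) (Prod.ext (by simp [mul_comm]) ?_)
    have := ph_mul_norm w0
    simp only [zpow_one, zpow_zero, mul_one]
    push_cast
    linear_combination this / 40

end Pool.Agent.Lib.MP_b2e238_gt
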