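import Pool.Agent.Lib.MP_b2e238_gt.U.Defs
import Pool.Agent.Lib.MP_b2e238_gt.B.Defs

/-! The quotient of a Brieskorn sphere by conjugation, by one regluing of the standard quotient. -/

open scoped ContDiff Topology
open Set Metric

noncomputable section

namespace Pool.Agent.Lib.MP_b2e238_gt

variable {V : Type} [NormedAddCommGroup V] [NormedSpace ℝ V]

/-- A three-sphere adapted to the standard quotient. -/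
def Sq3 : Set (ℂ × ℂ) := {a | ‖a.1‖ ^ 2 + ‖a.2‖ ^ 4 = 1}

/-- The standard quotient. -/
def p0 (a : ℂ × ℂ) : (ℝ × ℂ) × ℝ := ((a.1.re, a.2 ^ 2), a.1.im)

/-- Its deck map. -/
def c0 (a : ℂ × ℂ) : ℂ × ℂ := (a.1, -a.2)

/-- A symmetry. -/
def sg0 (a : ℂ × ℂ) : ℂ × ℂ := (-star a.1, -star a.2)

/-- The symmetry below. -/
def sb0 (y : (ℝ × ℂ) × ℝ) : (ℝ × ℂ) × ℝ := ((-y.1.1, star y.1.2), y.2)

/-- The tube round the fixed circle. -/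
def nu1 (u : ℝ × ℂ) : ℂ × ℂ :=
  ((√(1 + ‖u.2‖ ^ 4))⁻¹ • ex u.1, (√√(1 + ‖u.2‖ ^ 4))⁻¹ • u.2)

/-- The tube round the branch circle. -/
def nu0 (u : ℝ × ℂ) : (ℝ × ℂ) × ℝ := nrm (((ex u.1).re, u.2), (ex u.1).im)

/-- The solid torus. -/
abbrev ST : Set (ℂ × ℂ) := S1 ×ˢ ball 0 10

/-- Open rectangles. -/
def Rc (x y : ℝ) : Set ℂ := {w | |w.re| < x ∧ |w.im| < y}

/-- Closed rectangles. -/
def Qc (x y : ℝ) : Set ℂ := {w | |w.re| ≤ x ∧ |w.im| ≤ y}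

/-- The chart of the solid torus at the fixed arc `m = 1`. -/
def fp (u : ℝ × ℂ) : ℂ × ℂ :=
  (ph ((1 + u.2) / (1 - u.2)), u.1 + .I * Real.log ‖(1 + u.2) / (1 - u.2)‖)

/-- An odd diffeomorphism of the plane that is the Joukowski map far out. -/
structure GG (G G' : ℂ → ℂ) : Prop where
  dif : Dif univ univ G G'
  odd : ∀ u, G (-u) = -G u
  far : ∀ u, Real.exp 2 ≤ ‖u‖ → G u = (u + u⁻¹) / 2

/-- The model quotient of the solid torus. -/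
def qm (G' : ℂ → ℂ) (u : ℂ × ℂ) : ℂ × ℝ :=
  (G' ((u.1 * Real.exp u.2.im + (u.1 * Real.exp u.2.im)⁻¹) / 2), u.2.re)

/-- A symmetric solid torus in `Sq3`; `zf` tells the two real arcs outside apart. -/
structure TS (τ τ' : ℂ × ℂ → ℂ × ℂ) (N : Set (ℂ × ℂ)) (zf : ℂ × ℂ → ℝ) : Prop where
  dif : Dif ST N τ τ'
  opn : Opn N Sq3
  ec : ∀ u ∈ ST, τ (star u) = c0 (τ u)
  es : ∀ u ∈ ST, τ (-u.1, u.2) = sg0 (τ u)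
  cz : ContinuousOn zf Sq3
  zc : ∀ a ∈ Sq3, zf (c0 a) = zf a
  zs : ∀ a ∈ Sq3, zf (sg0 a) = zf a
  sz : ∀ u ∈ ST, 1 ≤ ‖u.2‖ → ∃ r > 0, zf (τ u) = r * u.2.re
  z0 : ∀ a ∈ Sq3 \ N, a.2 = 0 → zf a ≠ 0

/-- `Y` is `Sq3` with the solid torus `τ₁` reglued by the shear `j`. -/
structure TY (Y : Set V) (c : V → V) (j : ℤ) (τ₁ : ℂ × ℂ → ℂ × ℂ) (τ : ℂ × ℂ → V)
    (τ' : V → ℂ × ℂ) (N : Set V) (J : V → ℂ × ℂ) (J' : ℂ × ℂ → V) : Prop where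
  mc : MapsTo c Y Y
  cc : ∀ a ∈ Y, c (c a) = a
  dif : Dif ST N τ τ'
  opn : Opn N Y
  ec : ∀ u ∈ ST, τ (star u) = c (τ u)
  dJ : Dif (Y \ τ '' (S1 ×ˢ closedBall 0 8)) (Sq3 \ τ₁ '' (S1 ×ˢ closedBall 0 8)) J J'
  eJ : ∀ a ∈ Y \ τ '' (S1 ×ˢ closedBall 0 8), J (c a) = c0 (J a)
  ov : ∀ u ∈ ST, 8 < ‖u.2‖ → J (τ u) = τ₁ (u.1 * ph u.2 ^ j, u.2)

/-- The solid torus is in standard position near the fixed point `(1, 0)`. -/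
def Ad (τ : ℂ × ℂ → ℂ × ℂ) : Prop := ∃ (t α : ℝ) (γ : ℂ), α ≠ 0 ∧ γ ≠ 0 ∧
  ((∀ᶠ u in 𝓝 (0 : ℝ × ℂ), τ (fp u) = nu1 (t + α * u.1, γ * u.2)) ∨
    ∀ᶠ u in 𝓝 (0 : ℝ × ℂ), τ (fp u) = nu1 (t + α * u.1, γ * star u.2))

/-- The half turn `k` and the phase `h` off the rectangle. -/
structure PH (x : ℝ) (k : ℝ → ℂ) (h : ℂ → ℂ) : Prop where
  ck : ContDiff ℝ ∞ k
  nk : ∀ a, ‖k a‖ = 1
  kp : ∀ a, x / 2 < a → k a = 1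
  kn : ∀ a, a < -(x / 2) → k a = -1
  ch : ContDiffOn ℝ ∞ h (Qc (x / 2) 2)ᶜ
  nh : ∀ w ∉ Qc (x / 2) 2, ‖h w‖ = 1 ∧ h (star w) = star (h w)
  far : ∀ w, 8 ≤ ‖w‖ → h w = ph w
  near : ∀ w ∈ Rc x 3, (2 < w.im → h w = k w.re) ∧ (w.im < -2 → h w = star (k w.re)) ∧
    (x / 2 < |w.re| → h w = k w.re)

end Pool.Agent.Lib.MP_b2e238_gt
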