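import Pool.Agent.Lib.MP_b2e238_gt.R.P0
import Pool.Agent.Lib.MP_b2e238_gt.R.Mod
import Pool.Agent.Lib.MP_b2e238_gt.R.Fp
import Pool.Agent.Lib.MP_b2e238_gt.U.Sec

/-! The chart below. -/

open scoped ContDiff Topology
open Set Metric

noncomputable section

namespace Pool.Agent.Lib.MP_b2e238_gt

variable {P V W V' : Type} [NormedAddCommGroup P] [NormedSpace ℝ P] [NormedAddCommGroup V]
  [NormedSpace ℝ V] [NormedAddCommGroup W] [NormedSpace ℝ W] [NormedAddCommGroup V']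
  [NormedSpace ℝ V'] [FiniteDimensional ℝ P] [FiniteDimensional ℝ V] [FiniteDimensional ℝ W]
  [FiniteDimensional ℝ V']

section Abs
variable {X : Set P} {q : P → V} {r : P → W} {e : V → W}

omit [FiniteDimensional ℝ P] [FiniteDimensional ℝ V] [FiniteDimensional ℝ W] [NormedAddCommGroup P]
  [NormedSpace ℝ P] in
theorem rdes_loc (he : ∀ u ∈ X, e (q u) = r u) {y : V} (hy : y ∈ q '' X) {f : V → W}
    (hf : ContDiffWithinAt ℝ ∞ f (q '' X) y)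
    (h : ∀ᶠ z in 𝓝[q '' X] y, ∃ u ∈ X, q u = z ∧ r u = f z) : ContDiffWithinAt ℝ ∞ e (q '' X) y :=
  hf.congr_of_eventuallyEq_of_mem (h.mono fun _ ⟨u, a, b, c⟩ => b ▸ (he u a).trans (b ▸ c)) hy

omit [FiniteDimensional ℝ P] [FiniteDimensional ℝ V] [FiniteDimensional ℝ W] in
theorem rdes_sec (he : ∀ u ∈ X, e (q u) = r u) (hr : ContDiffOn ℝ ∞ r X) {y : V} (hy : y ∈ q '' X)
    {O : Set V} (o : O ∈ 𝓝[q '' X] y) {σ : V → P} (c : ContDiffOn ℝ ∞ σ (q '' X ∩ O))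
    (h : ∀ z ∈ q '' X ∩ O, σ z ∈ X ∧ q (σ z) = z) : ContDiffWithinAt ℝ ∞ e (q '' X) y := by
  have m := Filter.inter_mem self_mem_nhdsWithin o
  refine rdes_loc he hy (f := r ∘ σ) (((hr.comp c fun z hz => (h z hz).1) y
    ⟨hy, mem_of_mem_nhdsWithin hy o⟩).mono_of_mem_nhdsWithin m) ?_
  filter_upwards [m] with z hz using ⟨σ z, (h z hz).1, (h z hz).2, rfl⟩

omit [FiniteDimensional ℝ P] [FiniteDimensional ℝ V] [FiniteDimensional ℝ W] [NormedAddCommGroup P]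
  [NormedSpace ℝ P] in
theorem rdes_sym (he : ∀ u ∈ X, e (q u) = r u) {n : P → P} {ν : V → V} {β : W → W}
    (m : MapsTo n X X) (i : ∀ u, n (n u) = u) (hq : ∀ u ∈ X, q (n u) = ν (q u))
    (hr : ∀ u ∈ X, r (n u) = β (r u)) (cν : ContDiff ℝ ∞ ν) (cβ : ContDiff ℝ ∞ β) {u : P}
    (hu : u ∈ X) (h : ContDiffWithinAt ℝ ∞ e (q '' X) (q u)) :
    ContDiffWithinAt ℝ ∞ e (q '' X) (q (n u)) := by
  have e1 : ν (q (n u)) = q u := by rw [← hq _ (m hu), i]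
  have c : ContDiffWithinAt ℝ ∞ (e ∘ ν) (q '' X) (q (n u)) :=
    ContDiffWithinAt.comp _ (e1 ▸ h) cν.contDiffWithinAt (by
      rintro _ ⟨v, hv, rfl⟩
      exact ⟨n v, m hv, hq v hv⟩)
  refine (cβ.contDiffAt.comp_contDiffWithinAt _ c).congr_of_mem ?_ ⟨_, m hu, rfl⟩
  rintro _ ⟨v, hv, rfl⟩
  simp only [Function.comp_apply]
  rw [← hq v hv, he _ (m hv), he v hv, ← hr _ (m hv), i]

omit [FiniteDimensional ℝ P] [FiniteDimensional ℝ V] [FiniteDimensional ℝ W] [NormedSpace ℝ P]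
  [NormedAddCommGroup V] [NormedSpace ℝ V] [NormedAddCommGroup W] [NormedSpace ℝ W] in
theorem rdes_ex (h : ∀ u ∈ X, ∀ v ∈ X, q v = q u → r v = r u) :
    ∃ e : V → W, ∀ u ∈ X, e (q u) = r u :=
  ⟨fun y => r (Function.invFunOn q X y), fun u hu =>
    h u hu _ (Function.invFunOn_mem ⟨u, hu, rfl⟩) (Function.invFunOn_eq ⟨u, hu, rfl⟩)⟩

end Abs

section TS
variable {τ₁ τ₁' : ℂ × ℂ → ℂ × ℂ} {N₁ : Set (ℂ × ℂ)} {zf : ℂ × ℂ → ℝ} {G G' : ℂ → ℂ}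

theorem rdes_mem (g : GG G G') {x : ℝ} {u : ℂ × ℂ} (h : u.1 ∈ S1) :
    qm G' u ∈ ball (0 : ℂ) (Real.exp 3) ×ˢ Ioo (-x) x ↔ u ∈ S1 ×ˢ Rc x 3 := by
  rw [mem_prod, mem_ball_zero_iff, qm_mem g h, mem_Ioo, ← abs_lt]
  exact ⟨fun k => ⟨h, k.2, k.1⟩, fun k => ⟨k.2.2, k.2.1⟩⟩

theorem rdes_im (g : GG G G') (x : ℝ) :
    qm G' '' (S1 ×ˢ Rc x 3) = ball (0 : ℂ) (Real.exp 3) ×ˢ Ioo (-x) x := by
  refine Subset.antisymm ?_ fun y hy => ?_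
  · rintro _ ⟨u, hu, rfl⟩
    exact (rdes_mem g hu.1).2 hu
  · obtain ⟨u, hu, rfl⟩ := rqm_surj g y
    exact ⟨u, (rdes_mem g hu).1 hy, rfl⟩

/-- the two maps near the arc `m = 1` -/
theorem rdes_arc (g : GG G G') {x t α : ℝ} {γ : ℂ} (hα : α ≠ 0) (hγ : γ ≠ 0) {κ : ℂ → ℂ}
    (cκ : ContDiff ℝ ∞ κ) (kk : ∀ z, κ (κ z) = z) (k2 : ∀ z, κ (z ^ 2) = κ z ^ 2) (k0 : κ 0 = 0)
    (x1 : x < 1) {r : ℂ × ℂ → (ℝ × ℂ) × ℝ}
    (hr : ∀ u : ℝ × ℂ, ‖u‖ < x → r (fp u) = p0 (nu1 (t + α * u.1, γ * κ u.2)))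
    (sub : r '' (S1 ×ˢ Rc x 3) ⊆ Sph ℝ) {e : ℂ × ℝ → (ℝ × ℂ) × ℝ} {e' : (ℝ × ℂ) × ℝ → ℂ × ℝ}
    (he : ∀ u ∈ S1 ×ˢ Rc x 3, e (qm G' u) = r u) (he' : ∀ u ∈ S1 ×ˢ Rc x 3, e' (r u) = qm G' u)
    {a : ℝ} (ha : ((1 : ℂ), (a : ℂ)) ∈ S1 ×ˢ Rc x 3) :
    ContDiffWithinAt ℝ ∞ e (qm G' '' (S1 ×ˢ Rc x 3)) (qm G' (1, a)) ∧
      ContDiffWithinAt ℝ ∞ e' (r '' (S1 ×ˢ Rc x 3)) (r (1, a)) := by
  have ax : |a| < x := by simpa using ha.2.1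
  have x0 : 0 < x := (abs_nonneg a).trans_lt ax
  let A : ℝ × ℂ → ℂ × ℝ := fun u => (G' ((1 + u.2) / (1 - u.2)), u.1)
  let B : ℝ × ℂ → (ℝ × ℂ) × ℝ := fun u => nu0 (t + α * u.1, γ ^ 2 * κ u.2)
  have key : ∀ᶠ u in 𝓝 ((a, 0) : ℝ × ℂ), ∃ v ∈ S1 ×ˢ Rc x 3, qm G' v = A u ∧ r v = B u := by
    have cA : ContinuousAt A (a, 0) := ((contDiffOn_univ.1 g.dif.cG).continuous.continuousAt.comp
      ((continuousAt_const.add continuousAt_snd).div (continuousAt_const.sub continuousAt_snd)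
        (by simp))).prodMk continuousAt_fst
    have m : A (a, 0) ∈ ball (0 : ℂ) (Real.exp 3) ×ˢ Ioo (-x) x := by
      have := (rdes_mem g ha.1).2 ha
      rw [← fp_zero, qm_fp G' (by simp)] at this
      simpa [A] using this
    filter_upwards [cA.eventually ((isOpen_ball.prod isOpen_Ioo).mem_nhds m),
      (isOpen_ball.preimage continuous_snd).mem_nhds
        (show ((a, 0) : ℝ × ℂ).2 ∈ ball 0 (x ^ 2) from mem_ball_self (by positivity))] with u h1 h2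
    obtain ⟨z, hz⟩ := IsAlgClosed.exists_pow_nat_eq u.2 two_pos
    have z1 : ‖z‖ < x := mem_ball_zero_iff.1 ((usq_lt x0).1 (hz ▸ h2))
    have e1 : qm G' (fp (u.1, z)) = A u := by rw [qm_fp G' (z1.trans x1), hz]
    have s1 := (fp_par.2.2.2.1 (show (u.1, z) ∈ univ ×ˢ ball (0 : ℂ) 1 from
      ⟨trivial, mem_ball_zero_iff.2 (z1.trans x1)⟩)).1
    refine ⟨fp (u.1, z), (rdes_mem g s1).1 (e1 ▸ h1), e1, ?_⟩
    rw [hr (u.1, z) (max_lt (abs_lt.2 h1.2) z1), p0_nu1, mul_pow, ← k2, hz]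
  obtain ⟨eA, eB⟩ : qm G' (1, a) = A (a, 0) ∧ r (1, a) = B (a, 0) := by
    rw [← fp_zero, qm_fp G' (by simp), hr (a, 0) (by simpa using ax), p0_nu1]
    simp [A, B, k0]
  constructor
  · let A' : ℂ × ℝ → ℝ × ℂ := fun y => (y.2, (G y.1 - 1) / (G y.1 + 1))
    have cG := (contDiffOn_univ.1 g.dif.cF).comp (contDiff_fst (𝕜 := ℝ) (E := ℂ) (F := ℝ))
    have g1 : G (A (a, 0)).1 = 1 := by simpa [A] using g.dif.fg 1 trivial
    have n1 : G (A (a, 0)).1 + 1 ≠ 0 := by rw [g1]; norm_num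
    have e1 : A' (A (a, 0)) = (a, 0) := by simp only [A', g1]; simp [A]
    have cA : ContDiffAt ℝ ∞ A' (A (a, 0)) := contDiffAt_snd.prodMk
      ((cG.contDiffAt.sub contDiffAt_const).mul ((cG.contDiffAt.add contDiffAt_const).inv n1))
    have cB : ContDiffAt ℝ ∞ B (a, 0) := ContDiffAt.comp (g := nu0) _ ((nu0_tube 1).smooth.contDiffAt
      ((isOpen_univ.prod isOpen_ball).mem_nhds ⟨trivial, by simp [k0]⟩))
      ((contDiff_const.add (contDiff_const.mul contDiff_fst)).prodMk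
        (contDiff_const.mul (cκ.comp contDiff_snd))).contDiffAt
    refine rdes_loc he ⟨_, ha, rfl⟩ (f := B ∘ A') ?_ ?_
    · rw [eA]
      exact (ContDiffAt.comp _ (by rwa [e1]) cA).contDiffWithinAt
    rw [eA]
    refine nhdsWithin_le_nhds ?_
    filter_upwards [cA.continuousAt.eventually (e1 ▸ key),
      (cG.continuous.continuousAt.add continuousAt_const).eventually_ne n1] with y ⟨v, h1, h2, h3⟩ h4
    refine ⟨v, h1, h2.trans ?_, h3⟩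
    have h5 : G y.1 + 1 ≠ 0 := h4
    have : (1 + (G y.1 - 1) / (G y.1 + 1)) / (1 - (G y.1 - 1) / (G y.1 + 1)) = G y.1 := by
      field_simp
      ring
    simp only [A, A', this, g.dif.gf _ trivial]
  · have p := (nu0_tube 1).2 (t + α * a - 1 / 2)
    obtain ⟨χ, d⟩ := p.dif
    have m := slide_mem (t + α * a) (show ‖(0 : ℂ)‖ < 1 by simp)
    let B' : (ℝ × ℂ) × ℝ → ℝ × ℂ := fun y => (((χ y).1 - t) / α, κ ((χ y).2 / γ ^ 2))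
    have e0 : B (a, 0) = nu0 (t + α * a, 0) := by simp [B, k0]
    have nb := nhdsWithin_mono _ sub (p.opn.2 _ ⟨_, m, e0.symm⟩)
    have cχ := (d.cG _ ⟨_, m, e0.symm⟩).mono_of_mem_nhdsWithin nb
    have e1 : B' (B (a, 0)) = (a, 0) := by simp [B', e0, d.gf _ m, k0, hα]
    have cB : ContDiffWithinAt ℝ ∞ B' (r '' (S1 ×ˢ Rc x 3)) (B (a, 0)) :=
      ((cχ.fst.sub contDiffWithinAt_const).div_const α).prodMk
        (cκ.contDiffAt.comp_contDiffWithinAt _ (cχ.snd.div_const _))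
    have cA : ContDiffAt ℝ ∞ A (a, 0) := ((contDiffOn_univ.1 g.dif.cG).contDiffAt.comp _
      ((contDiffAt_const.add contDiffAt_snd).mul ((contDiffAt_const.sub contDiffAt_snd).inv
        (by simp)))).prodMk contDiffAt_fst
    refine rdes_loc he' ⟨_, ha, rfl⟩ (f := A ∘ B') ?_ ?_
    · rw [eB]
      exact (e1 ▸ cA).comp_contDiffWithinAt _ cB
    rw [eB]
    filter_upwards [cB.continuousWithinAt.eventually (e1 ▸ key), nb] with y ⟨v, h1, h2, h3⟩ h4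
    refine ⟨v, h1, h3.trans ?_, h2⟩
    have : t + α * (((χ y).1 - t) / α) = (χ y).1 := by field_simp; ring
    simp only [B, B', kk, this, mul_div_cancel₀ _ (pow_ne_zero 2 hγ)]
    exact d.fg y h4

theorem exists_des (h : TS τ₁ τ₁' N₁ zf) (a : Ad τ₁) (g : GG G G') : ∃ x : ℝ, 0 < x ∧ x < 1 ∧
    ∃ e e', Dif (ball (0 : ℂ) (Real.exp 3) ×ˢ Ioo (-x) x) (p0 '' (τ₁ '' (S1 ×ˢ Rc x 3))) e e' ∧
      ∀ u ∈ S1 ×ˢ Rc x 3, e (qm G' u) = p0 (τ₁ u) := by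
  obtain ⟨t, α, γ, hα, hγ, a⟩ := a
  obtain ⟨κ, cκ, kk, k2, k0, a⟩ : ∃ κ : ℂ → ℂ, ContDiff ℝ ∞ κ ∧ (∀ z, κ (κ z) = z) ∧
      (∀ z, κ (z ^ 2) = κ z ^ 2) ∧ κ 0 = 0 ∧
      ∀ᶠ u in 𝓝 (0 : ℝ × ℂ), τ₁ (fp u) = nu1 (t + α * u.1, γ * κ u.2) :=
    a.elim (fun a => ⟨id, contDiff_id, fun _ => rfl, fun _ => rfl, rfl, a⟩) fun a =>
      ⟨star, Complex.conjCLE.contDiff, star_star, fun z => star_pow z 2, star_zero _, a⟩
  obtain ⟨ρ, ρ0, a⟩ := Metric.eventually_nhds_iff_ball.1 a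
  set x := min ρ (1 / 2)
  have x1 : x < 1 := (min_le_right _ _).trans_lt (by norm_num)
  have sT : S1 ×ˢ Rc x 3 ⊆ ST := fun u hu => ⟨hu.1, mem_ball_zero_iff.2 (by
    linarith [Complex.norm_le_abs_re_add_abs_im u.2, hu.2.1, hu.2.2])⟩
  have sX : ∀ u ∈ S1 ×ˢ Rc x 3, star u ∈ S1 ×ˢ Rc x 3 := fun u hu =>
    ⟨by simpa using hu.1, by simpa using hu.2.1, by simpa using hu.2.2⟩
  have mS : ∀ u ∈ S1 ×ˢ Rc x 3, τ₁ u ∈ Sq3 := fun u hu => h.opn.1 (h.dif.mF (sT hu))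
  have sub : (p0 ∘ τ₁) '' (S1 ×ˢ Rc x 3) ⊆ Sph ℝ :=
    image_subset_iff.2 fun u hu => p0_br.mapsTo (mS u hu)
  obtain ⟨e, he⟩ := rdes_ex (X := S1 ×ˢ Rc x 3) (q := qm G') (r := p0 ∘ τ₁) fun u hu v hv k => by
    rcases (rqm_fib g hu.1 hv.1).1 k with rfl | rfl
    · rfl
    · exact (congrArg p0 (h.ec u (sT hu))).trans (p0_dk.ovr _ (mS u hu))
  obtain ⟨e', he'⟩ := rdes_ex (X := S1 ×ˢ Rc x 3) (q := p0 ∘ τ₁) (r := qm G') fun u hu v hv k =>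
    (rqm_fib g hu.1 hv.1).2 ((p0_dk.fib _ (mS u hu) _ (mS v hv) k).imp
      (fun c => h.dif.injOn (sT hv) (sT hu) c)
      fun c => h.dif.injOn (sT hv) (sT (sX u hu)) (c.trans (h.ec u (sT hu)).symm))
  have key : ∀ u ∈ S1 ×ˢ Rc x 3, ContDiffWithinAt ℝ ∞ e (qm G' '' (S1 ×ˢ Rc x 3)) (qm G' u) ∧
      ContDiffWithinAt ℝ ∞ e' ((p0 ∘ τ₁) '' (S1 ×ˢ Rc x 3)) ((p0 ∘ τ₁) u) := by
    intro u hu
    by_cases c : star u = u
    · have arc := fun {b : ℝ} => rdes_arc g hα hγ cκ kk k2 k0 x1 (r := p0 ∘ τ₁) (fun v hv =>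
        congrArg p0 (a v (mem_ball_zero_iff.2 (hv.trans_le (min_le_left _ _))))) sub he he' (a := b)
      obtain ⟨m, w⟩ := u
      obtain ⟨b, rfl⟩ := Complex.conj_eq_iff_real.1 (congrArg Prod.snd c)
      obtain ⟨s, rfl⟩ := Complex.conj_eq_iff_real.1 (congrArg Prod.fst c)
      have s1 : |s| = 1 := by simpa using hu.1
      rcases eq_or_eq_neg_of_abs_eq s1 with rfl | rfl
      · exact arc hu
      have mn : MapsTo (fun u : ℂ × ℂ => (-u.1, u.2)) (S1 ×ˢ Rc x 3) (S1 ×ˢ Rc x 3) :=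
        fun u hu => ⟨by simpa using hu.1, hu.2⟩
      have nn : ∀ u : ℂ × ℂ, (- -u.1, u.2) = u := fun u => by rw [neg_neg]
      have h1 : ((1 : ℂ), (b : ℂ)) ∈ S1 ×ˢ Rc x 3 := ⟨by simp, hu.2⟩
      have q1 : ∀ u ∈ S1 ×ˢ Rc x 3, qm G' (-u.1, u.2) = (-(qm G' u).1, (qm G' u).2) :=
        fun u _ => qm_neg g u.1 u.2
      have q2 : ∀ u ∈ S1 ×ˢ Rc x 3, (p0 ∘ τ₁) (-u.1, u.2) = sb0 ((p0 ∘ τ₁) u) := fun u hu =>
        (congrArg p0 (h.es u (sT hu))).trans (p0_sg0 _)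
      have c1 : ContDiff ℝ ∞ fun y : ℂ × ℝ => (-y.1, y.2) := contDiff_fst.neg.prodMk contDiff_snd
      have c2 : ContDiff ℝ ∞ sb0 := (contDiff_fst.fst.neg.prodMk
        (Complex.conjCLE.contDiff.comp contDiff_fst.snd)).prodMk contDiff_snd
      rw [Complex.ofReal_neg, Complex.ofReal_one]
      have a1 := rdes_sym he mn nn q1 q2 c1 c2 h1 (arc h1).1
      have a2 := rdes_sym he' mn nn q2 q1 c2 c1 h1 (arc h1).2
      exact ⟨a1, a2⟩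
    constructor
    · obtain ⟨O, σ, o, m, cσ, hσ⟩ := qm_sec g hu.1 c
      exact rdes_sec he (p0_br.contOn.1.comp (h.dif.cF.mono sT) mS) ⟨u, hu, rfl⟩
        (nhdsWithin_le_nhds (o.mem_nhds m)) (cσ.mono inter_subset_right) fun z hz =>
        ⟨(rdes_mem g (hσ z hz.2).1).1 (by rw [(hσ z hz.2).2, ← rdes_im g]; exact hz.1),
          (hσ z hz.2).2⟩
    · obtain ⟨N, σ, o, m, -, cσ, -, hσ⟩ := p0_br.sec (mS u hu) fun k => c
        (h.dif.injOn (sT (sX u hu)) (sT hu) ((h.ec u (sT hu)).trans ((p0_dk.fix _ (mS u hu)).2 k)))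
      have k : ∀ z ∈ (p0 ∘ τ₁) '' (S1 ×ˢ Rc x 3) ∩ N, ∃ v ∈ S1 ×ˢ Rc x 3, σ z = τ₁ v := by
        rintro _ ⟨⟨v, hv, rfl⟩, hz⟩
        rcases p0_dk.fib _ (mS v hv) _ (hσ _ hz).1 (hσ _ hz).2 with k | k
        exacts [⟨v, hv, k⟩, ⟨star v, sX v hv, k.trans (h.ec v (sT hv)).symm⟩]
      refine rdes_sec he' ((qm_smooth g).mono fun v hv => ⟨hv.1, trivial⟩) ⟨u, hu, rfl⟩
        (nhdsWithin_mono _ sub (o.2 _ m)) (σ := τ₁' ∘ σ)
        (h.dif.cG.comp (cσ.mono inter_subset_right) fun z hz => ?_) fun z hz => ?_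
      · obtain ⟨v, hv, k⟩ := k z hz
        exact k ▸ h.dif.mF (sT hv)
      · obtain ⟨v, hv, k⟩ := k z hz
        simp only [Function.comp_apply, k, h.dif.gf v (sT hv)]
        exact ⟨hv, k ▸ (hσ z hz.2).2⟩
  refine ⟨x, lt_min ρ0 (by norm_num), x1, e, e', ?_, he⟩
  rw [← rdes_im g, ← image_comp]
  refine ⟨?_, ?_, ?_, ?_, ?_, ?_⟩ <;> rintro _ ⟨u, hu, rfl⟩
  exacts [(key u hu).1, (key u hu).2, ⟨u, hu, (he u hu).symm⟩, ⟨u, hu, (he' u hu).symm⟩,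
    by rw [he u hu, he' u hu], by rw [he' u hu, he u hu]]

end TS

end Pool.Agent.Lib.MP_b2e238_gt
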