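import Pool.Agent.Lib.MP_b2e238_gt.R.Defs
import Pool.Agent.Lib.MP_b2e238_gt.K.Inv

/-! An odd diffeomorphism of the plane that is the Joukowski map far out. -/

open scoped ContDiff Topology
open Set Metric

noncomputable section

namespace Pool.Agent.Lib.MP_b2e238_gt

/-- A smooth version of `max q 8`. -/
theorem rgg_max : ∃ m s : ℝ → ℝ, ContDiff ℝ ∞ m ∧ (∀ q, HasDerivAt m (s q) q) ∧
    (∀ q, 0 ≤ s q ∧ s q ≤ 1 ∧ q ≤ m q ∧ 8 ≤ m q) ∧ ∀ q, 9 ≤ q → m q = q := by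
  obtain ⟨s, c, s0, s1, s2, s3⟩ : ∃ s : ℝ → ℝ, ContDiff ℝ ∞ s ∧ (∀ q, 0 ≤ s q) ∧ (∀ q, s q ≤ 1) ∧
      (∀ q ≤ 8, s q = 0) ∧ ∀ q, 9 ≤ q → s q = 1 :=
    ⟨fun t => Real.smoothTransition (t - 8),
      Real.smoothTransition.contDiff.comp (contDiff_id.sub contDiff_const),
      fun _ => Real.smoothTransition.nonneg _, fun _ => Real.smoothTransition.le_one _,
      fun _ h => Real.smoothTransition.zero_of_nonpos (by linarith),
      fun _ h => Real.smoothTransition.one_of_one_le (by linarith)⟩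
  obtain ⟨m, d, e⟩ : ∃ m : ℝ → ℝ, (∀ q, HasDerivAt m (s q) q) ∧ ∀ q, 9 ≤ q → m q = q := by
    refine ⟨fun q => 9 + ∫ t in (9 : ℝ)..q, s t, fun q =>
      (c.continuous.integral_hasStrictDerivAt 9 q).hasDerivAt.const_add 9, fun q h => ?_⟩
    have : ∫ t in (9 : ℝ)..q, s t = ∫ _ in (9 : ℝ)..q, (1 : ℝ) :=
      intervalIntegral.integral_congr fun t ht => s3 t (by rw [uIcc_of_le h] at ht; exact ht.1)
    simp [this]
  have a : Antitone fun q => m q - q := antitone_of_hasDerivAt_nonpos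
    (fun q => (d q).sub (hasDerivAt_id q)) fun q => sub_nonpos.2 (s1 q)
  have l : ∀ q, q ≤ m q := fun q => (le_total q 9).elim
    (fun h => by have := a h; simp only [e 9 le_rfl] at this; linarith) fun h => (e q h).ge
  have b : AntitoneOn m (Iic 8) := antitoneOn_of_hasDerivWithinAt_nonpos (convex_Iic 8)
    (fun q _ => (d q).continuousAt.continuousWithinAt) (fun q _ => (d q).hasDerivWithinAt)
    fun q h => (s2 q (mem_Iic.1 (interior_subset h))).le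
  refine ⟨m, s, contDiff_infty_iff_deriv.2 ⟨fun q => (d q).differentiableAt, ?_⟩, d,
    fun q => ⟨s0 q, s1 q, l q, (le_total q 8).elim (fun h => (l 8).trans (b h self_mem_Iic h))
      fun h => h.trans (l q)⟩, e⟩
  rwa [show deriv m = s from funext fun q => (d q).deriv]

theorem exists_GG : ∃ G G', GG G G' := by
  obtain ⟨m, s, c, d, b, e⟩ := rgg_max
  have m0 : ∀ q, 0 < m q := fun q => by linarith [(b q).2.2.2]
  have cf : ContDiff ℝ ∞ fun u : ℂ => u + (m (‖u‖ ^ 2))⁻¹ • Complex.conjCLE u :=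
    contDiff_id.add (((c.comp (contDiff_norm_sq ℝ)).inv fun _ => (m0 _).ne').smul
      Complex.conjCLE.contDiff)
  obtain ⟨g, cg, hg⟩ := near_id cf (c := 3 / 8) (by norm_num) fun u => by
    have d1 := ((d (‖u‖ ^ 2)).inv (m0 _).ne').comp_hasFDerivAt u
      (hasStrictFDerivAt_norm_sq u).hasFDerivAt
    have d2 := (hasFDerivAt_id u).add (d1.smul Complex.conjCLE.hasFDerivAt)
    rw [show fderiv ℝ (fun u : ℂ => u + (m (‖u‖ ^ 2))⁻¹ • Complex.conjCLE u) u = _ from d2.fderiv,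
      ContinuousLinearMap.one_def, add_sub_cancel_left]
    refine ContinuousLinearMap.opNorm_le_bound _ (by norm_num) fun v => ?_
    obtain ⟨b0, b1, b2, b3⟩ := b (‖u‖ ^ 2)
    have p := m0 (‖u‖ ^ 2)
    have i := abs_real_inner_le_norm u v
    have k1 : (m (‖u‖ ^ 2))⁻¹ ≤ 1 / 8 := by rw [one_div]; gcongr
    have k2 : s (‖u‖ ^ 2) / m (‖u‖ ^ 2) ^ 2 * ‖u‖ ^ 2 ≤ 1 / 8 := by
      rw [div_mul_eq_mul_div, div_le_iff₀ (by positivity)]
      nlinarith [sq_nonneg ‖u‖]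
    change ‖(m (‖u‖ ^ 2))⁻¹ • (starRingEnd ℂ) v +
      ((-s (‖u‖ ^ 2) / m (‖u‖ ^ 2) ^ 2) • (2 • inner ℝ u v)) • (starRingEnd ℂ) u‖ ≤ _
    refine (norm_add_le _ _).trans ?_
    rw [norm_smul, norm_smul, Complex.norm_conj, Complex.norm_conj, Real.norm_of_nonneg
      (inv_pos.2 p).le, smul_eq_mul, nsmul_eq_mul, norm_mul, norm_mul, neg_div, norm_neg,
      Real.norm_of_nonneg (by positivity), Real.norm_eq_abs (inner ℝ u v), Real.norm_natCast]
    calc _ ≤ 1 / 8 * ‖v‖ + s (‖u‖ ^ 2) / m (‖u‖ ^ 2) ^ 2 * ((2 : ℕ) * (‖u‖ * ‖v‖)) * ‖u‖ := by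
          gcongr
      _ = 1 / 8 * ‖v‖ + 2 * (s (‖u‖ ^ 2) / m (‖u‖ ^ 2) ^ 2 * ‖u‖ ^ 2) * ‖v‖ := by
          push_cast; ring
      _ ≤ 1 / 8 * ‖v‖ + 2 * (1 / 8) * ‖v‖ := by gcongr
      _ = _ := by ring
  refine ⟨fun u => (u + (m (‖u‖ ^ 2))⁻¹ • Complex.conjCLE u) / 2, fun y => g (y * 2),
    ⟨(cf.div_const 2).contDiffOn, (cg.comp (contDiff_id.mul contDiff_const)).contDiffOn,
      mapsTo_univ _ _, mapsTo_univ _ _, fun u _ => ?_, fun y _ => ?_⟩, fun u => ?_, fun u h => ?_⟩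
  · rw [div_mul_cancel₀ _ two_ne_zero]
    exact (hg u).1
  · rw [(hg (y * 2)).2, mul_div_cancel_right₀ _ two_ne_zero]
  · rw [norm_neg, map_neg, smul_neg]
    ring
  · have := Real.add_one_le_exp 2
    rw [e _ (by nlinarith), Complex.inv_def, Complex.conjCLE_apply, Complex.real_smul, mul_comm,
      Complex.normSq_eq_norm_sq]

end Pool.Agent.Lib.MP_b2e238_gt
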