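import Pool.Agent.Lib.MP_b2e238_gt.R.Defs
import Pool.Agent.Lib.MP_b2e238_gt.TL.Emb
import Pool.Agent.Lib.MP_b2e238_gt.B.J

/-! The outer map of the regluing. -/

open scoped ContDiff Topology
open Set Metric

noncomputable section

namespace Pool.Agent.Lib.MP_b2e238_gt

variable {V W : Type} [NormedAddCommGroup V] [NormedSpace ℝ V] [NormedAddCommGroup W]
  [NormedSpace ℝ W]

theorem rOut_glue {X X₁ X₂ : Set V} {A A₁ A₂ : Set W} {F₁ F₂ : V → W} {G₁ G₂ : W → V}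
    (h₁ : Dif X₁ A₁ F₁ G₁) (h₂ : Dif X₂ A₂ F₂ G₂) (o₁ : Opn X₁ X) (o₂ : Opn X₂ X)
    (p₁ : Opn A₁ A) (p₂ : Opn A₂ A) (c : X ⊆ X₁ ∪ X₂) (c' : A ⊆ A₁ ∪ A₂)
    (e : EqOn F₁ F₂ (X₁ ∩ X₂)) (m : ∀ b ∈ A₁ ∩ A₂, G₁ b ∈ X₂) :
    ∃ F G, Dif X A F G ∧ EqOn F F₁ X₁ ∧ EqOn F F₂ X₂ := by
  classical
  have q : EqOn (X₂.piecewise F₂ F₁) F₁ X₁ := fun a ha => by
    by_cases k : a ∈ X₂
    exacts [(piecewise_eq_of_mem _ _ _ k).trans (e ⟨ha, k⟩).symm, piecewise_eq_of_notMem _ _ _ k]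
  refine ⟨X₂.piecewise F₂ F₁, A₂.piecewise G₂ G₁, Dif.glue (fun i => cond i X₁ X₂)
    (fun i => cond i A₁ A₂) (Bool.rec o₂ o₁) (Bool.rec p₂ p₁) (union_eq_iUnion.le.trans' c)
    (union_eq_iUnion.le.trans' c') (Bool.rec
      (h₂.congr (piecewise_eqOn _ _ _) (piecewise_eqOn _ _ _))
      (h₁.congr q fun b hb => ?_)), q, piecewise_eqOn _ _ _⟩
  by_cases k : b ∈ A₂
  · rw [piecewise_eq_of_mem _ _ _ k, ← h₂.gf _ (m b ⟨hb, k⟩), ← e ⟨h₁.mG hb, m b ⟨hb, k⟩⟩,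
      h₁.fg b hb]
  · exact piecewise_eq_of_notMem _ _ _ k

theorem rOut_sub : S1 ×ˢ closedBall (0 : ℂ) 8 ⊆ ST :=
  prod_mono Subset.rfl (closedBall_subset_ball (by norm_num))

theorem rOut_Q {x : ℝ} (q : x < 1) : S1 ×ˢ Qc (x / 2) 2 ⊆ S1 ×ˢ closedBall (0 : ℂ) 8 :=
  prod_mono Subset.rfl fun w hw => mem_closedBall_zero_iff.2
    ((Complex.norm_le_abs_re_add_abs_im w).trans (by linarith [hw.1, hw.2]))

theorem rOut_side {Y N : Set V} {τ : ℂ × ℂ → V} {τ' : V → ℂ × ℂ} (d : Dif ST N τ τ') (o : Opn N Y)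
    {Q : Set (ℂ × ℂ)} (hQ : Q ⊆ S1 ×ˢ closedBall 0 8) :
    Opn (Y \ τ '' (S1 ×ˢ closedBall 0 8)) (Y \ τ '' Q) ∧
      Y \ τ '' Q ⊆ (N \ τ '' Q) ∪ (Y \ τ '' (S1 ×ˢ closedBall 0 8)) ∧
      (∀ a ∈ N, a ∉ τ '' (S1 ×ˢ closedBall 0 8) → ∃ u ∈ ST, 8 < ‖u.2‖ ∧ a = τ u) ∧
      ∀ u ∈ ST, 8 < ‖u.2‖ → τ u ∈ Y \ τ '' (S1 ×ˢ closedBall 0 8) := by
  have c : IsClosed (τ '' (S1 ×ˢ closedBall (0 : ℂ) 8)) :=
    (((isCompact_sphere _ _).prod (isCompact_closedBall _ _)).image_of_continuousOn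
      (d.cF.continuousOn.mono rOut_sub)).isClosed
  refine ⟨opn_iff.2 ⟨_, c.isOpen_compl, ?_⟩, fun a ha => ?_, fun a ha k => ?_, fun u hu k => ?_⟩
  · ext a
    exact ⟨fun h => ⟨⟨h.1, fun m => h.2 (image_mono hQ m)⟩, h.2⟩, fun h => ⟨h.1.1, h.2⟩⟩
  · by_cases k : a ∈ N
    · exact .inl ⟨k, ha.2⟩
    · exact .inr ⟨ha.1, fun ⟨u, hu, e⟩ => k (e ▸ d.mF (rOut_sub hu))⟩
  · refine ⟨τ' a, d.mG ha, not_le.1 fun m => k ⟨τ' a, ⟨(d.mG ha).1, ?_⟩, d.fg a ha⟩,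
      (d.fg a ha).symm⟩
    exact mem_closedBall_zero_iff.2 m
  · refine ⟨o.1 (d.mF hu), fun ⟨v, hv, e⟩ => k.not_ge ?_⟩
    rw [← d.injOn (rOut_sub hv) hu e]
    exact mem_closedBall_zero_iff.1 hv.2

theorem rOut_shear {x : ℝ} {k : ℝ → ℂ} {h : ℂ → ℂ} (f : PH x k h) (j : ℤ) :
    Dif (ST \ S1 ×ˢ Qc (x / 2) 2) (ST \ S1 ×ˢ Qc (x / 2) 2) (fun u => (u.1 * h u.2 ^ j, u.2))
      fun u => (u.1 * h u.2 ^ (-j), u.2) := by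
  have cl : IsClosed (Qc (x / 2) 2) :=
    (isClosed_le Complex.continuous_re.abs continuous_const).inter
      (isClosed_le Complex.continuous_im.abs continuous_const)
  have n : ∀ u ∈ ST \ S1 ×ˢ Qc (x / 2) 2, u.2 ∉ Qc (x / 2) 2 := fun u hu m => hu.2 ⟨hu.1.1, m⟩
  have z : ∀ u ∈ ST \ S1 ×ˢ Qc (x / 2) 2, h u.2 ≠ 0 := fun u hu e => by
    have := (f.nh _ (n u hu)).1
    rw [e, norm_zero] at this
    exact zero_ne_one this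
  have s : ∀ i : ℤ, ContDiffOn ℝ ∞ (fun u : ℂ × ℂ => (u.1 * h u.2 ^ i, u.2))
      (ST \ S1 ×ˢ Qc (x / 2) 2) := fun i u hu =>
    ((contDiffAt_fst.mul (zpow_at ((f.ch.contDiffAt (cl.isOpen_compl.mem_nhds (n u hu))).comp u
      contDiffAt_snd) (z u hu) i)).prodMk contDiffAt_snd).contDiffWithinAt
  have m : ∀ i : ℤ, MapsTo (fun u : ℂ × ℂ => (u.1 * h u.2 ^ i, u.2))
      (ST \ S1 ×ˢ Qc (x / 2) 2) (ST \ S1 ×ˢ Qc (x / 2) 2) := fun i u hu =>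
    ⟨⟨mem_S1.2 (by rw [norm_mul, norm_zpow, (f.nh _ (n u hu)).1, mem_S1.1 hu.1.1, one_zpow,
      mul_one]), hu.1.2⟩, fun e => n u hu e.2⟩
  refine ⟨s j, s (-j), m j, m (-j), fun u hu => ?_, fun u hu => ?_⟩
  · simp only [mul_assoc, ← zpow_add₀ (z u hu), add_neg_cancel, zpow_zero, mul_one]
  · simp only [mul_assoc, ← zpow_add₀ (z u hu), neg_add_cancel, zpow_zero, mul_one]

theorem rOut_star {u : ℂ × ℂ} (hu : u ∈ ST) : star u ∈ ST :=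
  ⟨mem_S1.2 ((norm_star _).trans (mem_S1.1 hu.1)),
    mem_ball_zero_iff.2 ((norm_star u.2).trans_lt (mem_ball_zero_iff.1 hu.2))⟩

variable [FiniteDimensional ℝ V]
variable {τ₁ τ₁' : ℂ × ℂ → ℂ × ℂ} {N₁ : Set (ℂ × ℂ)} {zf : ℂ × ℂ → ℝ} {G G' : ℂ → ℂ}

theorem exists_out {Y N : Set V} {c : V → V} {j : ℤ} {τ : ℂ × ℂ → V} {τ' J : V → ℂ × ℂ}
    {J' : ℂ × ℂ → V} (h₁ : TS τ₁ τ₁' N₁ zf) (y : TY Y c j τ₁ τ τ' N J J') {x : ℝ} (q : x < 1)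
    {k : ℝ → ℂ} {h : ℂ → ℂ} (f : PH x k h) : ∃ K K',
      Dif (Y \ τ '' (S1 ×ˢ Qc (x / 2) 2)) (Sq3 \ τ₁ '' (S1 ×ˢ Qc (x / 2) 2)) K K' ∧
      (∀ a ∈ Y \ τ '' (S1 ×ˢ Qc (x / 2) 2), K (c a) = c0 (K a)) ∧
      (∀ u ∈ ST, u.2 ∉ Qc (x / 2) 2 → K (τ u) = τ₁ (u.1 * h u.2 ^ j, u.2)) ∧
      ∀ a ∈ Y \ N, K a ∉ N₁ := by
  have hQ := rOut_Q q
  have hS := hQ.trans rOut_sub
  obtain ⟨a1, a2, a3, a4⟩ := rOut_side y.dif y.opn hQ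
  obtain ⟨b1, b2, b3, -⟩ := rOut_side h₁.dif h₁.opn hQ
  have r := rOut_shear f j
  have d := y.dif.diff hS
  have D := (d.symm.trans r).trans (h₁.dif.diff hS)
  obtain ⟨K, K', dK, e1, e2⟩ := rOut_glue D y.dJ (y.opn.diff _) a1 (h₁.opn.diff _) b1 a2 b2
    (fun a ha => by
      obtain ⟨u, hu, l, rfl⟩ := a3 a ha.1.1 ha.2.2
      simp only [Function.comp_apply, y.dif.gf u hu, y.ov u hu l, f.far _ l.le])
    fun b hb => by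
      obtain ⟨u, hu, l, rfl⟩ := b3 b hb.1.1 hb.2.2
      have m := r.mG ((h₁.dif.diff hS).mG hb.1)
      simp only [Function.comp_apply, h₁.dif.gf u hu] at m ⊢
      exact a4 _ m.1 l
  have e3 : ∀ u ∈ ST, u.2 ∉ Qc (x / 2) 2 → K (τ u) = τ₁ (u.1 * h u.2 ^ j, u.2) := fun u hu n => by
    rw [e1 (d.mF ⟨hu, fun m => n m.2⟩)]
    simp only [Function.comp_apply, y.dif.gf u hu]
  have out : ∀ a ∈ Y \ N, a ∈ Y \ τ '' (S1 ×ˢ closedBall 0 8) := fun a ha =>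
    ⟨ha.1, fun ⟨u, hu, e⟩ => ha.2 (e ▸ y.dif.mF (rOut_sub hu))⟩
  refine ⟨K, K', dK, fun a ha => ?_, e3, fun a ha m => ?_⟩
  · by_cases n : a ∈ N
    · have m := d.mG ⟨n, ha.2⟩
      rw [← y.dif.fg a n]
      generalize τ' a = u at m
      have n1 : u.2 ∉ Qc (x / 2) 2 := fun e => m.2 ⟨m.1.1, e⟩
      have n2 : (star u).2 ∉ Qc (x / 2) 2 := fun e => n1 (by simpa [Qc] using e)
      rw [← y.ec u m.1, e3 _ (rOut_star m.1) n2, e3 u m.1 n1, ← h₁.ec _ (r.mF m).1]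
      congr 1
      simp only [(f.nh _ n1).2, Prod.star_def, star_mul', star_zpow₀]
    · have m := out a ⟨ha.1, n⟩
      have m' : c a ∈ Y \ τ '' (S1 ×ˢ closedBall 0 8) := ⟨y.mc ha.1, fun ⟨u, hu, e⟩ => n (by
        rw [← y.cc a ha.1, ← e, ← y.ec u (rOut_sub hu)]
        exact y.dif.mF (rOut_star (rOut_sub hu)))⟩
      rw [e2 m', e2 m, y.eJ a m]
  · have m1 := a1.1 (out a ha)
    have m2 : K a ∈ N₁ \ τ₁ '' (S1 ×ˢ Qc (x / 2) 2) := ⟨m, (dK.mF m1).2⟩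
    have m3 := D.mG m2
    have := dK.injOn ((y.opn.diff _).1 m3) m1 ((e1 m3).trans (D.fg _ m2))
    exact ha.2 (this ▸ m3.1)

end Pool.Agent.Lib.MP_b2e238_gt
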