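import Pool.Agent.Lib.MP_b2e238_gt.R.Defs
import Pool.Agent.Lib.MP_b2e238_gt.U.Sec
import Pool.Agent.Lib.MP_b2e238_gt.Z.Slide
import Pool.Agent.Lib.MP_b2e238_gt.K.Sph
import Pool.Agent.Lib.MP_b2e238_gt.B.J

/-! The standard quotient of the three-sphere and its tubes. -/

open scoped ContDiff Topology
open Set Metric

noncomputable section

namespace Pool.Agent.Lib.MP_b2e238_gt

variable {V : Type} [NormedAddCommGroup V] [NormedSpace ℝ V]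

theorem rp0_tube {M : Set V} {ν : ℝ × ℂ → V} {f g : V → ℂ} (c : ContDiff ℝ ∞ ν) (m : ∀ u, ν u ∈ M)
    (per : ∀ t z, ν (t + 1, z) = ν (t, z)) (cf : ContDiff ℝ ∞ f)
    (cg : ∀ a, f a ≠ 0 → ContDiffAt ℝ ∞ g a)
    (e1 : ∀ u, ∃ ρ : ℝ, 0 < ρ ∧ f (ν u) = ρ * ex u.1) (e2 : ∀ u, g (ν u) = u.2)
    (sur : ∀ a ∈ M, ∀ t ρ : ℝ, 0 < ρ → f a = ρ * ex t → ν (t, g a) = a) (r : ℝ) : Tube M ν r := by
  refine ⟨per, fun s => ?_⟩
  obtain ⟨θ, d⟩ := (par_ex s).dif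
  obtain ⟨O, o, eO⟩ := opn_iff.1 (par_ex s).opn
  have o' : IsOpen ({a | f a ≠ 0} ∩ (fun a => ph (f a)) ⁻¹' O) :=
    ContinuousOn.isOpen_inter_preimage
      (fun a ha => (ph_at cf.contDiffAt ha).continuousAt.continuousWithinAt)
      (isOpen_ne_fun cf.continuous continuous_const) o
  have k1 : ∀ u, f (ν u) ≠ 0 ∧ ph (f (ν u)) = ex u.1 := fun u => by
    obtain ⟨ρ, p, e⟩ := e1 u
    rw [e]
    exact ⟨mul_ne_zero (by exact_mod_cast p.ne') (Complex.exp_ne_zero _),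
      ph_pos_mul p (norm_ex _)⟩
  have k2 : ∀ a ∈ M ∩ ({a | f a ≠ 0} ∩ (fun a => ph (f a)) ⁻¹' O),
      ph (f a) ∈ ex '' Ioo s (s + 1) := fun a ha => by
    rw [eO]; exact ⟨mem_sphere_zero_iff_norm.2 (ph_norm ha.2.1), ha.2.2⟩
  have D : Dif (Ioo s (s + 1) ×ˢ (univ : Set ℂ))
      (M ∩ ({a | f a ≠ 0} ∩ (fun a => ph (f a)) ⁻¹' O)) ν fun a => (θ (ph (f a)), g a) := by
    refine ⟨c.contDiffOn, ContDiffOn.prodMk (d.cG.comp
      (fun a ha => (ph_at cf.contDiffAt ha.2.1).contDiffWithinAt) k2)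
      fun a ha => (cg a ha.2.1).contDiffWithinAt, fun u hu => ⟨m u, (k1 u).1, ?_⟩,
      fun a ha => ⟨d.mG (k2 a ha), trivial⟩, fun u hu => ?_, fun a ha => ?_⟩
    · have : ex u.1 ∈ ex '' Ioo s (s + 1) := ⟨_, hu.1, rfl⟩
      rw [eO] at this
      rw [mem_preimage, (k1 u).2]
      exact this.2
    · rw [(k1 u).2, d.gf _ hu.1, e2]
    · refine sur a ha.1 _ ‖f a‖ (norm_pos_iff.2 ha.2.1) ?_
      rw [d.fg _ (k2 a ha), ph_mul_norm ha.2.1]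
  exact (D.to_par (isOpen_Ioo.prod isOpen_univ) (Opn.of_open o' M)).mono
    (isOpen_Ioo.prod isOpen_ball) (prod_mono Subset.rfl (subset_univ _))

theorem rp0_sq (w : ℂ) : w.re ^ 2 + ‖w.im‖ ^ 2 = ‖w‖ ^ 2 := by
  rw [Complex.sq_norm, Complex.normSq_apply, Real.norm_eq_abs, sq_abs]; ring

theorem rp0_mem (a : ℂ × ℂ) : p0 a ∈ Sph ℝ ↔ a ∈ Sq3 := by
  simp only [p0, Sph, Sq3, mem_ofPred_eq, norm_pow, ← rp0_sq a.1]
  constructor <;> intro h <;> linarith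

theorem rp0_nu0 (u : ℝ × ℂ) :
    nu0 u = (√(1 + ‖u.2‖ ^ 2))⁻¹ • (((ex u.1).re, u.2), (ex u.1).im) := by
  have := rp0_sq (ex u.1)
  rw [norm_ex] at this
  simp only [nu0, nrm]
  congr 3
  linarith

theorem rp0_beta (x : ℝ) : (√√x)⁻¹ ^ 2 = (√x)⁻¹ := by
  rw [inv_pow, Real.sq_sqrt (Real.sqrt_nonneg _)]

theorem p0_nu1 (t : ℝ) (z : ℂ) : p0 (nu1 (t, z)) = nu0 (t, z ^ 2) := by
  have e : ‖z ^ 2‖ ^ 2 = ‖z‖ ^ 4 := by rw [norm_pow]; ring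
  rw [rp0_nu0]
  simp only [p0, nu1, e, smul_pow, rp0_beta, Prod.smul_mk, Complex.smul_re, Complex.smul_im]

theorem rp0_mem0 (u : ℝ × ℂ) : nu0 u ∈ Sph ℝ := by
  have := rp0_sq (ex u.1)
  rw [norm_ex] at this
  have p : 0 < 1 + ‖u.2‖ ^ 2 := by positivity
  rw [rp0_nu0]
  simp only [Sph, mem_ofPred_eq, Prod.smul_mk, norm_smul, smul_eq_mul, norm_mul, mul_pow, norm_inv,
    inv_pow, Real.norm_eq_abs, sq_abs, Real.sq_sqrt p.le] at this ⊢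
  field_simp
  linarith

theorem rp0_mem1 (u : ℝ × ℂ) : nu1 u ∈ Sq3 := by
  rw [← rp0_mem, p0_nu1]; exact rp0_mem0 _

theorem nu1_tube (r : ℝ) : Tube Sq3 nu1 r := by
  have p : ∀ z : ℂ, 0 < 1 + ‖z‖ ^ 4 := fun z => by positivity
  have c : ContDiff ℝ ∞ fun u : ℝ × ℂ => √(1 + ‖u.2‖ ^ 4) := by
    refine ContDiff.sqrt (contDiff_const.add ?_) fun u => (p _).ne'
    simpa only [← pow_mul] using (contDiff_snd.norm_sq ℝ (f := fun u : ℝ × ℂ => u.2)).pow 2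
  have n : ∀ u : ℝ × ℂ, √(1 + ‖u.2‖ ^ 4) ≠ 0 := fun u => (Real.sqrt_pos.2 (p _)).ne'
  have n' : ∀ u : ℝ × ℂ, √√(1 + ‖u.2‖ ^ 4) ≠ 0 := fun u =>
    (Real.sqrt_pos.2 (Real.sqrt_pos.2 (p _))).ne'
  refine rp0_tube (ν := nu1) (f := Prod.fst) (g := fun a => (√‖a.1‖)⁻¹ • a.2)
    (((c.inv n).smul (contDiff_ex.comp contDiff_fst)).prodMk
      (((c.sqrt n).inv n').smul contDiff_snd)) rp0_mem1 (fun t z => by simp only [nu1, ex_one])
    contDiff_fst (fun a h => ?_) (fun u => ⟨_, inv_pos.2 (Real.sqrt_pos.2 (p u.2)), rfl⟩)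
    (fun u => ?_) (fun a h t ρ q e => ?_) r
  · exact (((contDiffAt_fst.norm ℝ h).sqrt (norm_ne_zero_iff.2 h)).inv
      (Real.sqrt_pos.2 (norm_pos_iff.2 h)).ne').smul contDiffAt_snd
  · simp only [nu1, norm_smul, norm_ex, mul_one, norm_inv, Real.norm_of_nonneg (Real.sqrt_nonneg _),
      Real.sqrt_inv, inv_inv, smul_smul, mul_inv_cancel₀ (n' u), one_smul]
  · have a1 : ‖a.1‖ = ρ := by
      rw [e, norm_mul, norm_ex, mul_one, Complex.norm_real, Real.norm_of_nonneg q.le]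
    have h' : ρ ^ 2 + ‖a.2‖ ^ 4 = 1 := a1 ▸ h
    have s : 0 < √ρ := Real.sqrt_pos.2 q
    have k : 1 + ‖(√ρ)⁻¹ • a.2‖ ^ 4 = ρ⁻¹ ^ 2 := by
      have : √ρ ^ 4 = ρ ^ 2 := by rw [show 4 = 2 * 2 from rfl, pow_mul, Real.sq_sqrt q.le]
      rw [norm_smul, norm_inv, Real.norm_of_nonneg s.le, mul_pow, inv_pow, this]
      field_simp
      linarith
    simp only [nu1, a1, k, Real.sqrt_sq (inv_pos.2 q).le, Real.sqrt_inv, inv_inv, smul_smul,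
      mul_inv_cancel₀ s.ne', one_smul]
    exact Prod.ext e.symm rfl

/-- The first complex coordinate of the sphere below. -/
def rp0F (y : (ℝ × ℂ) × ℝ) : ℂ := y.1.1 + y.2 * .I

theorem rp0F_smooth : ContDiff ℝ ∞ rp0F :=
  (Complex.ofRealCLM.contDiff.comp (contDiff_fst.comp contDiff_fst)).add
    ((Complex.ofRealCLM.contDiff.comp contDiff_snd).mul contDiff_const)

theorem rp0F_re (y : (ℝ × ℂ) × ℝ) : (rp0F y).re = y.1.1 := by simp [rp0F]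

theorem rp0F_im (y : (ℝ × ℂ) × ℝ) : (rp0F y).im = y.2 := by simp [rp0F]

theorem rp0F_p0 (a : ℂ × ℂ) : rp0F (p0 a) = a.1 := Complex.re_add_im _

theorem nu0_tube (r : ℝ) : Tube (Sph ℝ) nu0 r := by
  have p : ∀ z : ℂ, 0 < 1 + ‖z‖ ^ 2 := fun z => by positivity
  have n : ∀ u : ℝ × ℂ, √(1 + ‖u.2‖ ^ 2) ≠ 0 := fun u => (Real.sqrt_pos.2 (p _)).ne'
  have c : ContDiff ℝ ∞ nu0 := by
    rw [funext rp0_nu0]
    have x : ContDiff ℝ ∞ fun u : ℝ × ℂ => ex u.1 := contDiff_ex.comp contDiff_fst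
    exact (((contDiff_const.add (contDiff_snd.norm_sq ℝ)).sqrt fun u => (p _).ne').inv n).smul
      (((Complex.reCLM.contDiff.comp x).prodMk contDiff_snd).prodMk (Complex.imCLM.contDiff.comp x))
  have e : ∀ u : ℝ × ℂ, rp0F (nu0 u) = ((√(1 + ‖u.2‖ ^ 2))⁻¹ : ℝ) * ex u.1 := fun u => by
    rw [rp0_nu0]
    apply Complex.ext
    · rw [rp0F_re, Complex.re_ofReal_mul]; rfl
    · rw [rp0F_im, Complex.im_ofReal_mul]; rfl
  refine rp0_tube (f := rp0F) (g := fun y => ‖rp0F y‖⁻¹ • y.1.2) c rp0_mem0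
    (fun t z => by simp only [nu0, ex_one]) rp0F_smooth (fun a h => ?_)
    (fun u => ⟨_, inv_pos.2 (Real.sqrt_pos.2 (p u.2)), e u⟩) (fun u => ?_) (fun a h t ρ q e => ?_) r
  · exact ((rp0F_smooth.contDiffAt.norm ℝ h).inv (norm_ne_zero_iff.2 h)).smul
      (contDiffAt_snd.comp _ contDiffAt_fst)
  · rw [e, norm_mul, norm_ex, mul_one, Complex.norm_real, norm_inv,
      Real.norm_of_nonneg (Real.sqrt_nonneg _), inv_inv, rp0_nu0]
    simp only [Prod.smul_mk, smul_smul, mul_inv_cancel₀ (n u), one_smul]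
  · have a1 : ‖rp0F a‖ = ρ := by
      rw [e, norm_mul, norm_ex, mul_one, Complex.norm_real, Real.norm_of_nonneg q.le]
    have h' : ρ ^ 2 + ‖a.1.2‖ ^ 2 = 1 := by
      have h0 : a.1.1 ^ 2 + ‖a.1.2‖ ^ 2 + ‖a.2‖ ^ 2 = 1 := h
      rw [← a1, ← rp0_sq, rp0F_re, rp0F_im]
      linarith
    have k : 1 + ‖ρ⁻¹ • a.1.2‖ ^ 2 = ρ⁻¹ ^ 2 := by
      rw [norm_smul, norm_inv, Real.norm_of_nonneg q.le, mul_pow]
      field_simp
      linarith
    rw [rp0_nu0]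
    simp only [a1, k, Real.sqrt_sq (inv_pos.2 q).le, inv_inv, Prod.smul_mk, smul_smul,
      mul_inv_cancel₀ q.ne', one_smul, smul_eq_mul]
    rw [← Complex.re_ofReal_mul, ← Complex.im_ofReal_mul, ← e, rp0F_re, rp0F_im]

theorem c0_nu1 (t : ℝ) (z : ℂ) : c0 (nu1 (t, z)) = nu1 (t, -z) := by
  simp only [c0, nu1, norm_neg, smul_neg]

theorem nu1_snd (t : ℝ) (z : ℂ) : (nu1 (t, z)).2 = 0 ↔ z = 0 := by
  have p : 0 < √√(1 + ‖z‖ ^ 4) := by positivity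
  simp only [nu1, smul_eq_zero, inv_eq_zero, p.ne', false_or]

theorem nu1_real {a : ℂ × ℂ} (h : a ∈ Sq3) (k : a.2 = 0) : ∃ t, a = nu1 (t, 0) := by
  have h' : ‖a.1‖ ^ 2 + ‖a.2‖ ^ 4 = 1 := h
  have n : ‖a.1‖ = 1 := by
    rw [k, norm_zero] at h'
    exact (pow_eq_one_iff_of_nonneg (norm_nonneg _) two_ne_zero).1 (by linarith)
  exact ⟨a.1.arg / (2 * Real.pi), Prod.ext (by simp [nu1, ex_arg n]) (by simp [nu1, k])⟩

theorem c0_fix (a : ℂ × ℂ) : c0 a = a ↔ a.2 = 0 := by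
  simp [c0, Prod.ext_iff, neg_eq_iff_add_eq_zero]

theorem rp0_c0 (a : ℂ × ℂ) : p0 (c0 a) = p0 a := by simp [p0, c0]

theorem rp0_fib {a a' : ℂ × ℂ} : p0 a' = p0 a ↔ a' = a ∨ a' = c0 a := by
  refine ⟨fun h => ?_, by rintro (rfl | rfl); exacts [rfl, rp0_c0 _]⟩
  have h1 : a'.1 = a.1 := by rw [← rp0F_p0, h, rp0F_p0]
  have h2 : a'.2 ^ 2 = a.2 ^ 2 := congrArg (fun y => y.1.2) h
  exact (sq_eq_sq_iff_eq_or_eq_neg.1 h2).imp (Prod.ext h1) (Prod.ext h1)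

theorem rp0_c0_mem {a : ℂ × ℂ} (h : a ∈ Sq3) : c0 a ∈ Sq3 := by
  rwa [← rp0_mem, rp0_c0, rp0_mem]

theorem rp0_F {a : ℂ × ℂ} (h : a ∈ Sq3) : p0 a ∈ (range fun t => nu0 (t, 0)) ↔ a.2 = 0 := by
  constructor
  · rintro ⟨t, e⟩
    have : a.2 ^ 2 = 0 := by
      have := congrArg (fun y => y.1.2) e
      simpa [rp0_nu0, p0] using this.symm
    exact pow_eq_zero_iff two_ne_zero |>.1 this
  · intro k
    obtain ⟨t, rfl⟩ := nu1_real h k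
    exact ⟨t, by simp [p0_nu1]⟩

theorem rp0_surj (b : (ℝ × ℂ) × ℝ) : ∃ a, p0 a = b := by
  obtain ⟨z, e⟩ := IsAlgClosed.exists_pow_nat_eq b.1.2 two_pos
  exact ⟨(rp0F b, z), by simp only [p0, rp0F_re, rp0F_im, e]⟩

theorem rp0_set {a : ℂ × ℂ} (h : a ∈ Sq3) : Sq3 ∩ p0 ⁻¹' {p0 a} = {a, c0 a} := by
  ext x
  simp only [mem_inter_iff, mem_preimage, mem_singleton_iff, mem_insert_iff, rp0_fib]
  refine ⟨fun k => k.2, fun k => ⟨?_, k⟩⟩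
  rcases k with rfl | rfl
  exacts [h, rp0_c0_mem h]

theorem rp0_smooth : ContDiff ℝ ∞ p0 :=
  ((Complex.reCLM.contDiff.comp contDiff_fst).prodMk (contDiff_snd.pow 2)).prodMk
    (Complex.imCLM.contDiff.comp contDiff_fst)

theorem rp0_off {a : ℂ × ℂ} (h : a ∈ Sq3) (n : a.2 ≠ 0) :
    BrAt ℝ Sq3 (Sph ℝ) (p0 ⁻¹' range fun t => nu0 (t, 0)) p0 a := by
  obtain ⟨O, s, o, d, m, s0, hs⟩ := usec_root (P := ℂ) (k := 2) (u := a) (.inr rfl) fun k => n k.2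
  obtain ⟨ψ, U, q, u, hu, eu⟩ :=
    (sph_Sph (P := ℝ × ℂ) (Z := ℝ) (by simp)).2.1 _ ((rp0_mem a).2 h)
  have b : BrAt ℝ (Sph ℝ) (Sph ℝ) ∅ id (p0 a) :=
    ⟨1, ψ, ψ, U, U, .inl rfl, q, q, ⟨u, hu, eu⟩, fun v hv => by simpa using hv⟩
  let L : (ℝ × ℂ) × ℝ → ℂ × ℂ := fun y => (rp0F y, y.1.2)
  have cL : ContDiff ℝ ∞ L := rp0F_smooth.prodMk (contDiff_snd.comp contDiff_fst)
  have eL : ∀ x, L (p0 x) = (x.1, x.2 ^ 2) := fun x => Prod.ext (rp0F_p0 x) rfl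
  have e1 : ∀ y, L y ∈ O → p0 (s (L y)) = y := fun y hy => by
    have := (hs _ hy).1
    simp only [p0, show (s (L y)).1 = rp0F y from congrArg Prod.fst this,
      show (s (L y)).2 ^ 2 = y.1.2 from congrArg Prod.snd this, rp0F_re, rp0F_im]
  have n1 : ∀ y, L y ∈ O → (s (L y)).2 ≠ 0 := fun y hy k => (hs _ hy).2 ⟨rfl, k⟩
  have cp : Continuous fun x => L (p0 x) := (cL.comp rp0_smooth).continuous
  have o1 : IsOpen ((fun x => L (p0 x)) ⁻¹' O ∩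
      (fun x : ℂ × ℂ => (s (L (p0 x))).2 + x.2) ⁻¹' {0}ᶜ) :=
    ContinuousOn.isOpen_inter_preimage
      ((d.continuousOn.comp cp.continuousOn fun _ k => k).snd.add continuousOn_snd)
      (o.preimage cp) isOpen_compl_singleton
  have D : Dif (Sph ℝ ∩ L ⁻¹' O) (Sq3 ∩ ((fun x => L (p0 x)) ⁻¹' O ∩
      (fun x : ℂ × ℂ => (s (L (p0 x))).2 + x.2) ⁻¹' {0}ᶜ)) (s ∘ L) p0 := by
    refine ⟨d.comp cL.contDiffOn fun _ k => k.2, rp0_smooth.contDiffOn, fun y hy => ?_,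
      fun x hx => ⟨(rp0_mem x).2 hx.1, hx.2.1⟩, fun y hy => e1 y hy.2, fun x hx => ?_⟩
    · simp only [mem_inter_iff, mem_preimage, Function.comp_apply, ← rp0_mem, e1 y hy.2,
        mem_compl_iff, mem_singleton_iff, add_self_eq_zero]
      exact ⟨hy.1, hy.2, n1 y hy.2⟩
    · rcases rp0_fib.1 (e1 _ hx.2.1) with k | k
      · exact k
      · exact absurd (by simp [k, c0]) hx.2.2
  have oB := Opn.of_open (o.preimage cL.continuous) (Sph ℝ)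
  have := b.map (π' := p0) (Z' := p0 ⁻¹' range fun t => nu0 (t, 0)) D oB (Opn.of_open o1 Sq3)
    (Dif.refl _) oB oB ⟨(rp0_mem a).2 h, by rwa [mem_preimage, eL]⟩ (mapsTo_id _) fun y hy =>
      ⟨e1 y hy.2, iff_of_false (fun k => n1 y hy.2 ((rp0_F (D.mF hy).1).1 k)) id⟩
  rwa [Function.comp_apply, eL, s0] at this

theorem p0_br : Br ℝ Sq3 (Sph ℝ) (range fun t => nu0 (t, 0)) p0 := by
  refine br_of_brAt (fun b hb => ?_) (fun b hb => ?_) fun a h => ?_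
  · obtain ⟨a, rfl⟩ := rp0_surj b
    have h := (rp0_mem a).1 hb.1
    rw [rp0_set h]
    exact ncard_pair fun k => hb.2 ((rp0_F h).2 ((c0_fix a).1 k.symm))
  · obtain ⟨a, rfl⟩ := rp0_surj b
    have h : a ∈ Sq3 := by
      obtain ⟨t, e⟩ := hb
      rw [← rp0_mem, ← e]; exact rp0_mem0 _
    rw [rp0_set h, (c0_fix a).2 ((rp0_F h).1 hb), pair_eq_singleton, ncard_singleton]
  · by_cases n : a.2 = 0
    · obtain ⟨t, rfl⟩ := nu1_real h n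
      refine ⟨2, nu1, nu0, _, _, .inr rfl, (nu1_tube 1).2 (t - 1 / 2), (nu0_tube 1).2 (t - 1 / 2),
        ⟨_, slide_mem t (by simp), rfl⟩, fun u hu => ⟨⟨hu.1, ?_⟩, p0_nu1 _ _, ?_⟩⟩
      · have := mem_ball_zero_iff.1 hu.2
        rw [mem_ball_zero_iff, norm_pow]
        exact pow_lt_one₀ (norm_nonneg _) this two_ne_zero
      · rw [mem_preimage, rp0_F (rp0_mem1 u), nu1_snd u.1 u.2]
        simp
    · exact rp0_off h n

theorem p0_dk : Dk Sq3 (range fun t => nu0 (t, 0)) p0 c0 :=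
  ⟨(contDiff_fst.prodMk contDiff_snd.neg).contDiffOn, fun _ => rp0_c0_mem, fun a _ => rp0_c0 a,
    fun a _ => by simp [c0], fun a h => by rw [c0_fix, rp0_F h], fun _ _ _ _ => rp0_fib.1⟩

theorem sg0_dif : Dif Sq3 Sq3 sg0 sg0 := by
  have c : ContDiffOn ℝ ∞ sg0 Sq3 :=
    ((Complex.conjCLE.contDiff.comp contDiff_fst).neg.prodMk
      (Complex.conjCLE.contDiff.comp contDiff_snd).neg).contDiffOn
  have m : MapsTo sg0 Sq3 Sq3 := fun a h => by simpa [sg0, Sq3] using h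
  have e : ∀ a ∈ Sq3, sg0 (sg0 a) = a := fun a _ => by simp [sg0]
  exact ⟨c, c, m, m, e, e⟩

theorem sb0_dif : Dif (Sph ℝ) (Sph ℝ) sb0 sb0 := by
  have c : ContDiffOn ℝ ∞ sb0 (Sph ℝ) :=
    (((contDiff_fst.comp contDiff_fst).neg.prodMk (Complex.conjCLE.contDiff.comp
      (contDiff_snd.comp contDiff_fst))).prodMk contDiff_snd).contDiffOn
  have m : MapsTo sb0 (Sph ℝ) (Sph ℝ) := fun a h => by simpa [sb0, Sph] using h
  have e : ∀ a ∈ Sph ℝ, sb0 (sb0 a) = a := fun a _ => by simp [sb0]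
  exact ⟨c, c, m, m, e, e⟩

theorem p0_sg0 (a : ℂ × ℂ) : p0 (sg0 a) = sb0 (p0 a) := by simp [p0, sg0, sb0]

theorem sg0_c0 (a : ℂ × ℂ) : sg0 (c0 a) = c0 (sg0 a) := by simp [sg0, c0]

theorem isCompact_Sq3 : IsCompact Sq3 := by
  refine (isCompact_closedBall (0 : ℂ × ℂ) 1).of_isClosed_subset
    (isClosed_eq (by fun_prop) continuous_const) fun a h => ?_
  have h' : ‖a.1‖ ^ 2 + ‖a.2‖ ^ 4 = 1 := h
  rw [mem_closedBall_zero_iff, Prod.norm_def, max_le_iff]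
  exact ⟨(pow_le_one_iff_of_nonneg (norm_nonneg _) two_ne_zero).1
      (by linarith [pow_nonneg (norm_nonneg a.2) 4]),
    (pow_le_one_iff_of_nonneg (norm_nonneg _) four_ne_zero).1 (by linarith [sq_nonneg ‖a.1‖])⟩

end Pool.Agent.Lib.MP_b2e238_gt
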