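import Pool.Agent.Lib.MP_b2e238_gt.R.Defs
import Pool.Agent.Lib.MP_b2e238_gt.B.J

/-! The half turn and the phase function off a rectangle. -/

open scoped ContDiff Topology
open Set Metric

noncomputable section

namespace Pool.Agent.Lib.MP_b2e238_gt

/-- A smooth odd sign function. -/
def rphO (c a : ℝ) : ℝ := Real.smoothTransition (a / c) - Real.smoothTransition (-a / c)

theorem rph_sm (c : ℝ) : ContDiff ℝ ∞ (rphO c) :=
  (Real.smoothTransition.contDiff.comp (contDiff_id.div_const c)).sub
    (Real.smoothTransition.contDiff.comp (contDiff_neg.div_const c))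

theorem rph_odd (c a : ℝ) : rphO c (-a) = -rphO c a := by simp [rphO]

theorem rph_pos {c a : ℝ} (hc : 0 < c) (h : 0 < a) : 0 < rphO c a ∧ rphO c a ≤ 1 := by
  rw [rphO, Real.smoothTransition.zero_of_nonpos (x := -a / c)
    (div_nonpos_of_nonpos_of_nonneg (by linarith) hc.le), sub_zero]
  exact ⟨Real.smoothTransition.pos_of_pos (div_pos h hc), Real.smoothTransition.le_one _⟩

theorem rph_one {c a : ℝ} (hc : 0 < c) (h : c < a) : rphO c a = 1 := by
  rw [rphO, Real.smoothTransition.zero_of_nonpos (x := -a / c)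
    (div_nonpos_of_nonpos_of_nonneg (by linarith) hc.le), sub_zero,
    Real.smoothTransition.one_of_one_le ((one_le_div hc).2 h.le)]

theorem rph_neg {c a : ℝ} (hc : 0 < c) (h : a < -c) : rphO c a = -1 := by
  rw [← neg_neg a, rph_odd, rph_one hc (by linarith)]

theorem rph_sin {c a : ℝ} (hc : 0 < c) (h : a ≠ 0) :
    0 < Real.sin (Real.pi / 2 * rphO c a) * a := by
  have key : ∀ b, 0 < b → 0 < Real.sin (Real.pi / 2 * rphO c b) * b := fun b hb => by
    obtain ⟨h1, h2⟩ := rph_pos hc hb
    have := Real.pi_pos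
    exact mul_pos (Real.sin_pos_of_pos_of_lt_pi (by positivity) (by nlinarith)) hb
  rcases lt_or_gt_of_ne h with k | k
  · have := key (-a) (by linarith)
    rwa [rph_odd, mul_neg (Real.pi / 2), Real.sin_neg, neg_mul_neg] at this
  · exact key a k

theorem rph_star (z : ℂ) : ph (star z) = star (ph z) := by simp [ph]

theorem rph_unit {z : ℂ} (h : ‖z‖ = 1) : ph z = z := by simp [ph, h]

theorem exists_PH {x : ℝ} (p : 0 < x) (q : x < 1) : ∃ k h, PH x k h := by
  have x2 : 0 < x / 2 := half_pos p
  let s : ℝ → ℝ := fun a => Real.sin (Real.pi / 2 * rphO (x / 2) a)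
  let c : ℝ → ℝ := fun a => Real.cos (Real.pi / 2 * rphO (x / 2) a)
  let χ : ℂ → ℝ := fun w => Real.smoothTransition ((w.re ^ 2 + w.im ^ 2 - 25) / 39)
  let A : ℂ → ℝ := fun w => (1 - χ w) * s w.re + χ w * w.re
  let B : ℂ → ℝ := fun w => (1 - χ w) * (c w.re * rphO 2 w.im) + χ w * w.im
  let k : ℝ → ℂ := fun a => s a + c a * .I
  let H : ℂ → ℂ := fun w => A w + B w * .I
  have cs : ContDiff ℝ ∞ s := (contDiff_const.mul (rph_sm _)).sin
  have cc : ContDiff ℝ ∞ c := (contDiff_const.mul (rph_sm _)).cos
  have re : ContDiff ℝ ∞ Complex.re := Complex.reCLM.contDiff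
  have im : ContDiff ℝ ∞ Complex.im := Complex.imCLM.contDiff
  have of : ContDiff ℝ ∞ Complex.ofReal := Complex.ofRealCLM.contDiff
  have cχ : ContDiff ℝ ∞ χ := Real.smoothTransition.contDiff.comp
    ((((re.pow 2).add (im.pow 2)).sub contDiff_const).div_const _)
  have cA : ContDiff ℝ ∞ A := ((contDiff_const.sub cχ).mul (cs.comp re)).add (cχ.mul re)
  have cB : ContDiff ℝ ∞ B :=
    ((contDiff_const.sub cχ).mul ((cc.comp re).mul ((rph_sm 2).comp im))).add (cχ.mul im)
  have cH : ContDiff ℝ ∞ H := (of.comp cA).add ((of.comp cB).mul contDiff_const)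
  have nk : ∀ a, ‖k a‖ = 1 := fun a => by
    rw [Complex.norm_add_mul_I, Real.sin_sq_add_cos_sq, Real.sqrt_one]
  have cvx : ∀ (w : ℂ) (u v : ℝ), 0 < u → 0 < v → 0 < (1 - χ w) * u + χ w * v := fun w u v hu hv => by
    have h0 : 0 ≤ χ w := Real.smoothTransition.nonneg _
    have h1 : χ w ≤ 1 := Real.smoothTransition.le_one _
    rcases le_total u v with h | h <;> nlinarith
  have ne : ∀ w ∉ Qc (x / 2) 2, H w ≠ 0 := fun w hw z => by
    have a1 : A w = 0 := by simpa [H] using congrArg Complex.re z
    have a2 : B w = 0 := by simpa [H] using congrArg Complex.im z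
    by_cases r : w.re = 0
    · have b : 2 < |w.im| := by
        by_contra n
        exact hw ⟨by rw [r, abs_zero]; exact x2.le, not_lt.1 n⟩
      have c1 : c w.re = 1 := by simp [c, r, rphO]
      have b' : 0 < rphO 2 w.im * w.im ∧ 0 < w.im * w.im := by
        rcases lt_abs.1 b with h | h
        · rw [rph_one two_pos h]; constructor <;> nlinarith
        · rw [rph_neg two_pos (by linarith)]; constructor <;> nlinarith
      have := cvx w _ _ b'.1 b'.2
      have e : B w * w.im = (1 - χ w) * (rphO 2 w.im * w.im) + χ w * (w.im * w.im) := by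
        simp only [B, c1]; ring
      rw [← e, a2, zero_mul] at this
      exact lt_irrefl _ this
    · have := cvx w _ _ (rph_sin x2 r) (mul_self_pos.2 r)
      have e : A w * w.re = (1 - χ w) * (s w.re * w.re) + χ w * (w.re * w.re) := by
        simp only [A]; ring
      rw [← e, a1, zero_mul] at this
      exact lt_irrefl _ this
  have kp : ∀ a, x / 2 < a → s a = 1 ∧ c a = 0 := fun a h => by simp [s, c, rph_one x2 h]
  have kn : ∀ a, a < -(x / 2) → s a = -1 ∧ c a = 0 := fun a h => by simp [s, c, rph_neg x2 h]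
  refine ⟨k, fun w => ph (H w), (of.comp cs).add ((of.comp cc).mul contDiff_const), nk,
    fun a h => by simp [k, kp a h], fun a h => by simp [k, kn a h],
    fun w hw => (ph_at cH.contDiffAt (ne w hw)).contDiffWithinAt,
    fun w hw => ⟨ph_norm (ne w hw), ?_⟩, fun w hw => ?_, fun w hw => ?_⟩
  · rw [← rph_star]
    refine congrArg ph (Complex.ext ?_ ?_)
    · simp [H, A, χ]
    · simp [H, B, χ, rph_odd]; ring
  · have e : χ w = 1 := Real.smoothTransition.one_of_one_le (by
      have := Complex.sq_norm w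
      rw [Complex.normSq_apply] at this
      rw [le_div_iff₀ (by norm_num)]
      nlinarith)
    exact congrArg ph (Complex.ext (by simp [H, A, e]) (by simp [H, B, e]))
  · have e : χ w = 0 := Real.smoothTransition.zero_of_nonpos (by
      have h1 := abs_lt.1 hw.1
      have h2 := abs_lt.1 hw.2
      refine div_nonpos_of_nonpos_of_nonneg ?_ (by norm_num)
      nlinarith)
    refine ⟨fun h => ?_, fun h => ?_, fun h => ?_⟩
    · rw [← rph_unit (nk w.re)]
      exact congrArg ph (by simp [H, A, B, k, e, rph_one two_pos h])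
    · rw [← rph_unit (nk w.re), ← rph_star]
      exact congrArg ph (by simp [H, A, B, k, e, rph_neg two_pos h])
    · have c0 : c w.re = 0 := (lt_abs.1 h).elim (fun h => (kp _ h).2) fun h =>
        (kn _ (by linarith)).2
      rw [← rph_unit (nk w.re)]
      exact congrArg ph (by simp [H, A, B, k, e, c0])

end Pool.Agent.Lib.MP_b2e238_gt
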