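import Pool.Agent.Lib.MP_b2e238_gt.R.Pc
import Pool.Agent.Lib.MP_b2e238_gt.R.Arc
import Pool.Agent.Lib.MP_b2e238_gt.R.At
import Pool.Agent.Lib.MP_b2e238_gt.R.Des
import Pool.Agent.Lib.MP_b2e238_gt.R.Ph
import Pool.Agent.Lib.MP_b2e238_gt.R.Out
import Pool.Agent.Lib.MP_b2e238_gt.R.GG
import Pool.Agent.Lib.MP_b2e238_gt.R.ConC

/-! The quotient of a Brieskorn sphere by conjugation and its tubes. -/

open scoped ContDiff Topology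
open Set Metric

noncomputable section

namespace Pool.Agent.Lib.MP_b2e238_gt

variable {V : Type} [NormedAddCommGroup V] [NormedSpace ℝ V] [FiniteDimensional ℝ V]

theorem rpt_ad {Y N : Set V} {c : V → V} {j : ℤ} {τ₁ τ₁' : ℂ × ℂ → ℂ × ℂ} {N₁ : Set (ℂ × ℂ)}
    {zf : ℂ × ℂ → ℝ} {τ : ℂ × ℂ → V} {τ' J : V → ℂ × ℂ} {J' : ℂ × ℂ → V} (h : TS τ₁ τ₁' N₁ zf)
    (ad : Ad τ₁) (y : TY Y c j τ₁ τ τ' N J J') : ∃ (p : V → (ℝ × ℂ) × ℝ) (ν' : ℝ × ℂ → V)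
      (ν : ℝ × ℂ → (ℝ × ℂ) × ℝ), Br ℝ Y (Sph ℝ) (range fun t => ν (t, 0)) p ∧
      (∀ a ∈ Y, p (c a) = p a) ∧ Tube Y ν' 2 ∧ Tube (Sph ℝ) ν 4 ∧
      ∀ t z, ‖z‖ < 2 → p (ν' (t, z)) = ν (t, z ^ 2) := by
  classical
  obtain ⟨G, G', g⟩ := exists_GG
  obtain ⟨x, x0, x1, e, e', de, ee⟩ := exists_des h ad g
  obtain ⟨k, φ, f⟩ := exists_PH x0 x1
  obtain ⟨K, K', dK, eK, oK, nK⟩ := exists_out h y x1 f
  obtain ⟨s, b, ds, db, ps, cs, ts, us⟩ := arc_pow h j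
  have oR := arc_oR x1
  have QR : S1 ×ˢ Qc (x / 2) 2 ⊆ S1 ×ˢ Rc x 3 := prod_mono subset_rfl (arc_Qc x0)
  have QT := QR.trans oR.1
  have sR : MapsTo star (S1 ×ˢ Rc x 3) (S1 ×ˢ Rc x 3) := fun u q =>
    arc_star (fun w l => by simpa [Rc] using l) q
  have sQ : MapsTo star (S1 ×ˢ Qc (x / 2) 2) (S1 ×ˢ Qc (x / 2) 2) := fun u q =>
    arc_star (fun w l => by simpa [Qc] using l) q
  have oE : Opn (Y \ τ '' (S1 ×ˢ Qc (x / 2) 2)) Y := opn_diff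
    ((arc_cpt _ _).image_of_continuousOn (y.dif.cF.continuousOn.mono QT)).isClosed
  have oE₁ : Opn (Sq3 \ τ₁ '' (S1 ×ˢ Qc (x / 2) 2)) Sq3 := opn_diff
    ((arc_cpt _ _).image_of_continuousOn (h.dif.cF.continuousOn.mono QT)).isClosed
  have oN := (y.dif.opn oR).trans y.opn
  have oM := (h.dif.opn oR).trans h.opn
  have dτ := (y.dif.mono oR.1).symm.trans (h.dif.mono oR.1)
  have dr := arc_rdif f j (Real.exp 3) (Ioo (-x) x)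
  have dΘ := (de.symm.trans dr).trans de
  have sh (u : ℂ × ℂ) (D : Set ℂ) (hu : u ∈ S1 ×ˢ D) (n : u.2 ∉ Qc (x / 2) 2) :
      (u.1 * φ u.2 ^ j, u.2) ∈ S1 ×ˢ D :=
    ⟨mem_S1.2 (by rw [norm_mul, norm_zpow, (f.nh _ n).1, mem_S1.1 hu.1]; simp), hu.2⟩
  have nQ (u : ℂ × ℂ) (hu : u ∈ ST) : τ u ∉ τ '' (S1 ×ˢ Qc (x / 2) 2) ↔ u.2 ∉ Qc (x / 2) 2 :=
    ⟨fun n q => n ⟨u, ⟨hu.1, q⟩, rfl⟩, fun n ⟨v, hv, l⟩ => n (y.dif.injOn (QT hv) hu l ▸ hv.2)⟩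
  have e'e (u : ℂ × ℂ) (hu : u ∈ S1 ×ˢ Rc x 3) : e' (p0 (τ₁ u)) = qm G' u := by
    rw [← ee u hu]
    refine de.gf _ ⟨mem_ball_zero_iff.2 ((qm_mem g hu.1).2 hu.2.2), abs_lt.1 hu.2.1⟩
  have ov (a) (ha : a ∈ Y \ τ '' (S1 ×ˢ Qc (x / 2) 2)) :
      a ∈ τ '' (S1 ×ˢ Rc x 3) ↔ K a ∈ τ₁ '' (S1 ×ˢ Rc x 3) := by
    by_cases n : a ∈ N
    · obtain ⟨u, hu, rfl⟩ := y.dif.image.symm ▸ n
      have n' := (nQ u hu).1 ha.2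
      rw [oK u hu n']
      exact ⟨fun ⟨v, hv, l⟩ => ⟨_, sh u _ (y.dif.injOn (oR.1 hv) hu l ▸ hv) n', rfl⟩,
        fun ⟨v, hv, l⟩ => ⟨u, ⟨hu.1, (h.dif.injOn (oR.1 hv) (sh u _ hu n') l ▸ hv).2⟩, rfl⟩⟩
    · exact ⟨fun ⟨v, hv, l⟩ => (n (l ▸ y.dif.mF (oR.1 hv))).elim,
        fun ⟨v, hv, l⟩ => (nK a ⟨ha.1, n⟩ (l ▸ h.dif.mF (oR.1 hv))).elim⟩
  have mE := arc_diff y.mc y.cc (arc_inv QT y.ec sQ)
  have eτ (a) (ha : a ∈ τ '' (S1 ×ˢ Rc x 3)) : (τ₁ ∘ τ') (c a) = c0 ((τ₁ ∘ τ') a) := by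
    obtain ⟨u, hu, rfl⟩ := ha
    simp only [Function.comp, ← y.ec u (oR.1 hu), y.dif.gf _ (oR.1 hu), y.dif.gf _ (oR.1 (sR hu)),
      h.ec u (oR.1 hu)]
  obtain ⟨p, pE, pN, br, fb⟩ := br_reglue p0_br p0_dk oE oN
    (fun a ha => (em _).symm.imp (fun n => ⟨ha, n⟩) (image_mono QR ·)) oE₁ oM
    (fun a ha => (em _).symm.imp (fun n => ⟨ha, n⟩) (image_mono QR ·)) mE
    (arc_inv oR.1 y.ec sR) dK dτ eK eτ ov (by
      rintro _ ⟨u, hu, rfl⟩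
      simp only [Function.comp, y.dif.gf _ (oR.1 hu)]
      exact ⟨fun q => ⟨oM.1 ⟨u, hu, rfl⟩, fun ⟨v, hv, l⟩ =>
        q.2 ⟨v, hv, by rw [h.dif.injOn (QT hv) (oR.1 hu) l]⟩⟩, fun q => ⟨oN.1 ⟨u, hu, rfl⟩,
          fun ⟨v, hv, l⟩ => q.2 ⟨v, hv, by rw [y.dif.injOn (QT hv) (oR.1 hu) l]⟩⟩⟩) dΘ (by
      rintro _ ⟨q, u, hu, rfl⟩
      have n' := (nQ u (oR.1 hu)).1 q.2
      simp only [Function.comp, y.dif.gf _ (oR.1 hu), e'e u hu]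
      rw [oK u (oR.1 hu) n', ← ee _ (sh u _ hu n'), arc_rot g f j hu n']
      rfl)
  have u1 := arcU_sub h x0 x1 abs_one
  have u2 := arcU_sub h x0 x1 (ε := -1) (by simp)
  have ss (a) (ha : a ∈ Sq3) : s a ∈ τ₁ '' (S1 ×ˢ Rc x 3) → a ∈ τ₁ '' (S1 ×ˢ Rc x 3) := by
    rintro ⟨u, hu, l⟩
    rw [← ds.gf a ha, ← l, ts u (oR.1 hu)]
    exact ⟨(u.1 * (-1) ^ j, u.2), ⟨mem_S1.2 (by simp [mem_S1.1 hu.1]), hu.2⟩, rfl⟩
  obtain ⟨Λ, l0, l1, l2⟩ : ∃ Λ : ℂ × ℂ → V, EqOn Λ (τ ∘ τ₁') (τ₁ '' (S1 ×ˢ Rc x 3)) ∧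
      EqOn Λ K' (arcU τ₁ zf x 1) ∧ EqOn Λ (K' ∘ s) (arcU τ₁ zf x (-1)) := by
    refine ⟨fun a => if a ∈ τ₁ '' (S1 ×ˢ Rc x 3) then τ (τ₁' a) else
      if a ∈ arcU τ₁ zf x 1 then K' a else K' (s a), fun a q => if_pos q, fun a q => ?_,
      fun a q => ?_⟩
    · beta_reduce
      split_ifs with m
      · obtain ⟨u, hu, rfl⟩ := m
        obtain ⟨a1, a2⟩ := arcU_R h x1 abs_one hu q
        have n' : u.2 ∉ Qc (x / 2) 2 := fun l => l.1.not_gt a2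
        have := oK u (oR.1 hu) n'
        rw [(f.near _ hu.2).2.2 a2, f.kp _ (by linarith), one_zpow, mul_one] at this
        rw [h.dif.gf _ (oR.1 hu), ← this, dK.gf _ ⟨oN.1 ⟨u, hu, rfl⟩, (nQ u (oR.1 hu)).2 n'⟩]
      · rfl
    · beta_reduce
      split_ifs with m m'
      · obtain ⟨u, hu, rfl⟩ := m
        obtain ⟨a1, a2⟩ := arcU_R h x1 (by simp) hu q
        have n' : u.2 ∉ Qc (x / 2) 2 := fun l => l.1.not_gt a2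
        have := oK u (oR.1 hu) n'
        rw [(f.near _ hu.2).2.2 a2, f.kn _ (by linarith), ← ts u (oR.1 hu)] at this
        rw [h.dif.gf _ (oR.1 hu), Function.comp, ← this,
          dK.gf _ ⟨oN.1 ⟨u, hu, rfl⟩, (nQ u (oR.1 hu)).2 n'⟩]
      · exact (arcU_disj h x0 m' q).elim
      · rfl
  have cK (a) (ha : a ∈ Sq3 \ τ₁ '' (S1 ×ˢ Qc (x / 2) 2)) : K' (c0 a) = c (K' a) := by
    rw [← dK.gf _ (mE (dK.mG ha)), eK _ (dK.mG ha), dK.fg a ha]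
  have cM := arc_inv oR.1 h.ec sR
  have o1 := arcU_opn (x := x) (ε := 1) h
  have o2 := arcU_opn (x := x) (ε := -1) h
  have E0 : Emb (τ₁ '' (S1 ×ˢ Rc x 3)) Y Λ := (dτ.symm.emb oN).congr l0
  have dn {U} (o : Opn U Sq3) (q : U ⊆ Sq3 \ τ₁ '' (S1 ×ˢ Qc (x / 2) 2)) :
      Opn U (Sq3 \ τ₁ '' (S1 ×ˢ Qc (x / 2) 2)) :=
    ⟨q, fun a m => nhdsWithin_mono a sdiff_subset (o.2 a m)⟩
  have E1 : Emb (arcU τ₁ zf x 1) Y Λ := ((dK.symm.emb oE).mono (dn o1 u1)).congr l1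
  have E2 : Emb (arcU τ₁ zf x (-1)) Y Λ := ((((ds.emb (.refl _)).mono o2).down sdiff_subset
    fun a q => u2 (us _ _ q)).comp (dK.symm.emb oE)).congr l2
  set O := τ₁ '' (S1 ×ˢ Rc x 3) ∪ (arcU τ₁ zf x 1 ∪ arcU τ₁ zf x (-1)) with hO
  have oO : Opn O Sq3 := ⟨union_subset oM.1 (union_subset o1.1 o2.1), fun a q => q.elim
    (fun q => Filter.mem_of_superset (oM.2 a q) subset_union_left) fun q => q.elim
      (fun q => Filter.mem_of_superset (o1.2 a q) fun _ l => .inr (.inl l))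
      fun q => Filter.mem_of_superset (o2.2 a q) fun _ l => .inr (.inr l)⟩
  have up {U} (o : Opn U Sq3) (q : U ⊆ O) : Opn U O :=
    ⟨q, fun a m => nhdsWithin_mono a oO.1 (o.2 a m)⟩
  have out (a) (ha : a ∈ O) (n : a ∉ τ₁ '' (S1 ×ˢ Rc x 3)) : Λ a ∉ τ '' (S1 ×ˢ Rc x 3) ∧
      (K (Λ a) ∈ arcU τ₁ zf x 1 ∧ a = K (Λ a) ∨ K (Λ a) ∈ arcU τ₁ zf x (-1) ∧ a = s (K (Λ a))) := by
    rcases ha.resolve_left n with q | q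
    · rw [l1 q, ov _ (dK.mG (u1 q)), dK.fg _ (u1 q)]
      exact ⟨n, .inl ⟨q, rfl⟩⟩
    · have q' := us _ _ q
      rw [l2 q, Function.comp, ov _ (dK.mG (u2 q')), dK.fg _ (u2 q')]
      exact ⟨fun l => n (ss a (o2.1 q) l), .inr ⟨q', (ds.gf a (o2.1 q)).symm⟩⟩
  have inj : InjOn Λ O := fun a ha a' ha' l => by
    by_cases n : a ∈ τ₁ '' (S1 ×ˢ Rc x 3) <;> by_cases n' : a' ∈ τ₁ '' (S1 ×ˢ Rc x 3)
    · exact E0.injOn n n' l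
    · exact ((out a' ha' n').1 (l ▸ l0 n ▸ dτ.mG n)).elim
    · exact ((out a ha n).1 (l ▸ l0 n' ▸ dτ.mG n')).elim
    · have q := (out a ha n).2
      rw [l] at q
      rcases q with q | q <;> rcases (out a' ha' n').2 with q' | q'
      exacts [q.2.trans q'.2.symm, (arcU_disj h x0 q.1 q'.1).elim, (arcU_disj h x0 q'.1 q.1).elim,
        q.2.trans q'.2.symm]
  obtain ⟨ν', ν, r, t', t, l⟩ := rpc_tube (O := O) (Λ := Λ) fb oO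
    (cM.union_union ((arcU_c0 h).union_union (arcU_c0 h)))
    (fun a ha r => (em _).imp_right (arcU_real h x0 ha r))
    (emb_of_loc inj fun a q => q.elim (fun q => ⟨_, up oM subset_union_left, q, E0⟩) fun q => q.elim
      (fun q => ⟨_, up o1 fun _ l => .inr (.inl l), q, E1⟩)
      fun q => ⟨_, up o2 fun _ l => .inr (.inr l), q, E2⟩)
    (fun a q => by
      rcases q with q | q | q
      · rw [l0 (cM q), l0 q]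
        obtain ⟨u, hu, rfl⟩ := q
        simp only [Function.comp, ← h.ec u (oR.1 hu), h.dif.gf _ (oR.1 hu),
          h.dif.gf _ (oR.1 (sR hu)), y.ec u (oR.1 hu)]
      · rw [l1 (arcU_c0 h q), l1 q, cK a (u1 q)]
      · rw [l2 (arcU_c0 h q), l2 q, Function.comp, Function.comp, cs, cK _ (u2 (us _ _ q))])
    (fun a ha r => by
      by_cases n : a ∈ τ '' (S1 ×ˢ Rc x 3)
      · exact ⟨_, .inl (dτ.mF n), (l0 (dτ.mF n)).trans (dτ.gf a n)⟩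
      · have m : a ∈ Y \ τ '' (S1 ×ˢ Qc (x / 2) 2) := ⟨ha, fun q => n (image_mono QR q)⟩
        rcases arcU_real h x0 (dK.mF m).1 ((c0_fix _).1 (by rw [← eK a m, r])) (mt (ov a m).2 n)
          with q | q
        · exact ⟨_, .inr (.inl q), (l1 q).trans (dK.gf a m)⟩
        · exact ⟨_, .inr (.inr (us _ _ q)), (l2 (us _ _ q)).trans
            ((congrArg K' (ds.gf _ (dK.mF m).1)).trans (dK.gf a m))⟩)
    fun a q => by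
      rcases q with q | q | q
      · refine ⟨_, _, oM, subset_union_left, q, dΘ.emb (p0_br.opn_image oM), fun a' q' => ?_⟩
        rw [l0 q', pN _ (dτ.mG q'), dτ.fg a' q']
      · refine ⟨_, id, o1, fun _ l => .inr (.inl l), q, (p0_br.opn_image o1).emb, fun a' q' => ?_⟩
        rw [l1 q', pE _ (dK.mG (u1 q')), dK.fg _ (u1 q'), id]
      · refine ⟨_, b, o2, fun _ l => .inr (.inr l), q,
          (db.emb (.refl _)).mono (p0_br.opn_image o2), fun a' q' => ?_⟩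
        rw [l2 q', Function.comp, pE _ (dK.mG (u2 (us _ _ q'))), dK.fg _ (u2 (us _ _ q')), ps]
  exact ⟨p, ν', ν, r ▸ br, fun a ha => (fb a ha _ (y.mc ha)).2 (.inr rfl), t', t, l⟩

theorem exists_pt_of {Y N : Set V} {c : V → V} {j : ℤ} {τ₁ τ₁' : ℂ × ℂ → ℂ × ℂ} {N₁ : Set (ℂ × ℂ)}
    {zf : ℂ × ℂ → ℝ} {τ : ℂ × ℂ → V} {τ' J : V → ℂ × ℂ} {J' : ℂ × ℂ → V} (h₁ : TS τ₁ τ₁' N₁ zf)
    (y : TY Y c j τ₁ τ τ' N J J') : ∃ (p : V → (ℝ × ℂ) × ℝ) (ν' : ℝ × ℂ → V)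
      (ν : ℝ × ℂ → (ℝ × ℂ) × ℝ), Br ℝ Y (Sph ℝ) (range fun t => ν (t, 0)) p ∧
      (∀ a ∈ Y, p (c a) = p a) ∧ Tube Y ν' 2 ∧ Tube (Sph ℝ) ν 4 ∧
      ∀ t z, ‖z‖ < 2 → p (ν' (t, z)) = ν (t, z ^ 2) := by
  obtain ⟨τ₂, τ₂', h, ad, e1, e2⟩ := exists_at h₁
  exact rpt_ad h ad ⟨y.mc, y.cc, y.dif, y.opn, y.ec, e2 ▸ y.dJ, y.eJ, fun u hu k => by
    have n : u.2 ≠ 0 := norm_pos_iff.1 (by linarith)
    rw [y.ov u hu k, e1 (u.1 * ph u.2 ^ j, u.2) ⟨mem_S1.2 (by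
      rw [norm_mul, norm_zpow, ph_norm n, mem_S1.1 hu.1]; simp), hu.2⟩ (by simp only; linarith)]⟩

/-- The quotient of a Brieskorn sphere by conjugation, with tubes. -/
theorem exists_pt (s : ℤ) : ∃ (p : C3 → (ℝ × ℂ) × ℝ) (ν' : ℝ × ℂ → C3)
    (ν : ℝ × ℂ → (ℝ × ℂ) × ℝ), Br ℝ (Bri (6 * s + 1).natAbs) (Sph ℝ) (range fun t => ν (t, 0)) p ∧
      (∀ a ∈ Bri (6 * s + 1).natAbs, p (star a) = p a) ∧ Tube (Bri (6 * s + 1).natAbs) ν' 2 ∧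
      Tube (Sph ℝ) ν 4 ∧ ∀ t z, ‖z‖ < 2 → p (ν' (t, z)) = ν (t, z ^ 2) := by
  obtain ⟨j, τ₁, τ₁', N₁, zf, τ, τ', N, J, J', h, y⟩ := exists_con s
  exact exists_pt_of h y

end Pool.Agent.Lib.MP_b2e238_gt
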