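import Pool.Agent.Lib.MP_b2e238_gt.R.Defs
import Pool.Agent.Lib.MP_b2e238_gt.U.Sec
import Pool.Agent.Lib.MP_b2e238_gt.Z.Br

/-! Regluing a branched cover. -/

open scoped ContDiff Topology
open Set Metric

noncomputable section

namespace Pool.Agent.Lib.MP_b2e238_gt

variable {P V W V' : Type} [NormedAddCommGroup P] [NormedSpace ℝ P] [NormedAddCommGroup V]
  [NormedSpace ℝ V] [NormedAddCommGroup W] [NormedSpace ℝ W] [NormedAddCommGroup V']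
  [NormedSpace ℝ V'] [FiniteDimensional ℝ P] [FiniteDimensional ℝ V] [FiniteDimensional ℝ W]
  [FiniteDimensional ℝ V']

theorem Br.opn_image {A N : Set V} {B F : Set W} {π : V → W} (h : Br P A B F π) (o : Opn N A) :
    Opn (π '' N) B := by
  refine ⟨image_subset_iff.2 fun a ha => h.mapsTo (o.1 ha), ?_⟩
  rintro _ ⟨a, ha, rfl⟩
  obtain ⟨k, φ, ψ, U, U', hk, p, q, ⟨u, hu, rfl⟩, e⟩ := h.2.2 a (o.1 ha)
  have : NeZero k := ⟨by omega⟩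
  have g : IsOpenMap (Prod.map id (· ^ k) : P × ℂ → P × ℂ) :=
    IsOpenMap.id.prodMap (Complex.isOpenQuotientMap_pow k).isOpenMap
  have m := g.image_mem_nhds
    ((par_pre p.2.1.continuousOn p.1 o p.2.2.2.1).mem_nhds (⟨hu, ha⟩ : u ∈ U ∩ φ ⁻¹' N))
  rw [(e u hu).2.1]
  refine Filter.mem_of_superset ((q.2.2.2.2 _ (e u hu).1).2 _ m) ?_
  rintro _ ⟨_, ⟨v, hv, rfl⟩, rfl⟩
  exact ⟨φ v, hv.2, (e v hv.1).2.1⟩

/-- an equivariant diffeomorphism onto an open part -/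
theorem rreg_eqv {E : Set V} {Y₁ E₁ : Set V'} {F₁ : Set W} {c : V → V} {c₁ : V' → V'}
    {p₀ : V' → W} (k : Dk Y₁ F₁ p₀ c₁) (s : E₁ ⊆ Y₁) (mE : MapsTo c E E) {J : V → V'} {J' : V' → V}
    (dJ : Dif E E₁ J J') (eJ : ∀ a ∈ E, J (c a) = c₁ (J a)) :
    (∀ x ∈ E₁, ∀ x' ∈ Y₁, p₀ x' = p₀ x → x' ∈ E₁) ∧
      (∀ a ∈ E, ∀ a' ∈ E, p₀ (J a') = p₀ (J a) ↔ a' = a ∨ a' = c a) ∧
      ∀ x ∈ E₁, c (J' x) = J' x ↔ p₀ x ∈ F₁ := by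
  refine ⟨fun x hx x' hx' e => ?_, fun a ha a' ha' => ⟨fun e => ?_, ?_⟩, fun x hx => ?_⟩
  · rcases k.fib x (s hx) x' hx' e with rfl | rfl
    · exact hx
    · rw [← dJ.fg x hx, ← eJ _ (dJ.mG hx)]
      exact dJ.mF (mE (dJ.mG hx))
  · exact (k.fib _ (s (dJ.mF ha)) _ (s (dJ.mF ha')) e).imp (dJ.injOn ha' ha)
      fun e => dJ.injOn ha' (mE ha) (e.trans (eJ a ha).symm)
  · rintro (rfl | rfl)
    · rfl
    · rw [eJ a ha, k.ovr _ (s (dJ.mF ha))]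
  · rw [← k.fix x (s hx), ← dJ.injOn.eq_iff (mE (dJ.mG hx)) (dJ.mG hx), eJ _ (dJ.mG hx), dJ.fg x hx]

theorem br_reglue {Y E N : Set V} {Y₁ E₁ N₁ : Set V'} {B F₁ : Set W} {c : V → V} {c₁ : V' → V'}
    {p₀ : V' → W} (h : Br P Y₁ B F₁ p₀) (k : Dk Y₁ F₁ p₀ c₁) (oE : Opn E Y) (oN : Opn N Y)
    (cv : Y ⊆ E ∪ N) (oE₁ : Opn E₁ Y₁) (oN₁ : Opn N₁ Y₁) (cv₁ : Y₁ ⊆ E₁ ∪ N₁) (mE : MapsTo c E E)
    (mN : MapsTo c N N) {J τ : V → V'} {J' τ' : V' → V} (dJ : Dif E E₁ J J') (dτ : Dif N N₁ τ τ')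
    (eJ : ∀ a ∈ E, J (c a) = c₁ (J a)) (eτ : ∀ a ∈ N, τ (c a) = c₁ (τ a))
    (ov : ∀ a ∈ E, a ∈ N ↔ J a ∈ N₁) (ov' : ∀ a ∈ N, a ∈ E ↔ τ a ∈ E₁) {Θ Θ' : W → W}
    (dΘ : Dif (p₀ '' N₁) (p₀ '' N₁) Θ Θ') (e : ∀ a ∈ E ∩ N, Θ (p₀ (τ a)) = p₀ (J a)) :
    ∃ p : V → W, (∀ a ∈ E, p a = p₀ (J a)) ∧ (∀ a ∈ N, p a = Θ (p₀ (τ a))) ∧
      Br P Y B (p '' {a | a ∈ Y ∧ c a = a}) p ∧
      ∀ a ∈ Y, ∀ a' ∈ Y, p a' = p a ↔ a' = a ∨ a' = c a := by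
  classical
  obtain ⟨sE, fE, zE⟩ := rreg_eqv k oE₁.1 mE dJ eJ
  obtain ⟨sN, fN, zN⟩ := rreg_eqv k oN₁.1 mN dτ eτ
  obtain ⟨p, pE, pN⟩ : ∃ p : V → W, (∀ a ∈ E, p a = p₀ (J a)) ∧ ∀ a ∈ N, p a = Θ (p₀ (τ a)) :=
    ⟨fun a => if a ∈ E then p₀ (J a) else Θ (p₀ (τ a)), fun a ha => if_pos ha, fun a ha => by
      by_cases m : a ∈ E
      · exact (if_pos m).trans (e a ⟨m, ha⟩).symm
      · exact if_neg m⟩
  have mτ : ∀ a ∈ N, p₀ (τ a) ∈ p₀ '' N₁ := fun a ha => mem_image_of_mem _ (dτ.mF ha)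
  have mix : ∀ a ∈ E, ∀ a' ∈ N, p a' = p a → a ∈ N := fun a ha a' ha' q => by
    obtain ⟨x, hx, r⟩ := dΘ.mF (mτ a' ha')
    exact (ov a ha).2 (sN x hx _ (oE₁.1 (dJ.mF ha)) (by rw [r, ← pN a' ha', q, pE a ha]))
  have nn : ∀ a ∈ N, ∀ a' ∈ N, p a' = p a ↔ a' = a ∨ a' = c a := fun a ha a' ha' => by
    rw [pN a ha, pN a' ha', dΘ.injOn.eq_iff (mτ a' ha') (mτ a ha), fN a ha a' ha']
  have ee : ∀ a ∈ E, ∀ a' ∈ E, p a' = p a ↔ a' = a ∨ a' = c a := fun a ha a' ha' => by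
    rw [pE a ha, pE a' ha', fE a ha a' ha']
  have fib : ∀ a ∈ Y, ∀ a' ∈ Y, p a' = p a ↔ a' = a ∨ a' = c a := fun a ha a' ha' => by
    constructor
    · intro q
      rcases cv ha with m | m <;> rcases cv ha' with m' | m'
      · exact (ee a m a' m').1 q
      · exact (nn a (mix a m a' m' q) a' m').1 q
      · exact (nn a m a' (mix a' m' a m q.symm)).1 q
      · exact (nn a m a' m').1 q
    · rintro (rfl | rfl)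
      · rfl
      · exact (cv ha).elim (fun m => (ee a m _ (mE m)).2 (.inr rfl))
          fun m => (nn a m _ (mN m)).2 (.inr rfl)
  have cY : ∀ a ∈ Y, c a ∈ Y := fun a ha => (cv ha).elim (fun m => oE.1 (mE m)) fun m => oN.1 (mN m)
  have sur : ∀ b ∈ B, ∃ a ∈ Y, p a = b := fun b hb => by
    obtain ⟨x, hx, rfl⟩ := h.surj hb
    rcases cv₁ hx with m | m
    · exact ⟨J' x, oE.1 (dJ.mG m), by rw [pE _ (dJ.mG m), dJ.fg x m]⟩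
    · obtain ⟨y, hy, r⟩ := dΘ.mG (mem_image_of_mem p₀ m)
      exact ⟨τ' y, oN.1 (dτ.mG hy), by
        rw [pN _ (dτ.mG hy), dτ.fg y hy, r, dΘ.fg _ (mem_image_of_mem p₀ m)]⟩
  have fx : ∀ a ∈ Y, p a ∈ p '' {a | a ∈ Y ∧ c a = a} ↔ c a = a := fun a ha =>
    ⟨fun ⟨a₀, m, q⟩ => by
      rcases (fib a₀ m.1 a ha).1 q.symm with r | r
      · exact r ▸ m.2
      · rw [r, m.2, m.2], fun q => ⟨a, ⟨ha, q⟩, rfl⟩⟩
  have pair : ∀ a ∈ Y, Y ∩ p ⁻¹' {p a} = {a, c a} := fun a ha => ext fun a' =>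
    ⟨fun m => (fib a ha a' m.1).1 m.2, fun m =>
      have : a' ∈ Y := m.elim (fun r => r ▸ ha) fun r => (r : a' = c a) ▸ cY a ha
      ⟨this, (fib a ha a' this).2 m⟩⟩
  refine ⟨p, pE, pN, br_of_brAt (fun b hb => ?_) ?_ fun a ha => ?_, fib⟩
  · obtain ⟨a, ha, rfl⟩ := sur b hb.1
    rw [pair a ha, ncard_pair fun q => hb.2 ((fx a ha).2 q.symm)]
  · rintro _ ⟨a, ha, rfl⟩
    rw [pair a ha.1, ha.2, pair_eq_singleton, ncard_singleton]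
  rcases cv ha with m | m
  · rw [← dJ.gf a m]
    exact (h.brAt (oE₁.1 (dJ.mF m))).map dJ.symm oE₁ oE (Dif.refl B) (.refl _) (.refl _) (dJ.mF m)
      (fun x hx => h.mapsTo (oE₁.1 hx)) fun x hx => ⟨by rw [pE _ (dJ.mG hx), dJ.fg x hx]; rfl,
        (fx _ (oE.1 (dJ.mG hx))).trans (zE x hx)⟩
  · rw [← dτ.gf a m]
    exact (h.brAt (oN₁.1 (dτ.mF m))).map dτ.symm oN₁ oN dΘ (h.opn_image oN₁) (h.opn_image oN₁)
      (dτ.mF m) (mapsTo_image _ _) fun x hx => ⟨by rw [pN _ (dτ.mG hx), dτ.fg x hx],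
        (fx _ (oN.1 (dτ.mG hx))).trans (zN x hx)⟩

end Pool.Agent.Lib.MP_b2e238_gt
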