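import Pool.Agent.Lib.MP_b2e238_gt.R.Defs
import Pool.Agent.Lib.MP_b2e238_gt.Z.Slide
import Pool.Agent.Lib.MP_b2e238_gt.K.Emb

/-! Thin tubes in an open set. -/

open scoped ContDiff Topology
open Set Metric

noncomputable section

namespace Pool.Agent.Lib.MP_b2e238_gt

variable {P V W V' : Type} [NormedAddCommGroup P] [NormedSpace ℝ P] [NormedAddCommGroup V]
  [NormedSpace ℝ V] [NormedAddCommGroup W] [NormedSpace ℝ W] [NormedAddCommGroup V']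
  [NormedSpace ℝ V'] [FiniteDimensional ℝ P] [FiniteDimensional ℝ V] [FiniteDimensional ℝ W]
  [FiniteDimensional ℝ V']

theorem Tube.thin {A O : Set V} {ν : ℝ × ℂ → V} (h : Tube A ν 1) (o : Opn O A)
    (m : ∀ t, ν (t, 0) ∈ O) : ∃ η₀ : ℝ, 0 < η₀ ∧ η₀ ≤ 1 ∧ ∀ t z, ‖z‖ < η₀ → ν (t, z) ∈ O := by
  obtain ⟨O', o', rfl⟩ := opn_iff.1 o
  obtain ⟨u, v, -, hv, a, b, c⟩ := generalized_tube_lemma (isCompact_Icc (a := (0 : ℝ)) (b := 1))
    (isCompact_singleton (x := (0 : ℂ)))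
    (h.smooth.continuousOn.isOpen_inter_preimage (isOpen_univ.prod isOpen_ball) o')
    (by rintro ⟨t, _⟩ ⟨-, rfl⟩; exact ⟨⟨trivial, mem_ball_self one_pos⟩, (m t).2⟩)
  obtain ⟨ε, p, k⟩ := Metric.isOpen_iff.1 hv 0 (b rfl)
  refine ⟨min ε 1, by positivity, min_le_right _ _, fun t z hz => ?_⟩
  have e := h.int (Int.fract t) z ⌊t⌋
  rw [Int.fract_add_floor] at e
  obtain ⟨z1, z2⟩ := lt_min_iff.1 hz
  exact ⟨h.mem t z2, e ▸ (c (mk_mem_prod (a ⟨Int.fract_nonneg t, (Int.fract_lt_one t).le⟩)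
    (k (mem_ball_zero_iff.2 z1)))).2⟩

theorem Tube.push {A O : Set V} {A' : Set W} {ν : ℝ × ℂ → V} {Λ : V → W} (h : Tube A ν 1)
    (o : Opn O A) (e : Emb O A' Λ) {η r : ℝ} (p : 0 < η) (q : η * r ≤ 1)
    (m : ∀ t z, ‖z‖ < η * r → ν (t, z) ∈ O) : Tube A' (fun u => Λ (ν (u.1, η * u.2))) r := by
  obtain ⟨o', χ, d⟩ := e
  have n : (η : ℂ) ≠ 0 := Complex.ofReal_ne_zero.2 p.ne'
  have k (z : ℂ) : ‖η * z‖ < η * r ↔ ‖z‖ < r := by
    rw [norm_mul, Complex.norm_real, Real.norm_of_nonneg p.le, mul_lt_mul_iff_right₀ p]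
  refine ⟨fun t z => congrArg Λ (h.1 t _), fun s => ?_⟩
  have D : Dif (Ioo s (s + 1) ×ˢ ball (0 : ℂ) r) (Ioo s (s + 1) ×ˢ ball (0 : ℂ) (η * r))
      (fun u : ℝ × ℂ => (u.1, η * u.2)) fun u => (u.1, (η : ℂ)⁻¹ * u.2) :=
    ⟨by fun_prop, by fun_prop,
      fun u hu => ⟨hu.1, mem_ball_zero_iff.2 ((k _).2 (mem_ball_zero_iff.1 hu.2))⟩,
      fun u hu => ⟨hu.1, mem_ball_zero_iff.2 ((k _).1 (by
        rw [mul_inv_cancel_left₀ n]; exact mem_ball_zero_iff.1 hu.2))⟩,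
      fun u _ => Prod.ext rfl (inv_mul_cancel_left₀ n _),
      fun u _ => Prod.ext rfl (mul_inv_cancel_left₀ n _)⟩
  exact d.par o o' (((h.2 s).mono (isOpen_Ioo.prod isOpen_ball)
    (prod_mono subset_rfl (ball_subset_ball q))).comp D (isOpen_Ioo.prod isOpen_ball))
    fun u hu => m _ _ ((k _).2 (mem_ball_zero_iff.1 hu.2))

end Pool.Agent.Lib.MP_b2e238_gt
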