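import Pool.Agent.Lib.MP_b2e238_gt.R.P0
import Pool.Agent.Lib.MP_b2e238_gt.R.Reg
import Pool.Agent.Lib.MP_b2e238_gt.R.Tb
import Pool.Agent.Lib.MP_b2e238_gt.B.CO

/-! Tubes round the fixed circle and round its image. -/

open scoped ContDiff Topology
open Set Metric

noncomputable section

namespace Pool.Agent.Lib.MP_b2e238_gt

variable {V : Type} [NormedAddCommGroup V] [NormedSpace ℝ V] [FiniteDimensional ℝ V]

/-- Tubes from an equivariant embedding of a neighbourhood of the fixed circle. -/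
theorem rpc_tube {Y : Set V} {c : V → V} {p : V → (ℝ × ℂ) × ℝ} {O : Set (ℂ × ℂ)} {Λ : ℂ × ℂ → V}
    (fb : ∀ a ∈ Y, ∀ a' ∈ Y, p a' = p a ↔ a' = a ∨ a' = c a) (o : Opn O Sq3)
    (mO : MapsTo c0 O O) (rO : ∀ a ∈ Sq3, a.2 = 0 → a ∈ O) (e : Emb O Y Λ)
    (eq : ∀ a ∈ O, Λ (c0 a) = c (Λ a)) (on : ∀ b ∈ Y, c b = b → ∃ a ∈ O, Λ a = b)
    (loc : ∀ a ∈ O, ∃ U Ξ, Opn U Sq3 ∧ U ⊆ O ∧ a ∈ U ∧ Emb (p0 '' U) (Sph ℝ) Ξ ∧
      ∀ a' ∈ U, p (Λ a') = Ξ (p0 a')) :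
    ∃ (ν' : ℝ × ℂ → V) (ν : ℝ × ℂ → (ℝ × ℂ) × ℝ),
      p '' {a | a ∈ Y ∧ c a = a} = range (fun t => ν (t, 0)) ∧ Tube Y ν' 2 ∧ Tube (Sph ℝ) ν 4 ∧
      ∀ t z, ‖z‖ < 2 → p (ν' (t, z)) = ν (t, z ^ 2) := by
  obtain ⟨Ξ, hΞ⟩ : ∃ Ξ : (ℝ × ℂ) × ℝ → (ℝ × ℂ) × ℝ, ∀ a ∈ O, Ξ (p0 a) = p (Λ a) := by
    refine ⟨fun b => p (Λ (Function.invFunOn p0 O b)), fun a ha => ?_⟩
    have m : Function.invFunOn p0 O (p0 a) ∈ O := Function.invFunOn_mem ⟨a, ha, rfl⟩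
    rcases p0_dk.fib a (o.1 ha) _ (o.1 m) (Function.invFunOn_eq ⟨a, ha, rfl⟩) with k | k
    · simp only [k]
    · simp only [k, eq a ha]
      exact (fb _ (e.mapsTo ha) _ (eq a ha ▸ e.mapsTo (mO ha))).2 (.inr rfl)
  have oO := p0_br.opn_image o
  have eΞ : Emb (p0 '' O) (Sph ℝ) Ξ := by
    refine emb_of_loc ?_ ?_
    · rintro _ ⟨a, ha, rfl⟩ _ ⟨a', ha', rfl⟩ k
      rw [hΞ a ha, hΞ a' ha'] at k
      rcases (fb _ (e.mapsTo ha') _ (e.mapsTo ha)).1 k with k | k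
      · rw [e.injOn ha ha' k]
      · rw [e.injOn ha (mO ha') (k.trans (eq a' ha').symm), p0_dk.ovr a' (o.1 ha')]
    · rintro _ ⟨a, ha, rfl⟩
      obtain ⟨U, Ξ', oU, s, m, e', k⟩ := loc a ha
      have q := p0_br.opn_image oU
      refine ⟨_, ⟨image_mono s, fun b hb => nhdsWithin_mono b oO.1 (q.2 b hb)⟩, ⟨a, m, rfl⟩,
        e'.congr ?_⟩
      rintro _ ⟨a', ha', rfl⟩
      rw [hΞ a' (s ha'), k a' ha']
  have m1 (t : ℝ) (z : ℂ) : nu1 (t, z) ∈ Sq3 := (nu1_tube (‖z‖ + 1)).mem t (lt_add_one _)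
  have r1 (t : ℝ) : nu1 (t, 0) ∈ O := rO _ (m1 t 0) ((nu1_snd t 0).2 rfl)
  obtain ⟨η, p1, p2, hη⟩ := (nu1_tube 1).thin o r1
  refine ⟨fun u => Λ (nu1 (u.1, (η / 2 : ℝ) * u.2)), fun u => Ξ (nu0 (u.1, ((η / 2) ^ 2 : ℝ) * u.2)),
    ?_, (nu1_tube 1).push o e (half_pos p1) (by linarith) fun t z k => hη t z (by linarith),
    (nu0_tube 1).push oO eΞ (by positivity) (by nlinarith) fun t z k => ?_, fun t z k => ?_⟩
  · have e0 (t : ℝ) : Ξ (nu0 (t, 0)) = p (Λ (nu1 (t, 0))) := by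
      rw [← hΞ _ (r1 t), p0_nu1]; simp
    simp only [mul_zero, e0]
    refine Subset.antisymm ?_ ?_
    · rintro _ ⟨b, ⟨hb, k⟩, rfl⟩
      obtain ⟨a, ha, rfl⟩ := on b hb k
      obtain ⟨t, rfl⟩ := nu1_real (o.1 ha) ((c0_fix a).1 (e.injOn (mO ha) ha ((eq a ha).trans k)))
      exact ⟨t, rfl⟩
    · rintro _ ⟨t, rfl⟩
      exact ⟨_, ⟨e.mapsTo (r1 t), by rw [← eq _ (r1 t), c0_nu1, neg_zero]⟩, rfl⟩
  · refine ⟨nu1 (t, sq z), hη t _ ?_, by rw [p0_nu1, sq_sq]⟩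
    have : ‖sq z‖ ^ 2 = ‖z‖ := by rw [← norm_pow, sq_sq]
    exact lt_of_pow_lt_pow_left₀ 2 p1.le (by rw [this]; nlinarith)
  · have : ‖((η / 2 : ℝ) : ℂ) * z‖ < η := by
      rw [norm_mul, Complex.norm_real, Real.norm_of_nonneg (half_pos p1).le]; nlinarith
    simp only
    rw [← hΞ _ (hη t _ this), p0_nu1, mul_pow, Complex.ofReal_pow]

end Pool.Agent.Lib.MP_b2e238_gt
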